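import Mathlib

/-! Mollification in `L²` of a Euclidean space. -/

set_option autoImplicit false
open MeasureTheory Metric Set Filter Topology
open scoped ENNReal ContDiff Convolution NNReal

namespace Pool.Agent.helper33.Insul

abbrev E (n : ℕ) := EuclideanSpace ℝ (Fin n)

variable {n : ℕ} {F : Type*} [NormedAddCommGroup F] [NormedSpace ℝ F]

theorem eLpNorm_two_sq {α : Type*} [MeasurableSpace α] {μ : Measure α} {G : Type*}
    [NormedAddCommGroup G] (f : α → G) :
    (eLpNorm f 2 μ) ^ 2 = ∫⁻ x, ‖f x‖ₑ ^ 2 ∂μ := by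
  rw [eLpNorm_eq_lintegral_rpow_enorm_toReal (by norm_num) (by norm_num)]
  simp only [ENNReal.toReal_ofNat, one_div]
  rw [← ENNReal.rpow_natCast, ← ENNReal.rpow_mul]
  norm_num

theorem eLpNorm_two_le_iff {α : Type*} [MeasurableSpace α] {μ : Measure α} {G H : Type*}
    [NormedAddCommGroup G] [NormedAddCommGroup H] (f : α → G) (g : α → H) :
    eLpNorm f 2 μ ≤ eLpNorm g 2 μ ↔ ∫⁻ x, ‖f x‖ₑ ^ 2 ∂μ ≤ ∫⁻ x, ‖g x‖ₑ ^ 2 ∂μ := by
  rw [← eLpNorm_two_sq, ← eLpNorm_two_sq]
  exact (ENNReal.pow_le_pow_left_iff (by norm_num)).symm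

/-- Cauchy-Schwarz for a weight of total mass one -/
theorem lintegral_weight_sq_le {α : Type*} [MeasurableSpace α] {μ : Measure α}
    (r h : α → ℝ≥0∞) (hr : Measurable r) (hh : AEMeasurable h μ) (h1 : ∫⁻ x, r x ∂μ = 1) :
    (∫⁻ x, r x * h x ∂μ) ^ 2 ≤ ∫⁻ x, r x * h x ^ 2 ∂μ := by
  have e1 : ∀ x, r x * h x = (r x) ^ (1 / 2 : ℝ) * ((r x) ^ (1 / 2 : ℝ) * h x) := by
    intro x
    rw [← mul_assoc, ← ENNReal.rpow_add_of_nonneg _ _ (by norm_num) (by norm_num)]
    norm_num
  have h2 := ENNReal.lintegral_mul_le_Lp_mul_Lq μ (Real.HolderConjugate.two_two)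
    (f := fun x => (r x) ^ (1 / 2 : ℝ)) (g := fun x => (r x) ^ (1 / 2 : ℝ) * h x)
    (hr.pow_const _).aemeasurable ((hr.pow_const _).aemeasurable.mul hh)
  have e2 : ∀ x, ((r x) ^ (1 / 2 : ℝ)) ^ (2 : ℝ) = r x := by
    intro x
    rw [← ENNReal.rpow_mul]; norm_num
  have e3 : ∀ x, ((r x) ^ (1 / 2 : ℝ) * h x) ^ (2 : ℝ) = r x * h x ^ 2 := by
    intro x
    rw [ENNReal.mul_rpow_of_nonneg _ _ (by norm_num), e2]
    norm_num
  simp only [Pi.mul_apply] at h2
  simp_rw [e2, e3] at h2
  rw [h1, ENNReal.one_rpow, one_mul] at h2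
  calc (∫⁻ x, r x * h x ∂μ) ^ 2
      = (∫⁻ x, (r x) ^ (1 / 2 : ℝ) * ((r x) ^ (1 / 2 : ℝ) * h x) ∂μ) ^ 2 := by
        simp_rw [← e1]
    _ ≤ ((∫⁻ x, r x * h x ^ 2 ∂μ) ^ (1 / 2 : ℝ)) ^ 2 := by gcongr
    _ = ∫⁻ x, r x * h x ^ 2 ∂μ := by
        rw [← ENNReal.rpow_natCast, ← ENNReal.rpow_mul]; norm_num

/-- the mollified function -/
noncomputable def moll (ρ : E n → ℝ) (f : E n → F) : E n → F :=
  ρ ⋆[ContinuousLinearMap.lsmul ℝ ℝ, volume] f

theorem moll_apply (ρ : E n → ℝ) (f : E n → F) (x : E n) :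
    moll ρ f x = ∫ t, ρ t • f (x - t) := by
  simp [moll, convolution]

theorem moll_apply' (ρ : E n → ℝ) (f : E n → F) (x : E n) :
    moll ρ f x = ∫ y, ρ (x - y) • f y := by
  rw [moll_apply]
  rw [← integral_sub_left_eq_self (fun y => ρ (x - y) • f y) volume x]
  simp

theorem moll_congr (ρ : E n → ℝ) {f g : E n → F} (h : f =ᵐ[volume] g) : moll ρ f = moll ρ g := by
  ext x
  rw [moll_apply', moll_apply']
  apply integral_congr_ae
  filter_upwards [h] with y hy
  rw [hy]

theorem moll_l2_le (ρ : E n → ℝ) (hρ : Measurable ρ)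
    (h1 : ∫⁻ x, ‖ρ x‖ₑ = 1) (f : E n → F) (hf : AEStronglyMeasurable f volume) :
    eLpNorm (moll ρ f) 2 volume ≤ eLpNorm f 2 volume := by
  obtain ⟨f', hf', hff'⟩ := hf
  rw [moll_congr ρ hff', eLpNorm_congr_ae hff', eLpNorm_two_le_iff]
  have hfe : Measurable fun x => ‖f' x‖ₑ := hf'.enorm
  have hρe : Measurable fun x => ‖ρ x‖ₑ := hρ.enorm
  calc ∫⁻ x, ‖moll ρ f' x‖ₑ ^ 2 ≤ ∫⁻ x, ∫⁻ t, ‖ρ t‖ₑ * ‖f' (x - t)‖ₑ ^ 2 := by
        refine lintegral_mono fun x => ?_
        rw [moll_apply]
        refine (pow_le_pow_left' (enorm_integral_le_lintegral_enorm _) 2).trans ?_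
        simp only [enorm_smul]
        exact lintegral_weight_sq_le _ _ hρe
          (hfe.comp (measurable_const.sub measurable_id)).aemeasurable h1
    _ = ∫⁻ t, ∫⁻ x, ‖ρ t‖ₑ * ‖f' (x - t)‖ₑ ^ 2 := by
        rw [lintegral_lintegral_swap]
        apply Measurable.aemeasurable
        exact (hρe.comp measurable_snd).mul
          ((hfe.comp (measurable_fst.sub measurable_snd)).pow_const 2)
    _ = ∫⁻ t, ‖ρ t‖ₑ * ∫⁻ x, ‖f' x‖ₑ ^ 2 := by
        refine lintegral_congr fun t => ?_
        have hm : Measurable fun x => ‖f' (x - t)‖ₑ ^ 2 :=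
          (hfe.comp (measurable_id.sub measurable_const)).pow_const 2
        rw [lintegral_const_mul _ hm]
        congr 1
        exact lintegral_sub_right_eq_self (fun x => ‖f' x‖ₑ ^ 2) t
    _ = ∫⁻ x, ‖f' x‖ₑ ^ 2 := by
        rw [lintegral_mul_const _ hρe, h1, one_mul]

/-- the standard sequence of mollifiers -/
noncomputable def bumpSeq (n : ℕ) (j : ℕ) : ContDiffBump (0 : E n) :=
  ⟨1 / (2 * ((j : ℝ) + 1)), 1 / ((j : ℝ) + 1), by positivity, by
    have : (0 : ℝ) < j + 1 := by positivity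
    rw [div_lt_div_iff_of_pos_left one_pos (by positivity) this]; linarith⟩

noncomputable def ker (n : ℕ) (j : ℕ) : E n → ℝ := (bumpSeq n j).normed volume

theorem ker_nonneg (j : ℕ) (x : E n) : 0 ≤ ker n j x := ContDiffBump.nonneg_normed _ _

theorem ker_contDiff (j : ℕ) : ContDiff ℝ ∞ (ker n j) := ContDiffBump.contDiff_normed _

theorem ker_compact (j : ℕ) : HasCompactSupport (ker n j) :=
  ContDiffBump.hasCompactSupport_normed _

theorem ker_integral (j : ℕ) : ∫ x, ker n j x = 1 := ContDiffBump.integral_normed _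

theorem ker_support (j : ℕ) : Function.support (ker n j) = ball 0 (1 / ((j : ℝ) + 1)) :=
  ContDiffBump.support_normed_eq _

theorem ker_integrable (j : ℕ) : Integrable (ker n j) :=
  (ker_contDiff j).continuous.integrable_of_hasCompactSupport (ker_compact j)

theorem ker_lintegral (j : ℕ) : ∫⁻ x, ‖ker n j x‖ₑ = 1 := by
  have h := ofReal_integral_eq_lintegral_ofReal (ker_integrable (n := n) j)
    (Eventually.of_forall fun x => ker_nonneg j x)
  rw [ker_integral, ENNReal.ofReal_one] at h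
  rw [h]
  refine lintegral_congr fun x => ?_
  rw [Real.enorm_of_nonneg (ker_nonneg j x)]

theorem ker_neg (j : ℕ) (x : E n) : ker n j (-x) = ker n j x := by
  simp only [ker, ContDiffBump.normed_neg]

theorem moll_contDiff (j : ℕ) {f : E n → F} (hf : LocallyIntegrable f volume) :
    ContDiff ℝ ∞ (moll (ker n j) f) :=
  (ker_compact j).contDiff_convolution_left _ (ker_contDiff j) hf

theorem ker_shift_continuous (j : ℕ) (x : E n) : Continuous fun y => ker n j (x - y) :=
  (ker_contDiff j).continuous.comp (continuous_const.sub continuous_id)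

theorem ker_shift_compact (j : ℕ) (x : E n) : HasCompactSupport fun y => ker n j (x - y) :=
  (ker_compact j).comp_homeomorph (Homeomorph.subLeft x)

theorem ker_shift_contDiff (j : ℕ) (x : E n) : ContDiff ℝ ∞ fun y => ker n j (x - y) :=
  (ker_contDiff j).comp (contDiff_const.sub contDiff_id)

theorem moll_integrable (j : ℕ) {f : E n → F} (hf : LocallyIntegrable f volume) (x : E n) :
    Integrable fun y => ker n j (x - y) • f y :=
  hf.integrable_smul_left_of_hasCompactSupport (ker_shift_continuous j x) (ker_shift_compact j x)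

theorem moll_sub (j : ℕ) {f g : E n → F} (hf : LocallyIntegrable f volume)
    (hg : LocallyIntegrable g volume) :
    moll (ker n j) (f - g) = moll (ker n j) f - moll (ker n j) g := by
  ext x
  simp only [Pi.sub_apply]
  rw [moll_apply', moll_apply', moll_apply',
    ← integral_sub (moll_integrable j hf x) (moll_integrable j hg x)]
  simp only [Pi.sub_apply, smul_sub]

/-- for a continuous compactly supported function, mollification converges in `L²` -/
theorem moll_tendsto_cc [CompleteSpace F] {h : E n → F} (hc : Continuous h)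
    (hs : HasCompactSupport h) :
    Tendsto (fun j => eLpNorm (moll (ker n j) h - h) 2 volume) atTop (𝓝 0) := by
  have huc : UniformContinuous h := hc.uniformContinuous_of_tendsto_cocompact hs.is_zero_at_infty
  set K : Set (E n) := cthickening 1 (tsupport h) with hK
  have hKc : IsCompact K := hs.isCompact.cthickening
  have hKv : volume K < ⊤ := hKc.measure_lt_top
  rw [ENNReal.tendsto_nhds_zero]
  intro ε hε
  -- choose w with w * vol^{1/2} ≤ ε
  obtain ⟨w, hw0, hw⟩ : ∃ w : ℝ, 0 < w ∧ ENNReal.ofReal w * volume K ^ (1 / (2:ℝ≥0∞).toReal) ≤ ε := by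
    rcases eq_or_ne ε ⊤ with h | h
    · exact ⟨1, one_pos, by rw [h]; exact le_top⟩
    have hA : volume K ^ (1 / (2:ℝ≥0∞).toReal) < ⊤ :=
      ENNReal.rpow_lt_top_of_nonneg (by positivity) hKv.ne
    set A := (volume K ^ (1 / (2:ℝ≥0∞).toReal)).toReal with hAdef
    have hε' : 0 < ε.toReal := ENNReal.toReal_pos hε.ne' h
    have hA0 : 0 ≤ A := ENNReal.toReal_nonneg
    refine ⟨ε.toReal / (A + 1), by positivity, ?_⟩
    rw [← ENNReal.ofReal_toReal hA.ne, ← hAdef, ← ENNReal.ofReal_mul (by positivity),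
      ← ENNReal.ofReal_toReal h]
    apply ENNReal.ofReal_le_ofReal
    rw [ENNReal.toReal_ofReal hε'.le]
    rw [div_mul_eq_mul_div, div_le_iff₀ (by positivity)]
    nlinarith
  obtain ⟨d, hd0, hd⟩ := Metric.uniformContinuous_iff.1 huc w hw0
  have hlim : Tendsto (fun j : ℕ => 1 / ((j : ℝ) + 1)) atTop (𝓝 0) :=
    tendsto_one_div_add_atTop_nhds_zero_nat
  filter_upwards [hlim.eventually (gt_mem_nhds (lt_min hd0 one_pos))] with j hj
  have hj1 : 1 / ((j : ℝ) + 1) < d := hj.trans_le (min_le_left _ _)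
  have hj2 : 1 / ((j : ℝ) + 1) < 1 := hj.trans_le (min_le_right _ _)
  have hpt : ∀ x, ‖moll (ker n j) h x - h x‖ ≤ w := by
    intro x
    rw [← dist_eq_norm]
    apply ContDiffBump.dist_normed_convolution_le (φ := bumpSeq n j) (μ := volume)
      hc.aestronglyMeasurable
    intro y hy
    exact (hd ((mem_ball.1 hy).trans hj1)).le
  have hout : ∀ x, x ∉ K → moll (ker n j) h x - h x = 0 := by
    intro x hx
    have hx0 : ∀ y ∈ ball x 1, h y = 0 := by
      intro y hy
      by_contra hne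
      apply hx
      apply mem_cthickening_of_dist_le x y 1 (tsupport h) (subset_tsupport _ hne)
      rw [dist_comm]; exact (mem_ball.1 hy).le
    have h0 : h x = 0 := hx0 x (mem_ball_self one_pos)
    have h1 : moll (ker n j) h x = h x := by
      apply ContDiffBump.normed_convolution_eq_right (φ := bumpSeq n j) (μ := volume)
      intro y hy
      have hy' : y ∈ ball x 1 := ball_subset_ball hj2.le hy
      rw [hx0 y hy', h0]
    rw [h1, sub_self]
  have e1 : eLpNorm (moll (ker n j) h - h) 2 volume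
      = eLpNorm (moll (ker n j) h - h) 2 (volume.restrict K) := by
    rw [← eLpNorm_indicator_eq_eLpNorm_restrict hKc.measurableSet]
    congr 1
    ext x
    by_cases hx : x ∈ K
    · simp [hx]
    · simp [hx, hout x hx]
  rw [e1]
  have h2 := eLpNorm_le_of_ae_bound (p := 2) (μ := volume.restrict K)
    (f := moll (ker n j) h - h) (C := w) (Eventually.of_forall fun x => hpt x)
  refine h2.trans ?_
  rw [mul_comm]
  rw [Measure.restrict_apply_univ, ← one_div]
  exact hw

theorem moll_tendsto [CompleteSpace F] {f : E n → F} (hf : MemLp f 2 volume) :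
    Tendsto (fun j => eLpNorm (moll (ker n j) f - f) 2 volume) atTop (𝓝 0) := by
  rw [ENNReal.tendsto_nhds_zero]
  intro ε hε
  have hε3 : ε / 3 ≠ 0 := by
    simp [ENNReal.div_eq_zero_iff, hε.ne']
  obtain ⟨h, hs, hle, hc, hmem⟩ := hf.exists_hasCompactSupport_eLpNorm_sub_le (by norm_num) hε3
  have h1 := ENNReal.tendsto_nhds_zero.1 (moll_tendsto_cc (n := n) hc hs) (ε / 3)
    (pos_iff_ne_zero.2 hε3)
  filter_upwards [h1] with j hj
  have hfl : LocallyIntegrable f volume := hf.locallyIntegrable (by norm_num)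
  have hhl : LocallyIntegrable h volume := hc.locallyIntegrable
  have hfm := hf.aestronglyMeasurable
  have hhm := hc.aestronglyMeasurable (μ := (volume : Measure (E n)))
  have hmf : AEStronglyMeasurable (moll (ker n j) f) volume :=
    (moll_contDiff j hfl).continuous.aestronglyMeasurable
  have hmh : AEStronglyMeasurable (moll (ker n j) h) volume :=
    (moll_contDiff j hhl).continuous.aestronglyMeasurable
  have e1 : moll (ker n j) f - f
      = moll (ker n j) (f - h) + ((moll (ker n j) h - h) + (h - f)) := by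
    rw [moll_sub j hfl hhl]; abel
  rw [e1]
  have h2 : eLpNorm (moll (ker n j) (f - h)) 2 volume ≤ ε / 3 :=
    (moll_l2_le _ (ker_contDiff j).continuous.measurable (ker_lintegral j) _ (hfm.sub hhm)).trans hle
  have h3 : eLpNorm (h - f) 2 volume ≤ ε / 3 := by
    rw [← eLpNorm_neg, neg_sub]; exact hle
  calc eLpNorm (moll (ker n j) (f - h) + ((moll (ker n j) h - h) + (h - f))) 2 volume
      ≤ eLpNorm (moll (ker n j) (f - h)) 2 volume
        + (eLpNorm (moll (ker n j) h - h) 2 volume + eLpNorm (h - f) 2 volume) := by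
        refine (eLpNorm_add_le ?_ ((hmh.sub hhm).add (hhm.sub hfm)) (by norm_num)).trans ?_
        · rw [moll_sub j hfl hhl]; exact hmf.sub hmh
        · gcongr
          exact eLpNorm_add_le (hmh.sub hhm) (hhm.sub hfm) (by norm_num)
    _ ≤ ε / 3 + (ε / 3 + ε / 3) := by gcongr
    _ = ε := by rw [← add_assoc]; exact ENNReal.add_thirds ε

end Pool.Agent.helper33.Insul
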