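import Mathlib
import Pool.Agent.helper33.Insul.Moll

/-! Definitions: `H¹(ℝⁿ)`, divergence, weighted perimeter. -/

set_option autoImplicit false
open MeasureTheory Metric Set Filter Topology
open scoped ENNReal ContDiff

namespace Pool.Agent.helper33.Insul

variable {n : ℕ}

/-- `φ ∈ H¹(ℝⁿ)` with weak gradient `G`: both are square integrable, and `G` is the gradient of `φ`
in the sense of distributions. -/
structure IsH1 (φ : E n → ℝ) (G : E n → E n) : Prop where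
  memLp : MemLp φ 2 volume
  memLp_grad : MemLp G 2 volume
  weak : ∀ ψ : E n → ℝ, ContDiff ℝ ∞ ψ → HasCompactSupport ψ → ∀ e : E n,
    ∫ x, φ x * fderiv ℝ ψ x e = - ∫ x, inner ℝ (G x) e * ψ x

/-- the divergence of a vector field -/
noncomputable def vdiv (X : E n → E n) (x : E n) : ℝ :=
  ∑ i : Fin n, (fderiv ℝ X x (EuclideanSpace.single i 1)) i

/-- The boundary energy `∫_{∂*Ω} φ² dH^{n-1}` of `φ ∈ H¹(ℝⁿ)` on the reduced boundary of `Ω`,
as the total variation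
`sup {∫_Ω div(φ² X) dx : X ∈ C¹_c(ℝⁿ;ℝⁿ), |X| ≤ 1}`, where
`div(φ² X) = φ² div X + 2 φ ∇φ·X`. -/
noncomputable def surf (Ω : Set (E n)) (φ : E n → ℝ) (G : E n → E n) : ℝ≥0∞ :=
  ⨆ (X : E n → E n) (_ : ContDiff ℝ 1 X ∧ HasCompactSupport X ∧ ∀ x, ‖X x‖ ≤ 1),
    ENNReal.ofReal (∫ x in Ω, (φ x ^ 2 * vdiv X x + 2 * φ x * inner ℝ (G x) (X x)))

end Pool.Agent.helper33.Insul
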