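import Mathlib
import Pool.Agent.helper33.Insul.Defs

/-! Basic calculus in `H¹(ℝⁿ)`. -/

set_option autoImplicit false
set_option linter.unusedSectionVars false
open MeasureTheory Metric Set Filter Topology
open scoped ENNReal ContDiff

namespace Pool.Agent.helper33.Insul

variable {n : ℕ}

/-! ### convergence of integrals of products -/

section conv

variable {H : Type*} [NormedAddCommGroup H] [InnerProductSpace ℝ H]

theorem integral_inner_toLp {f g : E n → H} (hf : MemLp f 2 volume) (hg : MemLp g 2 volume) :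
    ∫ x, inner ℝ (f x) (g x) = inner ℝ (hf.toLp f) (hg.toLp g) := by
  rw [L2.inner_def]
  apply integral_congr_ae
  filter_upwards [hf.coeFn_toLp, hg.coeFn_toLp] with x h1 h2
  rw [h1, h2]

theorem integrable_inner {f g : E n → H} (hf : MemLp f 2 volume) (hg : MemLp g 2 volume) :
    Integrable fun x => (inner ℝ (f x) (g x) : ℝ) := by
  have h := L2.integrable_inner (𝕜 := ℝ) (hf.toLp f) (hg.toLp g)
  refine h.congr ?_
  filter_upwards [hf.coeFn_toLp, hg.coeFn_toLp] with x h1 h2
  rw [h1, h2]

theorem tendsto_integral_inner {ι : Type*} {l : Filter ι} {f g : E n → H} {f' g' : ι → E n → H}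
    (hf : MemLp f 2 volume)
    (hg : MemLp g 2 volume) (hf' : ∀ j, MemLp (f' j) 2 volume) (hg' : ∀ j, MemLp (g' j) 2 volume)
    (h1 : Tendsto (fun j => eLpNorm (f' j - f) 2 volume) l (𝓝 0))
    (h2 : Tendsto (fun j => eLpNorm (g' j - g) 2 volume) l (𝓝 0)) :
    Tendsto (fun j => ∫ x, inner ℝ (f' j x) (g' j x)) l (𝓝 (∫ x, inner ℝ (f x) (g x))) := by
  have h1' := (Lp.tendsto_Lp_iff_tendsto_eLpNorm'' f' hf' f hf).2 h1
  have h2' := (Lp.tendsto_Lp_iff_tendsto_eLpNorm'' g' hg' g hg).2 h2
  have h3 := h1'.inner (𝕜 := ℝ) h2'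
  rw [← integral_inner_toLp hf hg] at h3
  refine h3.congr fun j => ?_
  rw [← integral_inner_toLp (hf' j) (hg' j)]

theorem tendsto_const_eLpNorm {ι : Type*} {l : Filter ι} (g : E n → H) :
    Tendsto (fun _ : ι => eLpNorm (g - g) 2 (volume : Measure (E n))) l (𝓝 0) := by
  simp only [sub_self, eLpNorm_zero]
  exact tendsto_const_nhds

/-- multiplication by bounded a.e. convergent functions preserves `L²` convergence -/
theorem tendsto_smul_L2 {f : E n → H} {f' : ℕ → E n → H} {a : E n → ℝ} {a' : ℕ → E n → ℝ}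
    {C : ℝ} (hf : MemLp f 2 volume) (hf' : ∀ j, MemLp (f' j) 2 volume)
    (ha' : ∀ j, AEStronglyMeasurable (a' j) volume)
    (hC : ∀ j, ∀ᵐ x, |a' j x| ≤ C) (hlim : ∀ᵐ x, Tendsto (fun j => a' j x) atTop (𝓝 (a x)))
    (h1 : Tendsto (fun j => eLpNorm (f' j - f) 2 volume) atTop (𝓝 0)) :
    Tendsto (fun j => eLpNorm ((fun x => a' j x • f' j x) - fun x => a x • f x) 2 volume) atTop
      (𝓝 0) := by
  have haC : ∀ᵐ x, |a x| ≤ C := by
    filter_upwards [hlim, ae_all_iff.2 hC] with x h2 h3
    exact le_of_tendsto (h2.abs) (Eventually.of_forall h3)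
  have ha : AEStronglyMeasurable a volume := aestronglyMeasurable_of_tendsto_ae _ ha' hlim
  have hC0 : 0 ≤ C := by
    obtain ⟨x, hx⟩ := haC.exists
    exact (abs_nonneg _).trans hx
  -- second part
  have h2 : Tendsto (fun j => eLpNorm (fun x => (a' j x - a x) • f x) 2 volume) atTop (𝓝 0) := by
    have h3 : Tendsto (fun j => ∫⁻ x, ‖(a' j x - a x) • f x‖ₑ ^ 2) atTop
        (𝓝 (∫⁻ x : E n, (0 : ℝ≥0∞))) := by
      apply tendsto_lintegral_of_dominated_convergence' (fun x => (‖(2 * C) • f x‖ₑ) ^ 2)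
      · intro j
        exact ((((ha' j).sub ha).smul hf.aestronglyMeasurable).enorm).pow_const 2
      · intro j
        filter_upwards [hC j, haC] with x h4 h5
        gcongr
        rw [enorm_smul, enorm_smul]
        gcongr
        rw [Real.enorm_eq_ofReal_abs, Real.enorm_eq_ofReal_abs]
        apply ENNReal.ofReal_le_ofReal
        rw [abs_of_nonneg (by positivity : (0 : ℝ) ≤ 2 * C)]
        calc |a' j x - a x| ≤ |a' j x| + |a x| := abs_sub _ _
          _ ≤ 2 * C := by linarith
      · rw [← eLpNorm_two_sq]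
        exact (ENNReal.pow_lt_top (hf.const_smul (2 * C)).2).ne
      · filter_upwards [hlim] with x hx
        have h6 : Tendsto (fun j => (a' j x - a x) • f x) atTop (𝓝 0) := by
          have : Tendsto (fun j => a' j x - a x) atTop (𝓝 0) := by
            simpa using hx.sub_const (a x)
          simpa using this.smul_const (f x)
        have h7 := (continuous_enorm.tendsto _).comp h6
        rw [enorm_zero] at h7
        simpa using ENNReal.Tendsto.pow (n := 2) h7
    rw [lintegral_zero] at h3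
    have h4 : Tendsto (fun j => (eLpNorm (fun x => (a' j x - a x) • f x) 2 volume) ^ 2) atTop
        (𝓝 0) := by
      simp_rw [eLpNorm_two_sq]; exact h3
    have h5 := (ENNReal.continuous_rpow_const (y := 1 / 2)).tendsto _ |>.comp h4
    simp only [Function.comp_def] at h5
    have e5 : ∀ j, ((eLpNorm (fun x => (a' j x - a x) • f x) 2 volume) ^ 2) ^ (1 / 2 : ℝ)
        = eLpNorm (fun x => (a' j x - a x) • f x) 2 volume := by
      intro j
      rw [← ENNReal.rpow_natCast, ← ENNReal.rpow_mul]; norm_num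
    simp_rw [e5] at h5
    simpa using h5
  have h3 : Tendsto (fun j => ENNReal.ofReal C * eLpNorm (f' j - f) 2 volume
      + eLpNorm (fun x => (a' j x - a x) • f x) 2 volume) atTop (𝓝 0) := by
    have := (ENNReal.Tendsto.const_mul h1 (Or.inr ENNReal.ofReal_ne_top)
      (a := ENNReal.ofReal C)).add h2
    simpa using this
  refine tendsto_of_tendsto_of_tendsto_of_le_of_le tendsto_const_nhds h3 (fun j => bot_le) ?_
  intro j
  have e1 : ((fun x => a' j x • f' j x) - fun x => a x • f x)
      = (fun x => a' j x • (f' j - f) x) + fun x => (a' j x - a x) • f x := by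
    ext x
    simp only [Pi.sub_apply, Pi.add_apply, smul_sub, sub_smul]
    abel
  show eLpNorm ((fun x => a' j x • f' j x) - fun x => a x • f x) 2 volume ≤ _
  rw [e1]
  refine (eLpNorm_add_le ((ha' j).smul ((hf' j).sub hf).aestronglyMeasurable)
    (((ha' j).sub ha).smul hf.aestronglyMeasurable) (by norm_num)).trans ?_
  refine add_le_add ?_ le_rfl
  have h6 := eLpNorm_le_mul_eLpNorm_of_ae_le_mul (p := 2) (μ := (volume : Measure (E n)))
    (f := fun x => a' j x • (f' j - f) x) (g := f' j - f) (c := C) (by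
      filter_upwards [hC j] with x hx
      rw [norm_smul]
      exact mul_le_mul_of_nonneg_right hx (norm_nonneg _))
  exact h6

end conv

theorem IsH1.loc {φ : E n → ℝ} {G : E n → E n} (h : IsH1 φ G) : LocallyIntegrable φ volume :=
  h.memLp.locallyIntegrable (by norm_num)

theorem IsH1.loc_grad {φ : E n → ℝ} {G : E n → E n} (h : IsH1 φ G) :
    LocallyIntegrable G volume :=
  h.memLp_grad.locallyIntegrable (by norm_num)

/-- the gradient of the mollified function is the mollified gradient -/
theorem IsH1.hasFDerivAt_moll {φ : E n → ℝ} {G : E n → E n} (h : IsH1 φ G) (j : ℕ) (x e : E n) :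
    fderiv ℝ (moll (ker n j) φ) x e = inner ℝ (moll (ker n j) G x) e := by
  have h1 := (ker_compact (n := n) j).hasFDerivAt_convolution_left
    (ContinuousLinearMap.lsmul ℝ ℝ : ℝ →L[ℝ] ℝ →L[ℝ] ℝ) (μ := volume)
    ((ker_contDiff j).of_le (by simp)) h.loc x
  have h2 : fderiv ℝ (moll (ker n j) φ) x = _ := h1.fderiv
  rw [h2]
  have hint : Integrable fun t => ((ContinuousLinearMap.lsmul ℝ ℝ : ℝ →L[ℝ] ℝ →L[ℝ] ℝ).precompL
      (E n)) (fderiv ℝ (ker n j) t) (φ (x - t)) := by
    have := ((ker_compact (n := n) j).fderiv ℝ).convolutionExists_left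
      ((ContinuousLinearMap.lsmul ℝ ℝ : ℝ →L[ℝ] ℝ →L[ℝ] ℝ).precompL (E n)) (μ := volume)
      ((ker_contDiff j).continuous_fderiv (by simp)) h.loc x
    exact this
  rw [convolution_def, ContinuousLinearMap.integral_apply hint]
  simp only [ContinuousLinearMap.precompL_apply, ContinuousLinearMap.lsmul_apply, smul_eq_mul]
  have h3 := h.weak (fun y => ker n j (x - y)) (ker_shift_contDiff j x) (ker_shift_compact j x) e
  have h4 : ∀ y, fderiv ℝ (fun y => ker n j (x - y)) y e = - fderiv ℝ (ker n j) (x - y) e := by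
    intro y
    have h5 : HasFDerivAt (fun y : E n => x - y) (-(ContinuousLinearMap.id ℝ (E n))) y := by
      simpa using (hasFDerivAt_id y).const_sub x
    have h6 := (((ker_contDiff (n := n) j).differentiable (by simp)) (x - y)).hasFDerivAt.comp y h5
    rw [show (fun y => ker n j (x - y)) = (ker n j ∘ fun y => x - y) from rfl, h6.fderiv]
    simp
  simp_rw [h4] at h3
  have e1 : ∫ t, fderiv ℝ (ker n j) t e * φ (x - t)
      = ∫ y, fderiv ℝ (ker n j) (x - y) e * φ y := by
    rw [← integral_sub_left_eq_self (fun y => fderiv ℝ (ker n j) (x - y) e * φ y) volume x]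
    simp
  rw [e1]
  have e2 : ∫ y, fderiv ℝ (ker n j) (x - y) e * φ y = ∫ y, inner ℝ (G y) e * ker n j (x - y) := by
    have : ∫ y, fderiv ℝ (ker n j) (x - y) e * φ y
        = - ∫ y, φ y * -(fderiv ℝ (ker n j) (x - y) e) := by
      rw [← integral_neg]
      congr 1; ext y; ring
    rw [this, h3, neg_neg]
  rw [e2, moll_apply', ← real_inner_comm, ← integral_inner (moll_integrable j h.loc_grad x) e]
  congr 1; ext y
  rw [real_inner_smul_right, real_inner_comm, mul_comm]

theorem IsH1.moll_smooth {φ : E n → ℝ} {G : E n → E n} (h : IsH1 φ G) (j : ℕ) :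
    ContDiff ℝ ∞ (moll (ker n j) φ) := moll_contDiff j h.loc

theorem IsH1.moll_smooth_grad {φ : E n → ℝ} {G : E n → E n} (h : IsH1 φ G) (j : ℕ) :
    ContDiff ℝ ∞ (moll (ker n j) G) := moll_contDiff j h.loc_grad

theorem memLp_moll {F : Type*} [NormedAddCommGroup F] [NormedSpace ℝ F] (j : ℕ)
    {f : E n → F} (hf : MemLp f 2 volume) : MemLp (moll (ker n j) f) 2 volume := by
  refine ⟨(moll_contDiff j (hf.locallyIntegrable (by norm_num))).continuous.aestronglyMeasurable, ?_⟩
  exact (moll_l2_le _ (ker_contDiff j).continuous.measurable (ker_lintegral j) f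
    hf.aestronglyMeasurable).trans_lt hf.2

/-- a smooth function with a `C¹` compactly supported function: integration by parts -/
theorem ibp_smooth {f ψ : E n → ℝ} (hf : ContDiff ℝ 1 f) (hψ : ContDiff ℝ 1 ψ)
    (hs : HasCompactSupport ψ) (e : E n) :
    ∫ x, f x * fderiv ℝ ψ x e = - ∫ x, fderiv ℝ f x e * ψ x := by
  have c1 : Continuous fun x => fderiv ℝ f x e :=
    (hf.continuous_fderiv (by simp)).clm_apply continuous_const
  have c2 : Continuous fun x => fderiv ℝ ψ x e :=
    (hψ.continuous_fderiv (by simp)).clm_apply continuous_const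
  have s2 : HasCompactSupport fun x => fderiv ℝ ψ x e :=
    (hs.fderiv ℝ).comp_left (g := fun L : E n →L[ℝ] ℝ => L e) (by simp)
  apply integral_mul_fderiv_eq_neg_fderiv_mul_of_integrable
  · exact (c1.mul hψ.continuous).integrable_of_hasCompactSupport (hs.mul_left)
  · exact (hf.continuous.mul c2).integrable_of_hasCompactSupport (s2.mul_left)
  · exact (hf.continuous.mul hψ.continuous).integrable_of_hasCompactSupport (hs.mul_left)
  · exact fun x _ => hf.differentiable (by simp) x
  · exact fun x _ => hψ.differentiable (by simp) x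

/-! ### approximation, products -/

theorem mul_eq_inner (a b : ℝ) : a * b = inner ℝ a b := by simp [mul_comm]

theorem tendsto_integral_mul {ι : Type*} {l : Filter ι} {f g : E n → ℝ} {f' g' : ι → E n → ℝ}
    (hf : MemLp f 2 volume)
    (hg : MemLp g 2 volume) (hf' : ∀ j, MemLp (f' j) 2 volume) (hg' : ∀ j, MemLp (g' j) 2 volume)
    (h1 : Tendsto (fun j => eLpNorm (f' j - f) 2 volume) l (𝓝 0))
    (h2 : Tendsto (fun j => eLpNorm (g' j - g) 2 volume) l (𝓝 0)) :
    Tendsto (fun j => ∫ x, f' j x * g' j x) l (𝓝 (∫ x, f x * g x)) := by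
  simp_rw [mul_eq_inner]
  exact tendsto_integral_inner hf hg hf' hg' h1 h2

theorem IsH1.tendsto_moll {φ : E n → ℝ} {G : E n → E n} (h : IsH1 φ G) :
    Tendsto (fun j => eLpNorm (moll (ker n j) φ - φ) 2 volume) atTop (𝓝 0) := moll_tendsto h.memLp

theorem IsH1.tendsto_moll_grad {φ : E n → ℝ} {G : E n → E n} (h : IsH1 φ G) :
    Tendsto (fun j => eLpNorm (moll (ker n j) G - G) 2 volume) atTop (𝓝 0) :=
  moll_tendsto h.memLp_grad

theorem memLp_inner_const {G : E n → E n} (h : MemLp G 2 volume) (e : E n) :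
    MemLp (fun x => inner ℝ (G x) e) 2 volume :=
  h.inner_const e

theorem eLpNorm_inner_const_le {G : E n → E n} (e : E n) :
    eLpNorm (fun x => inner ℝ (G x) e) 2 volume ≤ ENNReal.ofReal ‖e‖ * eLpNorm G 2 volume := by
  apply eLpNorm_le_mul_eLpNorm_of_ae_le_mul
  refine Eventually.of_forall fun x => ?_
  rw [mul_comm]
  exact norm_inner_le_norm _ _

theorem tendsto_inner_const {ι : Type*} {l : Filter ι} {G : E n → E n} {G' : ι → E n → E n}
    (h : Tendsto (fun j => eLpNorm (G' j - G) 2 volume) l (𝓝 0)) (e : E n) :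
    Tendsto (fun j => eLpNorm ((fun x => inner ℝ (G' j x) e) - fun x => inner ℝ (G x) e) 2 volume)
      l (𝓝 0) := by
  have h1 : Tendsto (fun j => ENNReal.ofReal ‖e‖ * eLpNorm (G' j - G) 2 volume) l (𝓝 0) := by
    have := ENNReal.Tendsto.const_mul h (Or.inr ENNReal.ofReal_ne_top) (a := ENNReal.ofReal ‖e‖)
    simpa using this
  refine tendsto_of_tendsto_of_tendsto_of_le_of_le tendsto_const_nhds h1 (fun j => bot_le) ?_
  intro j
  have e1 : ((fun x => inner ℝ (G' j x) e) - fun x => inner ℝ (G x) e)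
      = fun x => inner ℝ ((G' j - G) x) e := by
    ext x; simp [inner_sub_left]
  show eLpNorm ((fun x => inner ℝ (G' j x) e) - fun x => inner ℝ (G x) e) 2 volume ≤ _
  rw [e1]
  exact eLpNorm_inner_const_le e

theorem memLp_cc {F : Type*} [NormedAddCommGroup F] {g : E n → F} (hc : Continuous g)
    (hs : HasCompactSupport g) : MemLp g 2 volume := hc.memLp_of_hasCompactSupport hs

theorem fderiv_cc {ψ : E n → ℝ} (hψ : ContDiff ℝ 1 ψ) (hs : HasCompactSupport ψ) (e : E n) :
    Continuous (fun x => fderiv ℝ ψ x e) ∧ HasCompactSupport (fun x => fderiv ℝ ψ x e) :=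
  ⟨(hψ.continuous_fderiv (by simp)).clm_apply continuous_const,
    (hs.fderiv ℝ).comp_left (g := fun L : E n →L[ℝ] ℝ => L e) (by simp)⟩

/-- the weak formulation with `C¹` test functions -/
theorem IsH1.weak1 {φ : E n → ℝ} {G : E n → E n} (h : IsH1 φ G) {ψ : E n → ℝ}
    (hψ : ContDiff ℝ 1 ψ) (hs : HasCompactSupport ψ) (e : E n) :
    ∫ x, φ x * fderiv ℝ ψ x e = - ∫ x, inner ℝ (G x) e * ψ x := by
  obtain ⟨c2, s2⟩ := fderiv_cc hψ hs e
  have m2 := memLp_cc c2 s2
  have m1 := memLp_cc hψ.continuous hs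
  have t1 := tendsto_integral_mul h.memLp m2 (fun j => memLp_moll j h.memLp) (fun _ => m2)
    h.tendsto_moll (tendsto_const_eLpNorm _)
  have t2 := tendsto_integral_mul (memLp_inner_const h.memLp_grad e) m1
    (fun j => memLp_inner_const (memLp_moll j h.memLp_grad) e) (fun _ => m1)
    (tendsto_inner_const h.tendsto_moll_grad e) (tendsto_const_eLpNorm _)
  refine tendsto_nhds_unique t1 (t2.neg.congr fun j => ?_)
  rw [ibp_smooth ((h.moll_smooth j).of_le (by simp)) hψ hs e]
  simp_rw [h.hasFDerivAt_moll]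

theorem contDiff_mul_cs {f g : E n → ℝ} (hf : ContDiff ℝ 1 f) (hg : ContDiff ℝ 1 g)
    (hs : HasCompactSupport g) : ContDiff ℝ 1 (fun x => f x * g x) ∧
      HasCompactSupport (fun x => f x * g x) := ⟨hf.mul hg, hs.mul_left⟩

/-- product rule in weak form -/
theorem IsH1.mul_weak {φ ψ : E n → ℝ} {G H : E n → E n} (h1 : IsH1 φ G) (h2 : IsH1 ψ H)
    {χ : E n → ℝ} (hχ : ContDiff ℝ 1 χ) (hs : HasCompactSupport χ) (e : E n) :
    ∫ x, φ x * ψ x * fderiv ℝ χ x e
      = - ∫ x, (φ x * inner ℝ (H x) e + ψ x * inner ℝ (G x) e) * χ x := by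
  obtain ⟨c2, s2⟩ := fderiv_cc hχ hs e
  obtain ⟨C2, hC2⟩ := c2.bounded_above_of_compact_support s2
  obtain ⟨C1, hC1⟩ := hχ.continuous.bounded_above_of_compact_support hs
  have bd : ∀ {f : E n → ℝ} {g : E n → ℝ} {C : ℝ}, Continuous g → (∀ x, ‖g x‖ ≤ C) →
      MemLp f 2 volume → MemLp (fun x => g x * f x) 2 volume := by
    intro f g C hg hC hf
    exact hf.of_le_mul (c := C) (hg.aestronglyMeasurable.mul hf.aestronglyMeasurable)
      (Eventually.of_forall fun x => by
        rw [norm_mul]; exact mul_le_mul_of_nonneg_right (hC x) (norm_nonneg _))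
  have cv : ∀ {f : E n → ℝ} {f' : ℕ → E n → ℝ} {g : E n → ℝ} {C : ℝ}, Continuous g →
      (∀ x, ‖g x‖ ≤ C) → MemLp f 2 volume → (∀ j, MemLp (f' j) 2 volume) →
      Tendsto (fun j => eLpNorm (f' j - f) 2 volume) atTop (𝓝 0) →
      Tendsto (fun j => eLpNorm ((fun x => g x * f' j x) - fun x => g x * f x) 2 volume) atTop
      (𝓝 0) := by
    intro f f' g C hg hC hf hf' hl
    exact tendsto_smul_L2 (a := g) (a' := fun _ => g) hf hf'
      (fun _ => hg.aestronglyMeasurable) (fun _ => Eventually.of_forall hC)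
      (Eventually.of_forall fun x => tendsto_const_nhds) hl
  have t1 := tendsto_integral_mul h1.memLp (bd c2 hC2 h2.memLp) (fun j => memLp_moll j h1.memLp)
    (fun j => bd c2 hC2 (memLp_moll j h2.memLp)) h1.tendsto_moll
    (cv c2 hC2 h2.memLp (fun j => memLp_moll j h2.memLp) h2.tendsto_moll)
  have t2 := tendsto_integral_mul h1.memLp (bd hχ.continuous hC1 (memLp_inner_const h2.memLp_grad e))
    (fun j => memLp_moll j h1.memLp)
    (fun j => bd hχ.continuous hC1 (memLp_inner_const (memLp_moll j h2.memLp_grad) e))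
    h1.tendsto_moll
    (cv hχ.continuous hC1 (memLp_inner_const h2.memLp_grad e)
      (fun j => memLp_inner_const (memLp_moll j h2.memLp_grad) e)
      (tendsto_inner_const h2.tendsto_moll_grad e))
  have t3 := tendsto_integral_mul h2.memLp (bd hχ.continuous hC1 (memLp_inner_const h1.memLp_grad e))
    (fun j => memLp_moll j h2.memLp)
    (fun j => bd hχ.continuous hC1 (memLp_inner_const (memLp_moll j h1.memLp_grad) e))
    h2.tendsto_moll
    (cv hχ.continuous hC1 (memLp_inner_const h1.memLp_grad e)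
      (fun j => memLp_inner_const (memLp_moll j h1.memLp_grad) e)
      (tendsto_inner_const h1.tendsto_moll_grad e))
  have e1 : ∫ x, φ x * ψ x * fderiv ℝ χ x e = ∫ x, φ x * (fderiv ℝ χ x e * ψ x) := by
    congr 1; ext x; ring
  have e2 : ∫ x, (φ x * inner ℝ (H x) e + ψ x * inner ℝ (G x) e) * χ x
      = (∫ x, φ x * (χ x * inner ℝ (H x) e)) + ∫ x, ψ x * (χ x * inner ℝ (G x) e) := by
    rw [← integral_add]
    · congr 1; ext x; ring
    · exact h1.memLp.integrable_mul (bd hχ.continuous hC1 (memLp_inner_const h2.memLp_grad e))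
    · exact h2.memLp.integrable_mul (bd hχ.continuous hC1 (memLp_inner_const h1.memLp_grad e))
  rw [e1, e2]
  refine tendsto_nhds_unique t1 ((t2.add t3).neg.congr fun j => ?_)
  have s1 : ContDiff ℝ 1 (moll (ker n j) φ) := (h1.moll_smooth j).of_le (by simp)
  have s3 : ContDiff ℝ 1 (moll (ker n j) ψ) := (h2.moll_smooth j).of_le (by simp)
  have key := ibp_smooth (s1.mul s3) hχ hs e
  have e3 : ∫ x, moll (ker n j) φ x * (fderiv ℝ χ x e * moll (ker n j) ψ x)
      = ∫ x, moll (ker n j) φ x * moll (ker n j) ψ x * fderiv ℝ χ x e := by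
    congr 1; ext x; ring
  rw [e3, key, ← integral_add]
  · congr 2; ext x
    have e4 : fderiv ℝ (fun x => moll (ker n j) φ x * moll (ker n j) ψ x) x
        = moll (ker n j) φ x • fderiv ℝ (moll (ker n j) ψ) x
          + moll (ker n j) ψ x • fderiv ℝ (moll (ker n j) φ) x :=
      fderiv_fun_mul (s1.differentiable (by simp) x) (s3.differentiable (by simp) x)
    rw [e4]
    simp only [ContinuousLinearMap.add_apply, ContinuousLinearMap.smul_apply, smul_eq_mul,
      h1.hasFDerivAt_moll, h2.hasFDerivAt_moll]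
    ring
  · exact (memLp_moll j h1.memLp).integrable_mul
      (bd hχ.continuous hC1 (memLp_inner_const (memLp_moll j h2.memLp_grad) e))
  · exact (memLp_moll j h2.memLp).integrable_mul
      (bd hχ.continuous hC1 (memLp_inner_const (memLp_moll j h1.memLp_grad) e))

/-! ### vector fields -/

theorem comp_contDiff {X : E n → E n} {k : WithTop ℕ∞} (hX : ContDiff ℝ k X) (i : Fin n) :
    ContDiff ℝ k (fun x => X x i) :=
  (EuclideanSpace.proj i : E n →L[ℝ] ℝ).contDiff.comp hX

theorem comp_cs {X : E n → E n} (hX : HasCompactSupport X) (i : Fin n) :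
    HasCompactSupport (fun x => X x i) :=
  hX.comp_left (g := fun v : E n => v i) (by simp)

theorem fderiv_comp_apply {X : E n → E n} {x : E n} (hX : DifferentiableAt ℝ X x) (i : Fin n)
    (e : E n) : fderiv ℝ (fun y => X y i) x e = (fderiv ℝ X x e) i := by
  have h := ((EuclideanSpace.proj i : E n →L[ℝ] ℝ).hasFDerivAt
    (x := X x)).comp x hX.hasFDerivAt
  have h2 : HasFDerivAt (fun y => X y i) _ x := h
  rw [h2.fderiv]
  simp

theorem inner_eq_sum (v w : E n) :
    (inner ℝ v w : ℝ) = ∑ i, inner ℝ v (EuclideanSpace.single i (1 : ℝ)) * w i := by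
  rw [PiLp.inner_apply]
  refine Finset.sum_congr rfl fun i _ => ?_
  rw [EuclideanSpace.inner_single_right]
  simp [mul_comm]

/-- product rule tested with a vector field -/
theorem IsH1.mul_vec {φ ψ : E n → ℝ} {G H : E n → E n} (h1 : IsH1 φ G) (h2 : IsH1 ψ H)
    {X : E n → E n} (hX : ContDiff ℝ 1 X) (hs : HasCompactSupport X) :
    ∫ x, φ x * ψ x * vdiv X x
      = - ∫ x, (φ x * inner ℝ (H x) (X x) + ψ x * inner ℝ (G x) (X x)) := by
  have key : ∀ i : Fin n, ∫ x, φ x * ψ x * (fderiv ℝ X x (EuclideanSpace.single i 1)) i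
      = - ∫ x, (φ x * inner ℝ (H x) (EuclideanSpace.single i (1 : ℝ))
          + ψ x * inner ℝ (G x) (EuclideanSpace.single i (1 : ℝ))) * X x i := by
    intro i
    rw [← h1.mul_weak h2 (comp_contDiff hX i) (comp_cs hs i)]
    simp_rw [fderiv_comp_apply (hX.differentiable (by simp) _)]
  have bd : ∀ {f : E n → ℝ} {g : E n → ℝ}, Continuous g → HasCompactSupport g →
      MemLp f 2 volume → MemLp (fun x => f x * g x) 2 volume := by
    intro f g hg hgs hf
    obtain ⟨C, hC⟩ := hg.bounded_above_of_compact_support hgs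
    exact hf.of_le_mul (c := C) (hf.aestronglyMeasurable.mul hg.aestronglyMeasurable)
      (Eventually.of_forall fun x => by
        rw [norm_mul, mul_comm]; exact mul_le_mul_of_nonneg_right (hC x) (norm_nonneg _))
  have c : ∀ i, Continuous (fun x => X x i) ∧ HasCompactSupport (fun x => X x i) :=
    fun i => ⟨(comp_contDiff hX i).continuous, comp_cs hs i⟩
  have c' : ∀ i, Continuous (fun x => (fderiv ℝ X x (EuclideanSpace.single i 1)) i) ∧
      HasCompactSupport (fun x => (fderiv ℝ X x (EuclideanSpace.single i 1)) i) := by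
    intro i
    have := fderiv_cc (comp_contDiff hX i) (comp_cs hs i) (EuclideanSpace.single i 1)
    simp_rw [fderiv_comp_apply (hX.differentiable (by simp) _)] at this
    exact this
  have e1 : ∀ x, φ x * ψ x * vdiv X x
      = ∑ i, φ x * ψ x * (fderiv ℝ X x (EuclideanSpace.single i 1)) i := by
    intro x; rw [vdiv, Finset.mul_sum]
  have e2 : ∀ x, (φ x * inner ℝ (H x) (X x) + ψ x * inner ℝ (G x) (X x))
      = ∑ i, (φ x * inner ℝ (H x) (EuclideanSpace.single i (1 : ℝ))
          + ψ x * inner ℝ (G x) (EuclideanSpace.single i (1 : ℝ))) * X x i := by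
    intro x
    rw [inner_eq_sum (H x), inner_eq_sum (G x), Finset.mul_sum, Finset.mul_sum,
      ← Finset.sum_add_distrib]
    refine Finset.sum_congr rfl fun i _ => ?_
    ring
  simp_rw [e1, e2]
  rw [integral_finsetSum, integral_finsetSum, ← Finset.sum_neg_distrib]
  · exact Finset.sum_congr rfl fun i _ => key i
  · intro i _
    have m1 := h1.memLp.integrable_mul (bd (c i).1 (c i).2
      (memLp_inner_const h2.memLp_grad (EuclideanSpace.single i (1 : ℝ))))
    have m2 := h2.memLp.integrable_mul (bd (c i).1 (c i).2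
      (memLp_inner_const h1.memLp_grad (EuclideanSpace.single i (1 : ℝ))))
    refine (m1.add m2).congr (Eventually.of_forall fun x => ?_)
    simp only [Pi.add_apply, Pi.mul_apply]; ring
  · intro i _
    have m1 := h1.memLp.integrable_mul (bd (c' i).1 (c' i).2 h2.memLp)
    refine m1.congr (Eventually.of_forall fun x => ?_)
    simp only [Pi.mul_apply]; ring

end Pool.Agent.helper33.Insul
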