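import Mathlib
import Pool.Agent.helper33.Insul.H1

/-! More calculus in `H¹(ℝⁿ)`: constructors, limits, Poincare inequality. -/

set_option autoImplicit false
set_option linter.unusedSectionVars false
open MeasureTheory Metric Set Filter Topology
open scoped ENNReal ContDiff

namespace Pool.Agent.helper33.Insul

variable {n : ℕ}

theorem IsH1.congr {φ φ' : E n → ℝ} {G G' : E n → E n} (h : IsH1 φ G) (h1 : φ =ᵐ[volume] φ')
    (h2 : G =ᵐ[volume] G') : IsH1 φ' G' := by
  refine ⟨(memLp_congr_ae h1).1 h.memLp, (memLp_congr_ae h2).1 h.memLp_grad, fun ψ hψ hs e => ?_⟩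
  have := h.weak ψ hψ hs e
  rw [← integral_congr_ae (h1.mono fun x hx => by simp only; rw [hx] :
      (fun x => φ x * fderiv ℝ ψ x e) =ᵐ[volume] fun x => φ' x * fderiv ℝ ψ x e),
    ← integral_congr_ae (h2.mono fun x hx => by simp only; rw [hx] :
      (fun x => inner ℝ (G x) e * ψ x) =ᵐ[volume] fun x => inner ℝ (G' x) e * ψ x)]
  exact this

theorem integrable_mul_cc {f g : E n → ℝ} (hf : MemLp f 2 volume) (hg : Continuous g)
    (hs : HasCompactSupport g) : Integrable fun x => f x * g x :=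
  hf.integrable_mul (memLp_cc hg hs)

theorem IsH1.add {φ ψ : E n → ℝ} {G H : E n → E n} (h1 : IsH1 φ G) (h2 : IsH1 ψ H) :
    IsH1 (fun x => φ x + ψ x) (fun x => G x + H x) := by
  refine ⟨h1.memLp.add h2.memLp, h1.memLp_grad.add h2.memLp_grad, fun χ hχ hs e => ?_⟩
  have hχ1 : ContDiff ℝ 1 χ := hχ.of_le (by simp)
  obtain ⟨c2, s2⟩ := fderiv_cc hχ1 hs e
  simp_rw [add_mul, inner_add_left, add_mul]
  rw [integral_add (integrable_mul_cc h1.memLp c2 s2) (integrable_mul_cc h2.memLp c2 s2),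
    integral_add (integrable_mul_cc (memLp_inner_const h1.memLp_grad e) hχ.continuous hs)
      (integrable_mul_cc (memLp_inner_const h2.memLp_grad e) hχ.continuous hs),
    h1.weak χ hχ hs e, h2.weak χ hχ hs e]
  ring

theorem IsH1.smul {φ : E n → ℝ} {G : E n → E n} (h1 : IsH1 φ G) (c : ℝ) :
    IsH1 (fun x => c * φ x) (fun x => c • G x) := by
  refine ⟨h1.memLp.const_mul c, h1.memLp_grad.const_smul c, fun χ hχ hs e => ?_⟩
  simp_rw [real_inner_smul_left, mul_assoc]
  rw [integral_const_mul, integral_const_mul, h1.weak χ hχ hs e]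
  ring

theorem IsH1.sub {φ ψ : E n → ℝ} {G H : E n → E n} (h1 : IsH1 φ G) (h2 : IsH1 ψ H) :
    IsH1 (fun x => φ x - ψ x) (fun x => G x - H x) := by
  have := h1.add (h2.smul (-1))
  refine this.congr (Eventually.of_forall fun x => ?_) (Eventually.of_forall fun x => ?_)
  · simp only; ring
  · simp only [neg_smul, one_smul]; abel

theorem isH1_zero : IsH1 (fun _ : E n => (0 : ℝ)) (fun _ => 0) := by
  refine ⟨MemLp.zero, MemLp.zero, fun χ hχ hs e => by simp⟩

theorem gradient_inner (ψ : E n → ℝ) (x e : E n) :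
    (inner ℝ (gradient ψ x) e : ℝ) = fderiv ℝ ψ x e := by
  rw [inner_gradient_left]

theorem norm_gradient (ψ : E n → ℝ) (x : E n) : ‖gradient ψ x‖ = ‖fderiv ℝ ψ x‖ := by
  rw [← toDual_gradient, LinearIsometryEquiv.norm_map]

theorem continuous_gradient {ψ : E n → ℝ} (hψ : ContDiff ℝ 1 ψ) : Continuous (gradient ψ) :=
  (InnerProductSpace.toDual ℝ (E n)).symm.continuous.comp (hψ.continuous_fderiv (by simp))

theorem gradient_cs {ψ : E n → ℝ} (hs : HasCompactSupport ψ) : HasCompactSupport (gradient ψ) :=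
  (hs.fderiv ℝ).comp_left (g := (InnerProductSpace.toDual ℝ (E n)).symm) (by simp)

theorem contDiff_gradient {ψ : E n → ℝ} {k m : WithTop ℕ∞} (hψ : ContDiff ℝ m ψ)
    (h : k + 1 ≤ m) : ContDiff ℝ k (gradient ψ) :=
  (InnerProductSpace.toDual ℝ (E n)).symm.toContinuousLinearEquiv.contDiff.comp
    (hψ.fderiv_right h)

/-- compactly supported `C¹` functions are in `H¹` -/
theorem isH1_C1 {ψ : E n → ℝ} (hψ : ContDiff ℝ 1 ψ) (hs : HasCompactSupport ψ) :
    IsH1 ψ (gradient ψ) := by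
  refine ⟨memLp_cc hψ.continuous hs, memLp_cc (continuous_gradient hψ) (gradient_cs hs),
    fun χ hχ hχs e => ?_⟩
  rw [ibp_smooth hψ (hχ.of_le (by simp)) hχs e]
  simp_rw [gradient_inner]

/-- compactly supported Lipschitz functions are in `H¹` -/
theorem isH1_lipschitz {τ : E n → ℝ} {C : NNReal} (hτ : LipschitzWith C τ)
    (hs : HasCompactSupport τ) : IsH1 τ (gradient τ) := by
  have hgm : Measurable (gradient τ) :=
    (InnerProductSpace.toDual ℝ (E n)).symm.continuous.measurable.comp (measurable_fderiv ℝ τ)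
  have hgb : ∀ x, ‖gradient τ x‖ ≤ C := fun x => by
    rw [norm_gradient]; exact norm_fderiv_le_of_lipschitz ℝ hτ
  have hg0 : ∀ x, x ∉ tsupport τ → gradient τ x = 0 := by
    intro x hx
    have : τ =ᶠ[𝓝 x] 0 := notMem_tsupport_iff_eventuallyEq.1 hx
    have h2 := this.gradient_eq
    rw [h2]
    exact gradient_fun_const x 0
  refine ⟨memLp_cc hτ.continuous hs, ?_, fun χ hχ hχs e => ?_⟩
  · have h1 : MemLp ((tsupport τ).indicator fun _ => (C : ℝ)) 2 (volume : Measure (E n)) :=
      memLp_indicator_const 2 (isClosed_tsupport τ).measurableSet _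
        (Or.inr hs.isCompact.measure_lt_top.ne)
    refine h1.mono hgm.aestronglyMeasurable (Eventually.of_forall fun x => ?_)
    by_cases hx : x ∈ tsupport τ
    · simpa [hx] using hgb x
    · simp [hx, hg0 x hx]
  · obtain ⟨D, hD⟩ : ∃ D, LipschitzWith D χ :=
      ContDiff.lipschitzWith_of_hasCompactSupport hχs hχ (by simp)
    have h1 := hτ.integral_lineDeriv_mul_eq hD hχs e (μ := volume)
    have hdiff : ∀ᵐ x, DifferentiableAt ℝ τ x := hτ.ae_differentiableAt
    have e1 : ∫ x, lineDeriv ℝ τ x e * χ x = ∫ x, inner ℝ (gradient τ x) e * χ x := by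
      apply integral_congr_ae
      filter_upwards [hdiff] with x hx
      rw [hx.lineDeriv_eq_fderiv, gradient_inner]
    have e2 : ∫ x, lineDeriv ℝ χ x (-e) * τ x = - ∫ x, τ x * fderiv ℝ χ x e := by
      rw [← integral_neg]
      congr 1; ext x
      rw [((hχ.differentiable (by simp)) x).lineDeriv_eq_fderiv]
      simp [mul_comm]
    rw [e1, e2] at h1
    linarith

/-- product rule when the integrability is known -/
theorem IsH1.mul_of_memLp {φ ψ : E n → ℝ} {G H : E n → E n} (h1 : IsH1 φ G) (h2 : IsH1 ψ H)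
    (m1 : MemLp (fun x => φ x * ψ x) 2 volume)
    (m2 : MemLp (fun x => φ x • H x + ψ x • G x) 2 volume) :
    IsH1 (fun x => φ x * ψ x) (fun x => φ x • H x + ψ x • G x) := by
  refine ⟨m1, m2, fun χ hχ hs e => ?_⟩
  rw [h1.mul_weak h2 (hχ.of_le (by simp)) hs e]
  simp_rw [inner_add_left, real_inner_smul_left]

theorem memLp_bdd_smul {F : Type*} [NormedAddCommGroup F] [NormedSpace ℝ F] {a : E n → ℝ}
    {f : E n → F} {C : ℝ} (ha : AEStronglyMeasurable a volume) (hC : ∀ᵐ x, |a x| ≤ C)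
    (hf : MemLp f 2 volume) : MemLp (fun x => a x • f x) 2 volume :=
  hf.of_le_mul (c := C) (ha.smul hf.aestronglyMeasurable)
    (hC.mono fun x hx => by
      rw [norm_smul]; exact mul_le_mul_of_nonneg_right hx (norm_nonneg _))

/-- product of bounded functions -/
theorem IsH1.mul_bdd {φ ψ : E n → ℝ} {G H : E n → E n} (h1 : IsH1 φ G) (h2 : IsH1 ψ H)
    {C D : ℝ} (hC : ∀ᵐ x, |φ x| ≤ C) (hD : ∀ᵐ x, |ψ x| ≤ D) :
    IsH1 (fun x => φ x * ψ x) (fun x => φ x • H x + ψ x • G x) :=
  h1.mul_of_memLp h2 (memLp_bdd_smul h1.memLp.aestronglyMeasurable hC h2.memLp)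
    ((memLp_bdd_smul h1.memLp.aestronglyMeasurable hC h2.memLp_grad).add
      (memLp_bdd_smul h2.memLp.aestronglyMeasurable hD h1.memLp_grad))

/-- product with a compactly supported `C¹` function -/
theorem IsH1.mul_C1 {φ θ : E n → ℝ} {G : E n → E n} (h1 : IsH1 φ G)
    (hθ : ContDiff ℝ 1 θ) (hs : HasCompactSupport θ) :
    IsH1 (fun x => θ x * φ x) (fun x => θ x • G x + φ x • gradient θ x) := by
  obtain ⟨C, hC⟩ := hθ.continuous.bounded_above_of_compact_support hs
  obtain ⟨D, hD⟩ := (continuous_gradient hθ).bounded_above_of_compact_support (gradient_cs hs)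
  refine (isH1_C1 hθ hs).mul_of_memLp h1
    (memLp_bdd_smul hθ.continuous.aestronglyMeasurable (Eventually.of_forall hC) h1.memLp)
    ((memLp_bdd_smul hθ.continuous.aestronglyMeasurable (Eventually.of_forall hC)
      h1.memLp_grad).add ?_)
  refine h1.memLp.of_le_mul (c := D)
    (h1.memLp.aestronglyMeasurable.smul (continuous_gradient hθ).aestronglyMeasurable)
    (Eventually.of_forall fun x => ?_)
  rw [norm_smul, mul_comm]
  exact mul_le_mul_of_nonneg_right (hD x) (norm_nonneg _)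

/-- the square of a bounded function times a compactly supported `C¹` function -/
theorem IsH1.sq_mul {φ θ : E n → ℝ} {G : E n → E n} (h1 : IsH1 φ G) {C : ℝ}
    (hC : ∀ᵐ x, |φ x| ≤ C) (hθ : ContDiff ℝ 1 θ) (hs : HasCompactSupport θ) :
    IsH1 (fun x => θ x * φ x ^ 2)
      (fun x => (2 * θ x * φ x) • G x + φ x ^ 2 • gradient θ x) := by
  refine ((h1.mul_bdd h1 hC hC).mul_C1 hθ hs).congr (Eventually.of_forall fun x => ?_)
    (Eventually.of_forall fun x => ?_)
  · simp only; ring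
  · simp only [← add_smul, smul_smul, pow_two]
    congr 2; ring

/-- limits -/
theorem isH1_of_tendsto {φ : E n → ℝ} {G : E n → E n} {φ' : ℕ → E n → ℝ} {G' : ℕ → E n → E n}
    (h : ∀ j, IsH1 (φ' j) (G' j)) (h1 : MemLp φ 2 volume) (h2 : MemLp G 2 volume)
    (t1 : Tendsto (fun j => eLpNorm (φ' j - φ) 2 volume) atTop (𝓝 0))
    (t2 : Tendsto (fun j => eLpNorm (G' j - G) 2 volume) atTop (𝓝 0)) : IsH1 φ G := by
  refine ⟨h1, h2, fun χ hχ hs e => ?_⟩
  have hχ1 : ContDiff ℝ 1 χ := hχ.of_le (by simp)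
  obtain ⟨c2, s2⟩ := fderiv_cc hχ1 hs e
  have a1 := tendsto_integral_mul h1 (memLp_cc c2 s2) (fun j => (h j).memLp)
    (fun _ => memLp_cc c2 s2) t1 (tendsto_const_eLpNorm _)
  have m1 := memLp_cc hχ.continuous hs
  have a2 := tendsto_integral_mul (memLp_inner_const h2 e) m1
    (fun j => memLp_inner_const (h j).memLp_grad e) (fun _ => m1) (tendsto_inner_const t2 e)
    (tendsto_const_eLpNorm _)
  refine tendsto_nhds_unique a1 (a2.neg.congr fun j => ?_)
  rw [(h j).weak χ hχ hs e]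

theorem exists_seq_ae {F : Type*} [NormedAddCommGroup F] {f : E n → F} {f' : ℕ → E n → F}
    (h : ∀ j, MemLp (f' j) 2 volume) (h1 : MemLp f 2 volume)
    (t1 : Tendsto (fun j => eLpNorm (f' j - f) 2 volume) atTop (𝓝 0)) :
    ∃ ns : ℕ → ℕ, StrictMono ns ∧ ∀ᵐ x, Tendsto (fun i => f' (ns i) x) atTop (𝓝 (f x)) :=
  (tendstoInMeasure_of_tendsto_eLpNorm (by norm_num) (fun j => (h j).aestronglyMeasurable)
    h1.aestronglyMeasurable t1).exists_seq_tendsto_ae

/-- convergence in `H¹` under a `C¹` map with bounded derivative -/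
theorem comp_tendsto {φ : E n → ℝ} {G : E n → E n} {φ' : ℕ → E n → ℝ} {G' : ℕ → E n → E n}
    (hφ : MemLp φ 2 volume) (hG : MemLp G 2 volume) (hφ' : ∀ j, MemLp (φ' j) 2 volume)
    (hG' : ∀ j, MemLp (G' j) 2 volume)
    (t1 : Tendsto (fun j => eLpNorm (φ' j - φ) 2 volume) atTop (𝓝 0))
    (t2 : Tendsto (fun j => eLpNorm (G' j - G) 2 volume) atTop (𝓝 0))
    (hae : ∀ᵐ x, Tendsto (fun i => φ' i x) atTop (𝓝 (φ x)))
    {F f : ℝ → ℝ} (hF : ∀ t, HasDerivAt F (f t) t) (hf : Continuous f) {C : ℝ}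
    (hC : ∀ t, |f t| ≤ C) (hC0 : 0 ≤ C) :
    Tendsto (fun j => eLpNorm ((fun x => F (φ' j x)) - fun x => F (φ x)) 2 volume) atTop (𝓝 0) ∧
    Tendsto (fun j => eLpNorm ((fun x => f (φ' j x) • G' j x) - fun x => f (φ x) • G x) 2 volume)
      atTop (𝓝 0) := by
  have hlip : ∀ s t, |F s - F t| ≤ C * |s - t| := by
    intro s t
    have := Convex.norm_image_sub_le_of_norm_hasDerivWithin_le (f := F) (f' := f) (C := C)
      (s := univ) (x := t) (y := s) (fun x _ => (hF x).hasDerivWithinAt) (fun x _ => hC x)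
      convex_univ (mem_univ _) (mem_univ _)
    simpa using this
  constructor
  · have h3 : Tendsto (fun j => ENNReal.ofReal C * eLpNorm (φ' j - φ) 2 volume) atTop (𝓝 0) := by
      have := ENNReal.Tendsto.const_mul t1 (Or.inr ENNReal.ofReal_ne_top) (a := ENNReal.ofReal C)
      simpa using this
    refine tendsto_of_tendsto_of_tendsto_of_le_of_le tendsto_const_nhds h3 (fun j => bot_le) ?_
    intro j
    refine eLpNorm_le_mul_eLpNorm_of_ae_le_mul (Eventually.of_forall fun x => ?_) 2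
    exact hlip _ _
  · exact tendsto_smul_L2 hG hG'
      (fun j => hf.comp_aestronglyMeasurable (hφ' j).aestronglyMeasurable)
      (fun j => Eventually.of_forall fun x => hC _)
      (hae.mono fun x hx => (hf.tendsto _).comp hx) t2

/-- chain rule -/
theorem IsH1.comp {φ : E n → ℝ} {G : E n → E n} (h : IsH1 φ G)
    {F f : ℝ → ℝ} (hF : ∀ t, HasDerivAt F (f t) t) (hf : Continuous f) (hF0 : F 0 = 0) {C : ℝ}
    (hC : ∀ t, |f t| ≤ C) (hC0 : 0 ≤ C) :
    IsH1 (fun x => F (φ x)) (fun x => f (φ x) • G x) := by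
  have hlip : ∀ s, |F s| ≤ C * |s| := by
    intro s
    have := Convex.norm_image_sub_le_of_norm_hasDerivWithin_le (f := F) (f' := f) (C := C)
      (s := univ) (x := 0) (y := s) (fun x _ => (hF x).hasDerivWithinAt) (fun x _ => hC x)
      convex_univ (mem_univ _) (mem_univ _)
    simpa [hF0] using this
  have hFc : Continuous F := continuous_iff_continuousAt.2 fun t => (hF t).continuousAt
  have hF1 : ContDiff ℝ 1 F := by
    rw [contDiff_one_iff_deriv]
    refine ⟨fun t => (hF t).differentiableAt, ?_⟩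
    have : deriv F = f := by ext t; exact (hF t).deriv
    rw [this]; exact hf
  have mF : ∀ {φ : E n → ℝ}, MemLp φ 2 volume → MemLp (fun x => F (φ x)) 2 volume := by
    intro φ hφ
    exact hφ.of_le_mul (c := C) (hFc.comp_aestronglyMeasurable hφ.aestronglyMeasurable)
      (Eventually.of_forall fun x => hlip _)
  have mG : ∀ {φ : E n → ℝ} {G : E n → E n}, MemLp φ 2 volume → MemLp G 2 volume →
      MemLp (fun x => f (φ x) • G x) 2 volume := by
    intro φ G hφ hG
    exact memLp_bdd_smul (hf.comp_aestronglyMeasurable hφ.aestronglyMeasurable)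
      (Eventually.of_forall fun x => hC _) hG
  refine ⟨mF h.memLp, mG h.memLp h.memLp_grad, fun χ hχ hs e => ?_⟩
  obtain ⟨ns, hns, hae⟩ := exists_seq_ae (fun j => memLp_moll j h.memLp) h.memLp h.tendsto_moll
  obtain ⟨l1, l2⟩ := comp_tendsto h.memLp h.memLp_grad (fun j => memLp_moll (ns j) h.memLp)
    (fun j => memLp_moll (ns j) h.memLp_grad) (h.tendsto_moll.comp hns.tendsto_atTop)
    (h.tendsto_moll_grad.comp hns.tendsto_atTop) hae hF hf hC hC0
  have hχ1 : ContDiff ℝ 1 χ := hχ.of_le (by simp)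
  obtain ⟨c2, s2⟩ := fderiv_cc hχ1 hs e
  have m1 := memLp_cc hχ.continuous hs
  have a1 := tendsto_integral_mul (mF h.memLp) (memLp_cc c2 s2)
    (fun j => mF (memLp_moll (ns j) h.memLp)) (fun _ => memLp_cc c2 s2) l1
    (tendsto_const_eLpNorm _)
  have a2 := tendsto_integral_mul (memLp_inner_const (mG h.memLp h.memLp_grad) e) m1
    (fun j => memLp_inner_const (mG (memLp_moll (ns j) h.memLp)
      (memLp_moll (ns j) h.memLp_grad)) e) (fun _ => m1) (tendsto_inner_const l2 e)
    (tendsto_const_eLpNorm _)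
  refine tendsto_nhds_unique a1 (a2.neg.congr fun j => ?_)
  have s1 : ContDiff ℝ 1 (moll (ker n (ns j)) φ) := (h.moll_smooth (ns j)).of_le (by simp)
  rw [ibp_smooth (f := fun x => F (moll (ker n (ns j)) φ x)) (hF1.comp s1) hχ1 hs e]
  congr 2; ext x
  have e4 : HasFDerivAt (fun x => F (moll (ker n (ns j)) φ x))
      (f (moll (ker n (ns j)) φ x) • fderiv ℝ (moll (ker n (ns j)) φ) x) x :=
    (hF _).comp_hasFDerivAt x ((s1.differentiable (by simp)) x).hasFDerivAt
  rw [e4.fderiv, real_inner_smul_left, smul_apply, h.hasFDerivAt_moll]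
  simp

end Pool.Agent.helper33.Insul
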