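import Mathlib
import Pool.Agent.helper33.Insul.H1b

/-! Poincare inequality and the minimisation problem. -/

set_option autoImplicit false
set_option linter.unusedSectionVars false
open MeasureTheory Metric Set Filter Topology
open scoped ENNReal ContDiff

namespace Pool.Agent.helper33.Insul

variable {n : ℕ}

/-- the `L²` norm as a real number -/
noncomputable def nr {F : Type*} [NormedAddCommGroup F] (f : E n → F) : ℝ :=
  (eLpNorm f 2 (volume : Measure (E n))).toReal

theorem nr_nonneg {F : Type*} [NormedAddCommGroup F] (f : E n → F) : 0 ≤ nr f :=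
  ENNReal.toReal_nonneg

theorem nr_toLp {F : Type*} [NormedAddCommGroup F] {f : E n → F} (hf : MemLp f 2 volume) :
    ‖hf.toLp f‖ = nr f := Lp.norm_toLp f hf

theorem nr_congr {F : Type*} [NormedAddCommGroup F] {f g : E n → F} (h : f =ᵐ[volume] g) :
    nr f = nr g := by
  unfold nr; rw [eLpNorm_congr_ae h]

theorem nr_add_le {F : Type*} [NormedAddCommGroup F] {f g : E n → F} (hf : MemLp f 2 volume)
    (hg : MemLp g 2 volume) : nr (fun x => f x + g x) ≤ nr f + nr g := by
  have := norm_add_le (hf.toLp f) (hg.toLp g)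
  rw [← MemLp.toLp_add, Lp.norm_toLp, nr_toLp, nr_toLp] at this
  exact this

theorem nr_le_mul {F H : Type*} [NormedAddCommGroup F] [NormedAddCommGroup H] {f : E n → F}
    {g : E n → H} {C : ℝ} (hC : 0 ≤ C) (hg : MemLp g 2 volume) (h : ∀ᵐ x, ‖f x‖ ≤ C * ‖g x‖) :
    nr f ≤ C * nr g := by
  have h1 := eLpNorm_le_mul_eLpNorm_of_ae_le_mul (p := 2) h
  unfold nr
  have h2 := ENNReal.toReal_mono (ENNReal.mul_ne_top ENNReal.ofReal_ne_top hg.2.ne) h1
  rwa [ENNReal.toReal_mul, ENNReal.toReal_ofReal hC] at h2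

theorem nr_sq {H : Type*} [NormedAddCommGroup H] [InnerProductSpace ℝ H] {f : E n → H}
    (hf : MemLp f 2 volume) : nr f ^ 2 = ∫ x, ‖f x‖ ^ 2 := by
  rw [← nr_toLp hf, ← real_inner_self_eq_norm_sq, ← integral_inner_toLp hf hf]
  congr 1; ext x; rw [real_inner_self_eq_norm_sq]

theorem abs_integral_inner_le {H : Type*} [NormedAddCommGroup H] [InnerProductSpace ℝ H]
    {f g : E n → H} (hf : MemLp f 2 volume) (hg : MemLp g 2 volume) :
    |∫ x, inner ℝ (f x) (g x)| ≤ nr f * nr g := by
  rw [integral_inner_toLp hf hg, ← nr_toLp hf, ← nr_toLp hg]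
  exact abs_real_inner_le_norm _ _

theorem integral_norm_mul_le {F H : Type*} [NormedAddCommGroup F] [NormedAddCommGroup H]
    {f : E n → F} {g : E n → H} (hf : MemLp f 2 volume) (hg : MemLp g 2 volume) :
    ∫ x, ‖f x‖ * ‖g x‖ ≤ nr f * nr g := by
  have h := abs_integral_inner_le hf.norm hg.norm
  have e1 : nr (fun x => ‖f x‖) = nr f := by unfold nr; rw [eLpNorm_norm]
  have e2 : nr (fun x => ‖g x‖) = nr g := by unfold nr; rw [eLpNorm_norm]
  rw [e1, e2] at h
  refine le_trans (le_of_eq ?_) ((le_abs_self _).trans h)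
  congr 1; ext x; rw [mul_eq_inner]

/-- Poincare inequality -/
theorem IsH1.poincare {v : E n → ℝ} {G : E n → E n} (h : IsH1 v G) {x₀ : E n} {R : ℝ}
    (hR : 0 < R) (hv : ∀ᵐ x, x ∉ ball x₀ R → v x = 0) (hn : 0 < n) :
    nr v ≤ 2 * R * nr G := by
  let χ : ContDiffBump x₀ := ⟨R, 2 * R, hR, by linarith⟩
  set X : E n → E n := fun x => χ x • (x - x₀) with hX
  have hXc : ContDiff ℝ 1 X := χ.contDiff.smul (contDiff_id.sub contDiff_const)
  have hXs : HasCompactSupport X := χ.hasCompactSupport.smul_right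
  have hdiv : ∀ x ∈ ball x₀ R, vdiv X x = n := by
    intro x hx
    have h1 : X =ᶠ[𝓝 x] fun y => y - x₀ := by
      filter_upwards [χ.eventuallyEq_one_of_mem_ball hx] with y hy
      simp only [hX]
      rw [hy]; simp
    have h2 : fderiv ℝ X x = ContinuousLinearMap.id ℝ (E n) := by
      rw [h1.fderiv_eq]
      exact ((hasFDerivAt_id x).sub_const x₀).fderiv
    unfold vdiv
    rw [h2]
    simp
  have hXn : ∀ x ∈ ball x₀ R, ‖X x‖ ≤ R := by
    intro x hx
    simp only [hX]
    rw [norm_smul, Real.norm_of_nonneg χ.nonneg]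
    have h1 : χ x ≤ 1 := χ.le_one
    have h2 : ‖x - x₀‖ ≤ R := by rw [← dist_eq_norm]; exact (mem_ball.1 hx).le
    nlinarith [norm_nonneg (x - x₀), χ.nonneg (x := x)]
  have key := h.mul_vec h hXc hXs
  have e1 : ∫ x, v x * v x * vdiv X x = n * ∫ x, ‖v x‖ ^ 2 := by
    rw [← integral_const_mul]
    apply integral_congr_ae
    filter_upwards [hv] with x hx
    by_cases hxb : x ∈ ball x₀ R
    · rw [hdiv x hxb, Real.norm_eq_abs, sq_abs]; ring
    · rw [hx hxb]; simp
  rw [e1, ← nr_sq h.memLp] at key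
  have e2 : - ∫ x, (v x * inner ℝ (G x) (X x) + v x * inner ℝ (G x) (X x))
      ≤ 2 * R * ∫ x, ‖v x‖ * ‖G x‖ := by
    have hint : Integrable fun x => 2 * R * (‖v x‖ * ‖G x‖) :=
      (h.memLp.norm.integrable_mul h.memLp_grad.norm).const_mul _
    have := norm_integral_le_of_norm_le
      (f := fun x => v x * inner ℝ (G x) (X x) + v x * inner ℝ (G x) (X x)) hint (by
      filter_upwards [hv] with x hx
      by_cases hxb : x ∈ ball x₀ R
      · have h1 : |inner ℝ (G x) (X x)| ≤ ‖G x‖ * R :=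
          (abs_real_inner_le_norm _ _).trans
            (mul_le_mul_of_nonneg_left (hXn x hxb) (norm_nonneg _))
        rw [← two_mul, norm_mul, norm_mul, Real.norm_eq_abs, Real.norm_eq_abs, Real.norm_eq_abs,
          abs_two]
        nlinarith [abs_nonneg (v x), norm_nonneg (G x)]
      · rw [hx hxb]; simp)
    rw [integral_const_mul] at this
    rw [Real.norm_eq_abs] at this
    exact (neg_le_abs _).trans this
  have e3 := integral_norm_mul_le h.memLp h.memLp_grad
  have h0 := nr_nonneg v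
  have h0' := nr_nonneg G
  have hn1 : (1 : ℝ) ≤ n := by exact_mod_cast hn
  rcases eq_or_lt_of_le h0 with h1 | h1
  · rw [← h1]; positivity
  · have h2 : (n : ℝ) * nr v ^ 2 ≤ 2 * R * (nr v * nr G) := by
      rw [key]
      exact e2.trans (mul_le_mul_of_nonneg_left e3 (by positivity))
    have h3 : nr v * nr v ≤ nr v * (2 * R * nr G) := by nlinarith
    exact le_of_mul_le_mul_left h3 h1

end Pool.Agent.helper33.Insul
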