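import Mathlib
import Pool.Agent.helper33.Insul.Poin

/-! The obstacle class and the capacitary potential. -/

set_option autoImplicit false
set_option linter.unusedSectionVars false
open MeasureTheory Metric Set Filter Topology
open scoped ENNReal ContDiff

namespace Pool.Agent.helper33.Insul

variable {n : ℕ}

/-! ### a `C¹` truncation -/

/-- `s` for `s ≤ 0` and `s / (1 + s)` for `s ≥ 0` -/
noncomputable def gT (s : ℝ) : ℝ := if s ≤ 0 then s else s / (1 + s)

noncomputable def gT' (s : ℝ) : ℝ := 1 / (1 + max s 0) ^ 2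

theorem gT_hasDerivAt (s : ℝ) : HasDerivAt gT (gT' s) s := by
  have hr : ∀ t : ℝ, 0 ≤ t → HasDerivAt (fun s : ℝ => s / (1 + s)) (1 / (1 + t) ^ 2) t := by
    intro t ht
    have h := (hasDerivAt_id t).div ((hasDerivAt_id t).const_add 1)
      (by simp only [id]; positivity : (1 : ℝ) + id t ≠ 0)
    have e : (1 * (1 + id t) - id t * 1) / (1 + id t) ^ 2 = 1 / (1 + t) ^ 2 := by
      simp only [id]; congr 1; ring
    rw [e] at h
    exact h
  rcases lt_trichotomy s 0 with h | h | h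
  · have e1 : gT =ᶠ[𝓝 s] fun t => t := by
      filter_upwards [gt_mem_nhds h] with t ht
      simp [gT, ht.le]
    have e2 : gT' s = 1 := by simp [gT', max_eq_right h.le]
    rw [e2]
    exact (hasDerivAt_id s).congr_of_eventuallyEq e1
  · subst h
    have e2 : gT' 0 = 1 := by simp [gT']
    rw [e2]
    have h1 : HasDerivWithinAt gT 1 (Iic 0) 0 :=
      (hasDerivAt_id (0 : ℝ)).hasDerivWithinAt.congr (fun t ht => by simp [gT, mem_Iic.1 ht])
        (by simp [gT])
    have h2 : HasDerivWithinAt gT 1 (Ici 0) 0 := by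
      have := (hr 0 le_rfl).hasDerivWithinAt (s := Ici 0)
      norm_num at this
      refine this.congr (fun t ht => ?_) (by simp [gT])
      rcases eq_or_lt_of_le (mem_Ici.1 ht) with h0 | h0
      · simp [gT, ← h0]
      · simp [gT, not_le.2 h0]
    have h3 := h1.union h2
    rw [Iic_union_Ici] at h3
    exact hasDerivWithinAt_univ.1 h3
  · have e1 : gT =ᶠ[𝓝 s] fun t => t / (1 + t) := by
      filter_upwards [lt_mem_nhds h] with t ht
      simp [gT, not_le.2 ht]
    have e2 : gT' s = 1 / (1 + s) ^ 2 := by simp [gT', max_eq_left h.le]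
    rw [e2]
    exact (hr s h.le).congr_of_eventuallyEq e1

theorem gT'_continuous : Continuous gT' := by
  unfold gT'
  refine continuous_const.div (by fun_prop) fun s => ?_
  have : 0 ≤ max s 0 := le_max_right _ _
  positivity

theorem gT'_pos (s : ℝ) : 0 < gT' s := by
  unfold gT'
  have : 0 ≤ max s 0 := le_max_right _ _
  positivity

theorem gT'_le_one (s : ℝ) : gT' s ≤ 1 := by
  unfold gT'
  have : 0 ≤ max s 0 := le_max_right _ _
  rw [div_le_one (by positivity)]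
  nlinarith

theorem gT_eq_iff (s : ℝ) : gT s = s ↔ s ≤ 0 := by
  constructor
  · intro h
    by_contra hs
    push Not at hs
    rw [gT, if_neg (not_le.2 hs), div_eq_iff (by positivity)] at h
    nlinarith
  · intro h; simp [gT, h]

theorem gT_nonneg {s : ℝ} (hs : 0 ≤ s) : 0 ≤ gT s := by
  unfold gT; split_ifs
  · exact hs
  · positivity

theorem gT_lt_one (s : ℝ) : gT s < 1 := by
  unfold gT; split_ifs with h
  · linarith
  · rw [div_lt_one (by linarith)]; linarith

/-- smooth cutoff functions -/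
theorem exists_cutoff {A B : Set (E n)} (hA : IsClosed A) (hB : IsOpen B)
    (hBb : Bornology.IsBounded B) (h : A ⊆ B) :
    ∃ f : E n → ℝ, ContDiff ℝ ∞ f ∧ HasCompactSupport f ∧ (∀ x ∈ A, f x = 1) ∧
      (∀ x, x ∉ B → f x = 0) ∧ (∀ x, 0 ≤ f x) ∧ ∀ x, f x ≤ 1 := by
  obtain ⟨f, hf1, hf2, hf3, hf4⟩ := exists_contMDiff_support_eq_eq_one_iff
    (modelWithCornersSelf ℝ (E n)) (n := (⊤ : ℕ∞)) hB hA h
  refine ⟨f, contMDiff_iff_contDiff.1 hf1, ?_, fun x hx => (hf4 x).1 hx, fun x hx => ?_,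
    fun x => (hf2 (mem_range_self x)).1, fun x => (hf2 (mem_range_self x)).2⟩
  · apply HasCompactSupport.of_support_subset_isCompact (hBb.isCompact_closure)
    rw [hf3]; exact subset_closure
  · by_contra h0
    exact hx (hf3 ▸ h0)

/-! ### the obstacle class -/

/-- the properties we use of the class '`φ ≥ 1` on `K`' -/
structure Obst (K : Set (E n)) (P : (E n → ℝ) → (E n → E n) → Prop) : Prop where
  isH1 : ∀ {φ G}, P φ G → IsH1 φ G
  congr : ∀ {φ G φ' G'}, P φ G → φ =ᵐ[volume] φ' → G =ᵐ[volume] G' → P φ' G'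
  ge : ∀ {φ G}, P φ G → ∀ᵐ x, x ∈ K → 1 ≤ φ x
  convex : ∀ {φ G φ' G'} {s t : ℝ}, P φ G → P φ' G' → 0 ≤ s → 0 ≤ t → s + t = 1 →
    P (fun x => s * φ x + t * φ' x) (fun x => s • G x + t • G' x)
  closed : ∀ {φ G} {φ' : ℕ → E n → ℝ} {G' : ℕ → E n → E n}, (∀ j, P (φ' j) (G' j)) →
    MemLp φ 2 volume → MemLp G 2 volume →
    Tendsto (fun j => eLpNorm (φ' j - φ) 2 volume) atTop (𝓝 0) →
    Tendsto (fun j => eLpNorm (G' j - G) 2 volume) atTop (𝓝 0) → P φ G
  comp : ∀ {φ G} {F f : ℝ → ℝ}, P φ G → (∀ t, HasDerivAt F (f t) t) → Continuous f → F 0 = 0 →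
    (∀ t, |f t| ≤ 1) → (∀ t, 1 ≤ t → 1 ≤ F t) → P (fun x => F (φ x)) (fun x => f (φ x) • G x)
  base : ∀ {ψ : E n → ℝ}, ContDiff ℝ 1 ψ → HasCompactSupport ψ → (∀ x ∈ K, 1 ≤ ψ x) →
    P ψ (gradient ψ)
  add : ∀ {φ G} {ψ : E n → ℝ}, P φ G → ContDiff ℝ 1 ψ → HasCompactSupport ψ →
    (∀ x ∈ K, 0 ≤ ψ x) → P (fun x => φ x + ψ x) (fun x => G x + gradient ψ x)
  sq : ∀ {φ G} {C : ℝ} {θ : E n → ℝ}, P φ G → (∀ᵐ x, |φ x| ≤ C) → ContDiff ℝ 1 θ →
    HasCompactSupport θ → (∀ x ∈ K, 1 ≤ θ x) →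
    P (fun x => θ x * φ x ^ 2) (fun x => (2 * θ x * φ x) • G x + φ x ^ 2 • gradient θ x)

theorem toLp_tendsto_of {F : Type*} [NormedAddCommGroup F] {f : E n → F} {f' : ℕ → E n → F}
    (h : ∀ j, MemLp (f' j) 2 volume) (h1 : MemLp f 2 volume) :
    Tendsto (fun j => (h j).toLp (f' j)) atTop (𝓝 (h1.toLp f)) ↔
    Tendsto (fun j => eLpNorm (f' j - f) 2 volume) atTop (𝓝 0) :=
  Lp.tendsto_Lp_iff_tendsto_eLpNorm'' f' h f h1

variable {K : Set (E n)} {P : (E n → ℝ) → (E n → E n) → Prop}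

/-- existence of the minimiser of the Dirichlet energy -/
theorem Obst.exists_min (hO : Obst K P) (hn : 0 < n) (hK : IsCompact K) {x₀ : E n} {R : ℝ}
    (hR : 0 < R) (hKR : K ⊆ ball x₀ R) :
    ∃ (u : E n → ℝ) (p : E n → E n), P u p ∧ (∀ᵐ x, x ∉ ball x₀ R → u x = 0) ∧
      ∀ v G, P v G → (∀ᵐ x, x ∉ ball x₀ R → v x = 0) → nr p ^ 2 ≤ ∫ x, inner ℝ (p x) (G x) := by
  set C : Set (Lp (E n) 2 (volume : Measure (E n))) :=
    {g | ∃ v, P v g ∧ ∀ᵐ x, x ∉ ball x₀ R → v x = 0} with hC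
  have hne : C.Nonempty := by
    obtain ⟨ψ, h1, h2, h3, h4, -, -⟩ := exists_cutoff hK.isClosed isOpen_ball isBounded_ball hKR
    have h5 : P ψ (gradient ψ) := hO.base (h1.of_le (by simp)) h2 fun x hx => (h3 x hx).ge
    exact ⟨(hO.isH1 h5).memLp_grad.toLp _, ψ, hO.congr h5 (ae_eq_refl _)
      (MemLp.coeFn_toLp _).symm, Eventually.of_forall h4⟩
  have hconv : Convex ℝ C := by
    rintro g ⟨v, hv, hv0⟩ g' ⟨v', hv', hv0'⟩ s t hs ht hst
    refine ⟨fun x => s * v x + t * v' x, ?_, ?_⟩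
    · refine hO.congr (hO.convex hv hv' hs ht hst) (ae_eq_refl _) ?_
      filter_upwards [Lp.coeFn_add (s • g) (t • g'), Lp.coeFn_smul s g, Lp.coeFn_smul t g'] with
        x h1 h2 h3
      rw [h1, Pi.add_apply, h2, h3]; rfl
    · filter_upwards [hv0, hv0'] with x h1 h2 hx
      rw [h1 hx, h2 hx]; simp
  have hclosed : IsClosed C := by
    apply IsSeqClosed.isClosed
    intro g' g hg' hlim
    choose v hv hv0 using hg'
    have hvm : ∀ j, MemLp (v j) 2 volume := fun j => (hO.isH1 (hv j)).memLp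
    -- the functions converge by the Poincare inequality
    have hcau : CauchySeq fun j => (hvm j).toLp (v j) := by
      rw [Metric.cauchySeq_iff']
      intro ε hε
      obtain ⟨N, hN⟩ := Metric.cauchySeq_iff'.1 hlim.cauchySeq (ε / (2 * R)) (by positivity)
      refine ⟨N, fun m hm => ?_⟩
      have h1 := (hO.isH1 (hv m)).sub (hO.isH1 (hv N))
      have h2 := h1.poincare hR (x₀ := x₀) (by
        filter_upwards [hv0 m, hv0 N] with x h3 h4 hx
        rw [h3 hx, h4 hx, sub_zero]) hn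
      have h3 : dist ((hvm m).toLp (v m)) ((hvm N).toLp (v N)) = nr fun x => v m x - v N x := by
        rw [dist_eq_norm, ← MemLp.toLp_sub, Lp.norm_toLp]; rfl
      have h4 : dist (g' m) (g' N) = nr fun x => g' m x - g' N x := by
        rw [dist_eq_norm, Lp.norm_def]
        unfold nr
        rw [eLpNorm_congr_ae (Lp.coeFn_sub _ _)]; rfl
      rw [h3]
      have h5 := hN m hm
      rw [h4] at h5
      calc (nr fun x => v m x - v N x) ≤ 2 * R * nr fun x => g' m x - g' N x := h2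
        _ < 2 * R * (ε / (2 * R)) := by gcongr
        _ = ε := by field_simp
    obtain ⟨w, hw⟩ := cauchySeq_tendsto_of_complete hcau
    have hwm : MemLp w 2 volume := Lp.memLp w
    have t1 : Tendsto (fun j => eLpNorm (v j - (w : E n → ℝ)) 2 volume) atTop (𝓝 0) := by
      rw [← toLp_tendsto_of hvm hwm]
      rw [Lp.toLp_coeFn]; exact hw
    have t2 : Tendsto (fun j => eLpNorm (⇑(g' j) - ⇑g) 2 volume) atTop (𝓝 0) :=
      (Lp.tendsto_Lp_iff_tendsto_eLpNorm' g' g).1 hlim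
    refine ⟨w, hO.closed hv hwm (Lp.memLp g) t1 t2, ?_⟩
    obtain ⟨ns, hns, hae⟩ := exists_seq_ae hvm hwm t1
    filter_upwards [hae, ae_all_iff.2 hv0] with x h1 h2 hx
    refine tendsto_nhds_unique h1 ?_
    have : (fun i => v (ns i) x) = fun _ => 0 := by ext i; exact h2 (ns i) hx
    rw [this]; exact tendsto_const_nhds
  obtain ⟨p, hpC, hp⟩ := exists_norm_eq_iInf_of_complete_convex hne hclosed.isComplete hconv 0
  have hmin := (norm_eq_iInf_iff_real_inner_le_zero hconv hpC).1 hp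
  obtain ⟨u, hu, hu0⟩ := hpC
  refine ⟨u, p, hu, hu0, fun v G hv hv0 => ?_⟩
  have hG := (hO.isH1 hv).memLp_grad
  have h1 := hmin (hG.toLp G) ⟨v, hO.congr hv (ae_eq_refl _) (MemLp.coeFn_toLp _).symm, hv0⟩
  have hpm : MemLp p 2 volume := Lp.memLp p
  have h2 : ∫ x, inner ℝ (p x) (G x) = inner ℝ p (hG.toLp G) := by
    rw [integral_inner_toLp hpm hG, Lp.toLp_coeFn]
  have h3 : nr p ^ 2 = inner ℝ p p := by
    rw [real_inner_self_eq_norm_sq, Lp.norm_def]; rfl
  rw [h2, h3]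
  rw [zero_sub, inner_neg_left, inner_sub_right] at h1
  linarith

end Pool.Agent.helper33.Insul
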