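import Mathlib
import Pool.Agent.helper33.Insul.Min

/-! Mean value inequality and gradient estimate for smooth functions. -/

set_option autoImplicit false
set_option linter.unusedSectionVars false
open MeasureTheory Metric Set Filter Topology
open scoped ENNReal ContDiff

namespace Pool.Agent.helper33.Insul

variable {n : ℕ}

/-- Laplacian -/
noncomputable def lap (f : E n → ℝ) (x : E n) : ℝ := vdiv (gradient f) x

theorem vdiv_smul {a : E n → ℝ} {Y : E n → E n} {x : E n} (ha : DifferentiableAt ℝ a x)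
    (hY : DifferentiableAt ℝ Y x) :
    vdiv (fun y => a y • Y y) x = a x * vdiv Y x + inner ℝ (gradient a x) (Y x) := by
  unfold vdiv
  have h1 : fderiv ℝ (fun y => a y • Y y) x = a x • fderiv ℝ Y x
      + (fderiv ℝ a x).smulRight (Y x) := fderiv_fun_smul ha hY
  rw [h1, inner_eq_sum, Finset.mul_sum, ← Finset.sum_add_distrib]
  refine Finset.sum_congr rfl fun i _ => ?_
  rw [gradient_inner]
  simp

theorem vdiv_add {X Y : E n → E n} {x : E n} (hX : DifferentiableAt ℝ X x)
    (hY : DifferentiableAt ℝ Y x) : vdiv (fun y => X y + Y y) x = vdiv X x + vdiv Y x := by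
  unfold vdiv
  rw [fderiv_fun_add hX hY, ← Finset.sum_add_distrib]
  refine Finset.sum_congr rfl fun i _ => by simp

theorem vdiv_congr {X Y : E n → E n} {x : E n} (h : X =ᶠ[𝓝 x] Y) : vdiv X x = vdiv Y x := by
  unfold vdiv; rw [h.fderiv_eq]

theorem vdiv_continuous {X : E n → E n} (hX : ContDiff ℝ 1 X) : Continuous (vdiv X) := by
  unfold vdiv
  refine continuous_finsetSum _ fun i _ => ?_
  exact (EuclideanSpace.proj i : E n →L[ℝ] ℝ).continuous.comp
    ((hX.continuous_fderiv (by simp)).clm_apply continuous_const)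

theorem vdiv_cs {X : E n → E n} (hX : HasCompactSupport X) : HasCompactSupport (vdiv X) := by
  refine (hX.fderiv ℝ).comp_left
    (g := fun L : E n →L[ℝ] E n => ∑ i : Fin n, (L (EuclideanSpace.single i 1)) i) (by simp)

theorem integral_vdiv {X : E n → E n} (hX : ContDiff ℝ 1 X) (hs : HasCompactSupport X) :
    ∫ x, vdiv X x = 0 := by
  unfold vdiv
  have h : ∀ i : Fin n, ∫ x, (fderiv ℝ X x (EuclideanSpace.single i 1)) i = 0 := by
    intro i
    have := ibp_smooth (f := fun _ : E n => (1 : ℝ)) contDiff_const (comp_contDiff hX i)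
      (comp_cs hs i) (EuclideanSpace.single i 1)
    simp_rw [fderiv_comp_apply (hX.differentiable (by simp) _)] at this
    simpa using this
  rw [integral_finsetSum]
  · exact Finset.sum_eq_zero fun i _ => h i
  · intro i _
    have := fderiv_cc (comp_contDiff hX i) (comp_cs hs i) (EuclideanSpace.single i 1)
    simp_rw [fderiv_comp_apply (hX.differentiable (by simp) _)] at this
    exact this.1.integrable_of_hasCompactSupport this.2

/-! ### the kernels `(1 - |z|²)₊ ^ m` -/

theorem maxpow_hasDerivAt (m : ℕ) (t : ℝ) :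
    HasDerivAt (fun t : ℝ => (max 0 t) ^ (m + 2)) ((m + 2 : ℝ) * (max 0 t) ^ (m + 1)) t := by
  rcases lt_trichotomy t 0 with h | h | h
  · have e1 : (fun t : ℝ => (max 0 t) ^ (m + 2)) =ᶠ[𝓝 t] fun _ => 0 := by
      filter_upwards [gt_mem_nhds h] with s hs
      simp [max_eq_left hs.le]
    rw [max_eq_left h.le]
    simpa using (hasDerivAt_const t (0 : ℝ)).congr_of_eventuallyEq e1
  · subst h
    have h1 : HasDerivWithinAt (fun t : ℝ => (max 0 t) ^ (m + 2)) 0 (Iic 0) 0 :=
      (hasDerivAt_const (0 : ℝ) (0 : ℝ)).hasDerivWithinAt.congr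
        (fun t ht => by simp [max_eq_left (mem_Iic.1 ht)]) (by simp)
    have h2 : HasDerivWithinAt (fun t : ℝ => (max 0 t) ^ (m + 2)) 0 (Ici 0) 0 := by
      have := (hasDerivAt_pow (m + 2) (0 : ℝ)).hasDerivWithinAt (s := Ici 0)
      simp at this
      refine this.congr (fun t ht => ?_) (by simp)
      simp [max_eq_right (mem_Ici.1 ht)]
    have h3 := h1.union h2
    rw [Iic_union_Ici] at h3
    simpa using hasDerivWithinAt_univ.1 h3
  · have e1 : (fun t : ℝ => (max 0 t) ^ (m + 2)) =ᶠ[𝓝 t] fun t => t ^ (m + 2) := by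
      filter_upwards [lt_mem_nhds h] with s hs
      simp [max_eq_right hs.le]
    rw [max_eq_right h.le]
    have := (hasDerivAt_pow (m + 2) t).congr_of_eventuallyEq e1
    have e2 : ((m + 2 : ℕ) : ℝ) * t ^ (m + 2 - 1) = (m + 2 : ℝ) * t ^ (m + 1) := by
      push_cast; rfl
    rw [e2] at this
    exact this

noncomputable def kk (m : ℕ) (z : E n) : ℝ := (max 0 (1 - ‖z‖ ^ 2)) ^ m

/-- the derivative of `kk (m + 2)` -/
noncomputable def dk (m : ℕ) (z : E n) : E n →L[ℝ] ℝ :=
  (-(2 * ((m : ℝ) + 2) * kk (m + 1) z)) • (innerSL ℝ z : E n →L[ℝ] ℝ)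

theorem kk_hasFDerivAt (m : ℕ) (z : E n) : HasFDerivAt (kk (n := n) (m + 2)) (dk m z) z := by
  have h1 : HasFDerivAt (fun z : E n => 1 - ‖z‖ ^ 2) (-(2 • (innerSL ℝ z : E n →L[ℝ] ℝ))) z := by
    simpa using (hasStrictFDerivAt_norm_sq z).hasFDerivAt.const_sub 1
  have h2 := (maxpow_hasDerivAt m (1 - ‖z‖ ^ 2)).comp_hasFDerivAt z h1
  have e : (((m : ℝ) + 2) * (max 0 (1 - ‖z‖ ^ 2)) ^ (m + 1)) • (-(2 • (innerSL ℝ z : E n →L[ℝ] ℝ)))
      = dk m z := by
    ext w
    simp [dk, kk]
    ring
  rw [e] at h2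
  exact h2

theorem kk_continuous (m : ℕ) : Continuous (kk (n := n) m) := by unfold kk; fun_prop

theorem kk_nonneg (m : ℕ) (z : E n) : 0 ≤ kk m z := by unfold kk; positivity

theorem kk_le_one (m : ℕ) (z : E n) : kk m z ≤ 1 := by
  unfold kk
  apply pow_le_one₀ (by positivity)
  apply max_le (by norm_num)
  nlinarith [norm_nonneg z]

theorem kk_zero {m : ℕ} (hm : m ≠ 0) {z : E n} (hz : 1 ≤ ‖z‖) : kk m z = 0 := by
  unfold kk
  rw [max_eq_left (by nlinarith), zero_pow hm]

theorem kk_cs {m : ℕ} (hm : m ≠ 0) : HasCompactSupport (kk (n := n) m) := by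
  apply HasCompactSupport.of_support_subset_isCompact (isCompact_closedBall (0 : E n) 1)
  intro z hz
  rw [mem_closedBall_zero_iff]
  by_contra h
  exact hz (kk_zero hm (not_le.1 h).le)

theorem kk_contDiff (m : ℕ) : ContDiff ℝ 1 (kk (n := n) (m + 2)) := by
  rw [contDiff_one_iff_fderiv]
  refine ⟨fun z => (kk_hasFDerivAt m z).differentiableAt, ?_⟩
  have : fderiv ℝ (kk (n := n) (m + 2)) = dk m := by
    ext1 z; exact (kk_hasFDerivAt m z).fderiv
  rw [this]
  exact ((continuous_const.mul (kk_continuous _)).neg).smul (innerSL ℝ).continuous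

theorem dk_norm (z : E n) : ‖dk 0 z‖ ≤ 4 := by
  unfold dk
  have h3 := kk_nonneg (n := n) (0 + 1) z
  rw [norm_smul, norm_neg, innerSL_apply_norm]
  push_cast
  rw [Real.norm_of_nonneg (by positivity)]
  rcases le_or_gt 1 ‖z‖ with h | h
  · rw [kk_zero (by norm_num) h]; simp
  · have h4 := kk_le_one (n := n) (0 + 1) z
    calc 2 * (0 + 2) * kk (0 + 1) z * ‖z‖ ≤ 2 * (0 + 2) * 1 * 1 := by gcongr
      _ = 4 := by norm_num

theorem kk_lip (a b : E n) : |kk 2 a - kk 2 b| ≤ 4 * ‖a - b‖ := by
  have h := Convex.norm_image_sub_le_of_norm_hasFDerivWithin_le (f := kk (n := n) 2)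
    (f' := dk 0) (C := 4) (s := univ) (x := b) (y := a)
    (fun x _ => (kk_hasFDerivAt 0 x).hasFDerivWithinAt)
    (fun x _ => dk_norm x) convex_univ (mem_univ _) (mem_univ _)
  simpa using h

noncomputable def ck (n : ℕ) : ℝ := ∫ z : E n, kk 2 z

theorem kk_integrable {m : ℕ} (hm : m ≠ 0) : Integrable (kk (n := n) m) :=
  (kk_continuous m).integrable_of_hasCompactSupport (kk_cs hm)

theorem kk_ge (m : ℕ) {z : E n} (hz : ‖z‖ ≤ 1 / 2) : (3 / 4 : ℝ) ^ m ≤ kk m z := by
  unfold kk
  gcongr
  exact le_max_of_le_right (by nlinarith [norm_nonneg z])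

theorem ck_pos (n : ℕ) : 0 < ck n := by
  unfold ck
  rw [integral_pos_iff_support_of_nonneg (fun z => kk_nonneg 2 z) (kk_integrable (by norm_num))]
  refine lt_of_lt_of_le (measure_ball_pos volume (0 : E n) (by norm_num : (0 : ℝ) < 1 / 2)) ?_
  apply measure_mono
  intro z hz
  have := kk_ge 2 (mem_ball_zero_iff.1 hz).le
  intro h0
  rw [h0] at this
  norm_num at this

/-- the integral identity behind the mean value property -/
theorem mean_ibp {f : E n → ℝ} (hf : ContDiff ℝ 2 f) (x : E n) (s : ℝ) :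
    6 * ∫ z, inner ℝ (gradient f (x + s • z)) z * kk 2 z
      = s * ∫ z, lap f (x + s • z) * kk 3 z := by
  have hg : ContDiff ℝ 1 (gradient f) := contDiff_gradient hf (by norm_num)
  set Y : E n → E n := fun z => gradient f (x + s • z) with hY
  have hYc : ContDiff ℝ 1 Y := hg.comp (contDiff_const.add (contDiff_id.const_smul s))
  have hk : ContDiff ℝ 1 (kk (n := n) 3) := kk_contDiff 1
  have h1 := integral_vdiv (X := fun z => kk 3 z • Y z) (hk.smul hYc) ((kk_cs (by norm_num)).smul_right)
  have e1 : ∀ z, vdiv (fun z => kk 3 z • Y z) z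
      = s * (lap f (x + s • z) * kk 3 z) - 6 * (inner ℝ (gradient f (x + s • z)) z * kk 2 z) := by
    intro z
    rw [vdiv_smul ((hk.differentiable (by simp)) z) ((hYc.differentiable (by simp)) z)]
    have h2 : vdiv Y z = s * lap f (x + s • z) := by
      have h3 : HasFDerivAt (fun z : E n => x + s • z) (s • ContinuousLinearMap.id ℝ (E n)) z := by
        simpa using ((hasFDerivAt_id z).const_smul s).const_add x
      have h4 := ((hg.differentiable (by simp)) (x + s • z)).hasFDerivAt.comp z h3
      have h5 : fderiv ℝ Y z = _ := h4.fderiv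
      unfold lap vdiv
      rw [h5, Finset.mul_sum]
      refine Finset.sum_congr rfl fun i _ => ?_
      simp
    have h6 : inner ℝ (gradient (kk 3) z) (Y z)
        = - 6 * (inner ℝ (gradient f (x + s • z)) z * kk 2 z) := by
      have h7 : gradient (kk 3) z = (-6 * kk 2 z) • z := by
        apply (InnerProductSpace.toDual ℝ (E n)).injective
        rw [toDual_gradient, (kk_hasFDerivAt 1 z).fderiv]
        ext w
        simp only [dk, smul_apply, innerSL_apply_apply, smul_eq_mul, map_smul,
          InnerProductSpace.toDual_apply_apply]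
        push_cast
        ring
      rw [h7, real_inner_smul_left, real_inner_comm]
      ring
    rw [h2, h6]; ring
  simp_rw [e1] at h1
  have c1 : Continuous fun z => lap f (x + s • z) :=
    (vdiv_continuous hg).comp (by fun_prop)
  have c2 : Continuous fun z => inner ℝ (gradient f (x + s • z)) z :=
    (hYc.continuous).inner continuous_id
  have i1 : Integrable fun z => lap f (x + s • z) * kk 3 z :=
    (c1.mul (kk_continuous 3)).integrable_of_hasCompactSupport ((kk_cs (by norm_num)).mul_left)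
  have i2 : Integrable fun z => inner ℝ (gradient f (x + s • z)) z * kk 2 z :=
    (c2.mul (kk_continuous 2)).integrable_of_hasCompactSupport ((kk_cs (by norm_num)).mul_left)
  rw [integral_sub (i1.const_mul s) (i2.const_mul 6), integral_const_mul, integral_const_mul] at h1
  linarith

end Pool.Agent.helper33.Insul
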