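import Mathlib
import Pool.Agent.helper33.Insul.Mean

/-! Mean value inequality and gradient estimate for smooth functions, continued. -/

set_option autoImplicit false
set_option linter.unusedSectionVars false
open MeasureTheory Metric Set Filter Topology
open scoped ENNReal ContDiff

namespace Pool.Agent.helper33.Insul

variable {n : ℕ}

theorem mean_integrable {f : E n → ℝ} (hf : Continuous f) (x : E n) (s : ℝ) :
    Integrable fun z => f (x + s • z) * kk 2 z :=
  ((hf.comp (by fun_prop)).mul (kk_continuous 2)).integrable_of_hasCompactSupport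
    ((kk_cs (by norm_num)).mul_left)

theorem mean_hasDerivAt {f : E n → ℝ} (hf : ContDiff ℝ 2 f) (x : E n) (s₀ : ℝ) :
    HasDerivAt (fun s => ∫ z, f (x + s • z) * kk 2 z)
      (∫ z, inner ℝ (gradient f (x + s₀ • z)) z * kk 2 z) s₀ := by
  have hf1 : ContDiff ℝ 1 f := hf.of_le (by norm_num)
  have hgc : Continuous (gradient f) := continuous_gradient hf1
  obtain ⟨C, hC⟩ := (isCompact_closedBall x (|s₀| + 1)).exists_bound_of_continuousOn
    hgc.continuousOn
  have hC0 : 0 ≤ C := (norm_nonneg _).trans (hC x (mem_closedBall_self (by positivity)))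
  refine (hasDerivAt_integral_of_dominated_loc_of_deriv_le (μ := volume)
    (F := fun s z => f (x + s • z) * kk 2 z)
    (F' := fun s z => inner ℝ (gradient f (x + s • z)) z * kk 2 z) (x₀ := s₀)
    (bound := fun z => C * kk 2 z) (s := ball s₀ 1) (ball_mem_nhds s₀ one_pos) ?_ ?_ ?_ ?_ ?_ ?_).2
  · exact Eventually.of_forall fun s => (mean_integrable hf.continuous x s).aestronglyMeasurable
  · exact mean_integrable hf.continuous x s₀
  · have : Continuous fun z => inner ℝ (gradient f (x + s₀ • z)) z * kk 2 z :=
      ((hgc.comp (by fun_prop)).inner continuous_id).mul (kk_continuous 2)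
    exact this.aestronglyMeasurable
  · refine Eventually.of_forall fun z s hs => ?_
    have hk := kk_nonneg 2 z
    rcases le_or_gt 1 ‖z‖ with h | h
    · rw [kk_zero (by norm_num) h]; simp
    · rw [norm_mul, Real.norm_of_nonneg hk]
      refine mul_le_mul_of_nonneg_right ?_ hk
      refine (norm_inner_le_norm _ _).trans ?_
      have h1 : ‖gradient f (x + s • z)‖ ≤ C := by
        apply hC
        rw [mem_closedBall, dist_eq_norm, add_sub_cancel_left, norm_smul, Real.norm_eq_abs]
        have h2 : |s| ≤ |s₀| + 1 := by
          have h3 : |s - s₀| < 1 := by simpa [Real.dist_eq] using hs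
          have h4 := abs_sub_abs_le_abs_sub s s₀
          linarith
        nlinarith [norm_nonneg z, abs_nonneg s]
      nlinarith [norm_nonneg z, norm_nonneg (gradient f (x + s • z))]
  · exact (kk_integrable (by norm_num)).const_mul C
  · refine Eventually.of_forall fun z s _ => ?_
    have h3 : HasDerivAt (fun s : ℝ => x + s • z) z s := by
      simpa using ((hasDerivAt_id s).smul_const z).const_add x
    have h4 := ((hf1.differentiable (by simp)) (x + s • z)).hasFDerivAt.comp_hasDerivAt s h3
    rw [← gradient_inner] at h4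
    exact h4.mul_const _

/-- super mean value inequality -/
theorem mean_le {f : E n → ℝ} (hf : ContDiff ℝ 2 f) {x : E n} {r : ℝ} (hr : 0 ≤ r)
    (h : ∀ y ∈ ball x r, lap f y ≤ 0) : ∫ z, f (x + r • z) * kk 2 z ≤ f x * ck n := by
  have hg : ContDiff ℝ 1 (gradient f) := contDiff_gradient hf (by norm_num)
  have h1 : AntitoneOn (fun s => ∫ z, f (x + s • z) * kk 2 z) (Icc 0 r) := by
    apply antitoneOn_of_deriv_nonpos (convex_Icc 0 r)
    · exact fun s _ => (mean_hasDerivAt hf x s).continuousAt.continuousWithinAt
    · exact fun s _ => (mean_hasDerivAt hf x s).differentiableAt.differentiableWithinAt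
    · intro s hs
      rw [interior_Icc] at hs
      rw [(mean_hasDerivAt hf x s).deriv]
      have h2 := mean_ibp hf x s
      have h3 : ∫ z, lap f (x + s • z) * kk 3 z ≤ 0 := by
        apply integral_nonpos
        intro z
        simp only [Pi.zero_apply]
        rcases le_or_gt 1 ‖z‖ with h4 | h4
        · rw [kk_zero (by norm_num) h4]; simp
        · apply mul_nonpos_of_nonpos_of_nonneg _ (kk_nonneg 3 z)
          apply h
          rw [mem_ball, dist_eq_norm, add_sub_cancel_left, norm_smul, Real.norm_of_nonneg hs.1.le]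
          nlinarith [norm_nonneg z, hs.1, hs.2]
      nlinarith [hs.1]
  have h2 := h1 (left_mem_Icc.2 hr) (right_mem_Icc.2 hr) hr
  simp only [zero_smul, add_zero] at h2
  rw [integral_const_mul] at h2
  exact h2

theorem lap_neg {f : E n → ℝ} (x : E n) : lap (fun y => - f y) x = - lap f x := by
  have e1 : gradient (fun y => - f y) = fun y => - gradient f y := by
    ext1 y
    apply (InnerProductSpace.toDual ℝ (E n)).injective
    rw [toDual_gradient, map_neg, toDual_gradient]
    exact fderiv_fun_neg
  unfold lap
  rw [e1]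
  unfold vdiv
  have e2 : fderiv ℝ (fun y => - gradient f y) x = - fderiv ℝ (gradient f) x := fderiv_fun_neg
  rw [e2, ← Finset.sum_neg_distrib]
  refine Finset.sum_congr rfl fun i _ => by simp

/-- mean value property -/
theorem mean_eq {f : E n → ℝ} (hf : ContDiff ℝ 2 f) {x : E n} {r : ℝ} (hr : 0 ≤ r)
    (h : ∀ y ∈ ball x r, lap f y = 0) : ∫ z, f (x + r • z) * kk 2 z = f x * ck n := by
  apply le_antisymm (mean_le hf hr fun y hy => (h y hy).le)
  have h1 := mean_le (f := fun y => - f y) hf.neg hr (x := x) fun y hy => by
    rw [lap_neg, h y hy]; simp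
  simp_rw [neg_mul] at h1
  rw [integral_neg] at h1
  linarith

/-- change of variables -/
theorem mean_cov (f : E n → ℝ) (x : E n) {r : ℝ} (hr : 0 < r) :
    ∫ z, f (x + r • z) * kk 2 z = (r ^ n)⁻¹ * ∫ w, f w * kk 2 (r⁻¹ • (w - x)) := by
  have h1 := Measure.integral_comp_smul (volume : Measure (E n))
    (fun w => f (x + w) * kk 2 (r⁻¹ • w)) r
  simp only [smul_smul, inv_mul_cancel₀ hr.ne', one_smul, finrank_euclideanSpace,
    Fintype.card_fin, smul_eq_mul] at h1
  rw [h1, abs_of_pos (by positivity)]
  congr 1
  rw [← integral_add_left_eq_self (fun w => f w * kk 2 (r⁻¹ • (w - x))) x]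
  simp

/-- gradient estimate for nonnegative harmonic functions -/
theorem grad_le {f : E n → ℝ} (hf : ContDiff ℝ 2 f) (h0 : ∀ y, 0 ≤ f y) {x : E n} {t : ℝ}
    (ht : 0 < t) (h : ∀ y ∈ ball x (4 * t), lap f y = 0) :
    ‖gradient f x‖ ≤ 8 * 4 ^ n / t * f x := by
  have hfc := hf.continuous
  set A : ℝ := ∫ w in ball x (2 * t), f w with hA
  have hc := ck_pos n
  have hloc : ∀ s : Set (E n), Bornology.IsBounded s → IntegrableOn f s := by
    intro s hs
    have : IntegrableOn f (closure s) :=
      hfc.continuousOn.integrableOn_compact hs.isCompact_closure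
    exact this.mono_set subset_closure
  have hAi := hloc (ball x (2 * t)) isBounded_ball
  -- lower bound for `f x`
  have h1 : (9 / 16) * ((4 * t) ^ n)⁻¹ * A ≤ f x * ck n := by
    rw [← mean_eq hf (by positivity) h, mean_cov f x (by positivity), mul_comm (9 / 16 : ℝ),
      mul_assoc]
    refine mul_le_mul_of_nonneg_left ?_ (by positivity)
    rw [hA, ← integral_const_mul, ← integral_indicator measurableSet_ball]
    have hi : Integrable fun w => f w * kk 2 ((4 * t)⁻¹ • (w - x)) := by
      have h5 : HasCompactSupport fun w => kk 2 ((4 * t)⁻¹ • (w - x)) := by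
        apply HasCompactSupport.of_support_subset_isCompact (isCompact_closedBall x (4 * t))
        intro w hw
        by_contra h6
        apply hw
        apply kk_zero (by norm_num)
        rw [mem_closedBall, dist_eq_norm, not_le] at h6
        rw [norm_smul, Real.norm_of_nonneg (by positivity), inv_mul_eq_div,
          one_le_div (by positivity)]
        exact h6.le
      exact (hfc.mul ((kk_continuous 2).comp (by fun_prop))).integrable_of_hasCompactSupport
        h5.mul_left
    refine integral_mono ((integrable_indicator_iff measurableSet_ball).2 (hAi.const_mul _)) hi ?_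
    intro w
    by_cases hw : w ∈ ball x (2 * t)
    · simp only [hw, indicator_of_mem]
      have h5 := kk_ge (n := n) 2 (z := (4 * t)⁻¹ • (w - x)) (by
        rw [norm_smul, Real.norm_of_nonneg (by positivity), inv_mul_eq_div,
          div_le_iff₀ (by positivity)]
        rw [mem_ball, dist_eq_norm] at hw
        linarith)
      nlinarith [h0 w]
    · simp only [hw, not_false_eq_true, indicator_of_notMem]
      exact mul_nonneg (h0 w) (kk_nonneg _ _)
  -- Lipschitz estimate
  have h2 : ∀ y ∈ ball x t, ‖f y - f x‖ ≤ (8 * 4 ^ n / t * f x) * ‖y - x‖ := by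
    intro y hy
    have hyt : dist y x < t := hy
    have e1 : f y * ck n = (t ^ n)⁻¹ * ∫ w, f w * kk 2 (t⁻¹ • (w - y)) := by
      rw [← mean_cov f y ht]
      refine (mean_eq hf ht.le fun z hz => h z ?_).symm
      rw [mem_ball] at hz ⊢
      linarith [dist_triangle z y x]
    have e2 : f x * ck n = (t ^ n)⁻¹ * ∫ w, f w * kk 2 (t⁻¹ • (w - x)) := by
      rw [← mean_cov f x ht]
      refine (mean_eq hf ht.le fun z hz => h z ?_).symm
      rw [mem_ball] at hz ⊢
      linarith
    have hi : ∀ y : E n, Integrable fun w => f w * kk 2 (t⁻¹ • (w - y)) := by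
      intro y
      have h5 : HasCompactSupport fun w => kk 2 (t⁻¹ • (w - y)) := by
        apply HasCompactSupport.of_support_subset_isCompact (isCompact_closedBall y t)
        intro w hw
        by_contra h6
        apply hw
        apply kk_zero (by norm_num)
        rw [mem_closedBall, dist_eq_norm, not_le] at h6
        rw [norm_smul, Real.norm_of_nonneg (by positivity), inv_mul_eq_div,
          one_le_div (by positivity)]
        exact h6.le
      exact (hfc.mul ((kk_continuous 2).comp (by fun_prop))).integrable_of_hasCompactSupport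
        h5.mul_left
    have e3 : (f y - f x) * ck n
        = (t ^ n)⁻¹ * ∫ w, f w * (kk 2 (t⁻¹ • (w - y)) - kk 2 (t⁻¹ • (w - x))) := by
      rw [sub_mul, e1, e2, ← mul_sub, ← integral_sub (hi y) (hi x)]
      simp_rw [mul_sub]
    have h3 : |∫ w, f w * (kk 2 (t⁻¹ • (w - y)) - kk 2 (t⁻¹ • (w - x)))|
        ≤ (4 * t⁻¹ * ‖y - x‖) * A := by
      rw [hA, ← integral_const_mul, ← integral_indicator measurableSet_ball]
      rw [← Real.norm_eq_abs]
      refine norm_integral_le_of_norm_le
        ((integrable_indicator_iff measurableSet_ball).2 (hAi.const_mul _))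
        (Eventually.of_forall fun w => ?_)
      by_cases hw : w ∈ ball x (2 * t)
      · simp only [hw, indicator_of_mem]
        rw [norm_mul, Real.norm_of_nonneg (h0 w), mul_comm]
        refine mul_le_mul_of_nonneg_right ?_ (h0 w)
        rw [Real.norm_eq_abs]
        refine (kk_lip _ _).trans ?_
        rw [← smul_sub, norm_smul, Real.norm_of_nonneg (by positivity)]
        have : w - y - (w - x) = x - y := by abel
        rw [this, norm_sub_rev]
        linarith
      · simp only [hw, not_false_eq_true, indicator_of_notMem]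
        rw [mem_ball, not_lt] at hw
        have z1 : kk 2 (t⁻¹ • (w - y)) = 0 := by
          apply kk_zero (by norm_num)
          rw [norm_smul, Real.norm_of_nonneg (by positivity), inv_mul_eq_div,
            one_le_div (by positivity), ← dist_eq_norm]
          linarith [dist_triangle w y x]
        have z2 : kk 2 (t⁻¹ • (w - x)) = 0 := by
          apply kk_zero (by norm_num)
          rw [norm_smul, Real.norm_of_nonneg (by positivity), inv_mul_eq_div,
            one_le_div (by positivity), ← dist_eq_norm]
          linarith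
        rw [z1, z2]; simp
    have h4 : |f y - f x| * ck n ≤ (t ^ n)⁻¹ * ((4 * t⁻¹ * ‖y - x‖) * A) := by
      have e4 : |f y - f x| * ck n = |(f y - f x) * ck n| := by
        rw [abs_mul, abs_of_pos hc]
      rw [e4, e3, abs_mul, abs_of_pos (by positivity : (0 : ℝ) < (t ^ n)⁻¹)]
      exact mul_le_mul_of_nonneg_left h3 (by positivity)
    have h5 : A ≤ (16 / 9) * (4 * t) ^ n * (f x * ck n) := by
      have h6 : (9 / 16) * ((4 * t) ^ n)⁻¹ * A * ((16 / 9) * (4 * t) ^ n)
          ≤ (f x * ck n) * ((16 / 9) * (4 * t) ^ n) :=
        mul_le_mul_of_nonneg_right h1 (by positivity)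
      have h7 : (9 / 16) * ((4 * t) ^ n)⁻¹ * A * ((16 / 9) * (4 * t) ^ n) = A := by
        field_simp
      rw [h7] at h6
      linarith
    have h8 : |f y - f x| * ck n ≤ ((8 * 4 ^ n / t * f x) * ‖y - x‖) * ck n := by
      refine h4.trans ?_
      calc (t ^ n)⁻¹ * ((4 * t⁻¹ * ‖y - x‖) * A)
          ≤ (t ^ n)⁻¹ * ((4 * t⁻¹ * ‖y - x‖) * ((16 / 9) * (4 * t) ^ n * (f x * ck n))) := by
            gcongr
        _ = (64 / 9) * (4 ^ n / t * f x * ‖y - x‖ * ck n) := by
            rw [mul_pow]; field_simp; ring
        _ ≤ 8 * (4 ^ n / t * f x * ‖y - x‖ * ck n) := by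
            have : 0 ≤ 4 ^ n / t * f x * ‖y - x‖ * ck n := by
              have := h0 x; positivity
            linarith
        _ = ((8 * 4 ^ n / t * f x) * ‖y - x‖) * ck n := by ring
    rw [Real.norm_eq_abs]
    exact le_of_mul_le_mul_right h8 hc
  rw [norm_gradient]
  have hfx := h0 x
  apply norm_fderiv_le_of_lip' ℝ (by positivity)
  filter_upwards [ball_mem_nhds x ht] with y hy
  exact h2 y hy

end Pool.Agent.helper33.Insul
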