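import Mathlib
import Pool.Agent.helper33.Insul.Min

/-! Properties of the capacitary potential and of its mollifications. -/

set_option autoImplicit false
set_option linter.unusedSectionVars false
open MeasureTheory Metric Set Filter Topology
open scoped ENNReal ContDiff

namespace Pool.Agent.helper33.Insul

variable {n : ℕ}

/-- the capacitary potential of `K` relative to the ball -/
structure IsPot (K : Set (E n)) (P : (E n → ℝ) → (E n → E n) → Prop) (x₀ : E n) (R : ℝ)
    (u : E n → ℝ) (p : E n → E n) : Prop where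
  obst : Obst K P
  mem : P u p
  off : ∀ᵐ x, x ∉ ball x₀ R → u x = 0
  el : ∀ v G, P v G → (∀ᵐ x, x ∉ ball x₀ R → v x = 0) → nr p ^ 2 ≤ ∫ x, inner ℝ (p x) (G x)

variable {K : Set (E n)} {P : (E n → ℝ) → (E n → E n) → Prop} {x₀ : E n} {R : ℝ}
  {u : E n → ℝ} {p : E n → E n}

theorem IsPot.isH1 (h : IsPot K P x₀ R u p) : IsH1 u p := h.obst.isH1 h.mem

/-- comparison with a truncation -/
theorem IsPot.trunc (h : IsPot K P x₀ R u p) (hR : 0 < R) (hn : 0 < n) {F f : ℝ → ℝ}
    (hF : ∀ t, HasDerivAt F (f t) t) (hf : Continuous f) (hF0 : F 0 = 0)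
    (h0 : ∀ t, 0 ≤ f t) (h1 : ∀ t, f t ≤ 1) (h2 : ∀ t, 1 ≤ t → 1 ≤ F t) :
    ∀ᵐ x, F (u x) = u x := by
  have habs : ∀ t, |f t| ≤ 1 := fun t => by rw [abs_of_nonneg (h0 t)]; exact h1 t
  have hP := h.obst.comp h.mem hF hf hF0 habs h2
  have hoff : ∀ᵐ x, x ∉ ball x₀ R → F (u x) = 0 := by
    filter_upwards [h.off] with x hx hxb
    rw [hx hxb, hF0]
  have hel := h.el _ _ hP hoff
  have hm := h.isH1.memLp_grad
  have hm2 := (h.obst.isH1 hP).memLp_grad
  rw [nr_sq hm] at hel
  have e1 : ∀ x, inner ℝ (p x) (f (u x) • p x) = f (u x) * ‖p x‖ ^ 2 := by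
    intro x; rw [real_inner_smul_right, real_inner_self_eq_norm_sq]
  simp_rw [e1] at hel
  have i1 : Integrable fun x => ‖p x‖ ^ 2 := hm.integrable_norm_pow (by norm_num)
  have i2 : Integrable fun x => f (u x) * ‖p x‖ ^ 2 :=
    (integrable_inner hm hm2).congr (Eventually.of_forall e1)
  have h3 : ∫ x, (1 - f (u x)) * ‖p x‖ ^ 2 ≤ 0 := by
    have : ∫ x, (1 - f (u x)) * ‖p x‖ ^ 2 = (∫ x, ‖p x‖ ^ 2) - ∫ x, f (u x) * ‖p x‖ ^ 2 := by
      rw [← integral_sub i1 i2]; congr 1; ext x; ring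
    rw [this]; linarith
  have h4 : ∀ᵐ x, (1 - f (u x)) * ‖p x‖ ^ 2 = 0 := by
    have hnn : 0 ≤ᵐ[volume] fun x => (1 - f (u x)) * ‖p x‖ ^ 2 :=
      Eventually.of_forall fun x => mul_nonneg (sub_nonneg.2 (h1 _)) (by positivity)
    have hi : Integrable fun x => (1 - f (u x)) * ‖p x‖ ^ 2 := by
      refine (i1.sub i2).congr (Eventually.of_forall fun x => ?_)
      simp only [Pi.sub_apply]; ring
    exact (integral_eq_zero_iff_of_nonneg_ae hnn hi).1 (le_antisymm h3 (integral_nonneg_of_ae hnn))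
  have h5 := (h.isH1.sub (h.obst.isH1 hP)).poincare hR (x₀ := x₀) (by
    filter_upwards [h.off, hoff] with x h6 h7 hx
    rw [h7 hx, h6 hx, sub_zero]) hn
  have h6 : nr (fun x => p x - f (u x) • p x) = 0 := by
    have : (fun x => p x - f (u x) • p x) =ᵐ[volume] fun _ => (0 : E n) := by
      filter_upwards [h4] with x hx
      rcases mul_eq_zero.1 hx with h7 | h7
      · have : f (u x) = 1 := by linarith
        rw [this, one_smul, sub_self]
      · have : p x = 0 := by simpa using h7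
        rw [this]; simp
    rw [nr_congr this]
    simp [nr]
  rw [h6, mul_zero] at h5
  have h7 : nr (fun x => u x - F (u x)) = 0 := le_antisymm h5 (nr_nonneg _)
  have h8 : MemLp (fun x => u x - F (u x)) 2 volume := h.isH1.memLp.sub (h.obst.isH1 hP).memLp
  have h9 : eLpNorm (fun x => u x - F (u x)) 2 volume = 0 := by
    unfold nr at h7
    rcases (ENNReal.toReal_eq_zero_iff _).1 h7 with h | h
    · exact h
    · exact absurd h h8.2.ne
  have h10 := (eLpNorm_eq_zero_iff h8.aestronglyMeasurable (by norm_num)).1 h9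
  filter_upwards [h10] with x hx
  simp only [Pi.zero_apply] at hx
  linarith

theorem IsPot.le_one (h : IsPot K P x₀ R u p) (hR : 0 < R) (hn : 0 < n) : ∀ᵐ x, u x ≤ 1 := by
  have h1 := h.trunc hR hn (F := fun t => 1 + gT (t - 1)) (f := fun t => gT' (t - 1))
    (fun t => by
      have := (gT_hasDerivAt (t - 1)).comp t ((hasDerivAt_id t).sub_const 1)
      simpa using this.const_add 1)
    (gT'_continuous.comp (by fun_prop)) (by simp [gT]) (fun t => (gT'_pos _).le)
    (fun t => gT'_le_one _) (fun t ht => by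
      have := gT_nonneg (s := t - 1) (by linarith)
      linarith)
  filter_upwards [h1] with x hx
  have : gT (u x - 1) = u x - 1 := by linarith
  rw [gT_eq_iff] at this
  linarith

theorem IsPot.nonneg (h : IsPot K P x₀ R u p) (hR : 0 < R) (hn : 0 < n) : ∀ᵐ x, 0 ≤ u x := by
  have h1 := h.trunc hR hn (F := fun t => - gT (-t)) (f := fun t => gT' (-t))
    (fun t => by
      have h2 : HasDerivAt (fun t => - gT (-t)) (-(gT' (-t) * -1)) t :=
        ((gT_hasDerivAt (-t)).comp t (hasDerivAt_neg t)).neg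
      simpa using h2)
    (gT'_continuous.comp (by fun_prop)) (by simp [gT]) (fun t => (gT'_pos _).le)
    (fun t => gT'_le_one _) (fun t ht => by
      simp only [gT]
      rw [if_pos (by linarith)]; linarith)
  filter_upwards [h1] with x hx
  have : gT (-u x) = -u x := by linarith
  rw [gT_eq_iff] at this
  linarith

theorem IsPot.eq_one (h : IsPot K P x₀ R u p) (hR : 0 < R) (hn : 0 < n) :
    ∀ᵐ x, x ∈ K → u x = 1 := by
  filter_upwards [h.le_one hR hn, h.obst.ge h.mem] with x h1 h2 hx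
  exact le_antisymm h1 (h2 hx)

/-- `u` is superharmonic -/
theorem IsPot.super (h : IsPot K P x₀ R u p) {ψ : E n → ℝ} (hψ : ContDiff ℝ 1 ψ)
    (hs : HasCompactSupport ψ) (h0 : ∀ x ∈ K, 0 ≤ ψ x) (hoff : ∀ x, x ∉ ball x₀ R → ψ x = 0) :
    0 ≤ ∫ x, inner ℝ (p x) (gradient ψ x) := by
  have h1 := h.el _ _ (h.obst.add h.mem hψ hs h0) (by
    filter_upwards [h.off] with x hx hxb
    rw [hx hxb, hoff x hxb, add_zero])
  have hm := h.isH1.memLp_grad
  have hm2 : MemLp (gradient ψ) 2 volume := memLp_cc (continuous_gradient hψ) (gradient_cs hs)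
  simp_rw [inner_add_right] at h1
  rw [integral_add (integrable_inner hm hm) (integrable_inner hm hm2)] at h1
  have e1 : ∫ x, inner ℝ (p x) (p x) = nr p ^ 2 := by
    rw [nr_sq hm]; congr 1; ext x; rw [real_inner_self_eq_norm_sq]
  linarith

/-- `u` is harmonic off `K` -/
theorem IsPot.harm (h : IsPot K P x₀ R u p) {ψ : E n → ℝ} (hψ : ContDiff ℝ 1 ψ)
    (hs : HasCompactSupport ψ) (h0 : ∀ x ∈ K, ψ x = 0) (hoff : ∀ x, x ∉ ball x₀ R → ψ x = 0) :
    ∫ x, inner ℝ (p x) (gradient ψ x) = 0 := by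
  apply le_antisymm
  · have h1 := h.super (ψ := fun x => - ψ x) hψ.neg (hs.neg) (fun x hx => by rw [h0 x hx]; simp)
      (fun x hx => by rw [hoff x hx]; simp)
    have e1 : ∀ x, gradient (fun x => - ψ x) x = - gradient ψ x := by
      intro x
      apply (InnerProductSpace.toDual ℝ (E n)).injective
      rw [toDual_gradient, map_neg, toDual_gradient]
      exact fderiv_fun_neg
    simp_rw [e1, inner_neg_right] at h1
    rw [integral_neg] at h1
    linarith
  · exact h.super hψ hs (fun x hx => (h0 x hx).ge) hoff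

end Pool.Agent.helper33.Insul
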