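import Mathlib
import Pool.Agent.helper33.Insul.Pot
import Pool.Agent.helper33.Insul.Mean2

/-! Mollified potentials. -/

set_option autoImplicit false
set_option linter.unusedSectionVars false
open MeasureTheory Metric Set Filter Topology
open scoped ENNReal ContDiff

namespace Pool.Agent.helper33.Insul

variable {n : ℕ}

theorem fderiv_moll_apply {F : Type*} [NormedAddCommGroup F] [NormedSpace ℝ F] (j : ℕ)
    {f : E n → F} (hf : LocallyIntegrable f volume) (x e : E n) :
    fderiv ℝ (moll (ker n j) f) x e = ∫ y, fderiv ℝ (ker n j) (x - y) e • f y := by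
  have h1 := (ker_compact (n := n) j).hasFDerivAt_convolution_left
    (ContinuousLinearMap.lsmul ℝ ℝ : ℝ →L[ℝ] F →L[ℝ] F) (μ := volume)
    ((ker_contDiff j).of_le (by simp)) hf x
  have h2 : fderiv ℝ (moll (ker n j) f) x = _ := h1.fderiv
  rw [h2]
  have hint : Integrable fun t => ((ContinuousLinearMap.lsmul ℝ ℝ : ℝ →L[ℝ] F →L[ℝ] F).precompL
      (E n)) (fderiv ℝ (ker n j) t) (f (x - t)) := by
    have := ((ker_compact (n := n) j).fderiv ℝ).convolutionExists_left
      ((ContinuousLinearMap.lsmul ℝ ℝ : ℝ →L[ℝ] F →L[ℝ] F).precompL (E n)) (μ := volume)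
      ((ker_contDiff j).continuous_fderiv (by simp)) hf x
    exact this
  rw [MeasureTheory.convolution_def, ContinuousLinearMap.integral_apply hint]
  simp only [ContinuousLinearMap.precompL_apply, ContinuousLinearMap.lsmul_apply]
  rw [← integral_sub_left_eq_self (fun y => fderiv ℝ (ker n j) (x - y) e • f y) volume x]
  simp

theorem IsH1.gradient_moll {φ : E n → ℝ} {G : E n → E n} (h : IsH1 φ G) (j : ℕ) :
    gradient (moll (ker n j) φ) = moll (ker n j) G := by
  ext1 x
  refine ext_inner_right ℝ fun e => ?_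
  rw [gradient_inner, h.hasFDerivAt_moll]

theorem gradient_ker_shift (j : ℕ) (x y : E n) :
    gradient (fun y => ker n j (x - y)) y = - gradient (ker n j) (x - y) := by
  refine ext_inner_right ℝ fun e => ?_
  rw [gradient_inner, inner_neg_left, gradient_inner]
  have h5 : HasFDerivAt (fun y : E n => x - y) (-(ContinuousLinearMap.id ℝ (E n))) y := by
    simpa using (hasFDerivAt_id y).const_sub x
  have h6 := (((ker_contDiff (n := n) j).differentiable (by simp)) (x - y)).hasFDerivAt.comp y h5
  rw [show (fun y => ker n j (x - y)) = (ker n j ∘ fun y => x - y) from rfl, h6.fderiv]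
  simp

theorem vdiv_moll (j : ℕ) {G : E n → E n} (hG : MemLp G 2 volume) (x : E n) :
    vdiv (moll (ker n j) G) x = - ∫ y, inner ℝ (G y) (gradient (fun y => ker n j (x - y)) y) := by
  have hl : LocallyIntegrable G volume := hG.locallyIntegrable (by norm_num)
  have hint : ∀ e : E n, Integrable fun y => fderiv ℝ (ker n j) (x - y) e • G y := by
    intro e
    obtain ⟨c, s⟩ := fderiv_cc ((ker_contDiff (n := n) j).of_le (by simp : (1 : WithTop ℕ∞) ≤ _))
      (ker_compact j) e
    exact hl.integrable_smul_left_of_hasCompactSupport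
      (g := fun y => fderiv ℝ (ker n j) (x - y) e)
      (c.comp (continuous_const.sub continuous_id)) (s.comp_homeomorph (Homeomorph.subLeft x))
  unfold vdiv
  have e1 : ∀ i : Fin n, (fderiv ℝ (moll (ker n j) G) x (EuclideanSpace.single i 1)) i
      = ∫ y, fderiv ℝ (ker n j) (x - y) (EuclideanSpace.single i 1) * G y i := by
    intro i
    rw [fderiv_moll_apply j hl]
    have := (EuclideanSpace.proj i : E n →L[ℝ] ℝ).integral_comp_comm
      (hint (EuclideanSpace.single i 1))
    exact this.symm
  simp_rw [e1]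
  rw [← integral_finsetSum, ← integral_neg]
  · congr 1; ext y
    rw [gradient_ker_shift, inner_neg_right, neg_neg, real_inner_comm, inner_eq_sum]
    refine Finset.sum_congr rfl fun i _ => ?_
    rw [gradient_inner]
  · intro i _
    have := (EuclideanSpace.proj i : E n →L[ℝ] ℝ).integrable_comp
      (hint (EuclideanSpace.single i 1))
    exact this

theorem ker_zero (j : ℕ) {x : E n} (hx : x ∉ ball (0 : E n) (1 / ((j : ℝ) + 1))) :
    ker n j x = 0 := by
  by_contra h
  exact hx (ker_support (n := n) j ▸ h)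

variable {K : Set (E n)} {P : (E n → ℝ) → (E n → E n) → Prop} {x₀ : E n} {R : ℝ}
  {u : E n → ℝ} {p : E n → E n}

theorem IsPot.lap_le (h : IsPot K P x₀ R u p) (j : ℕ) {x : E n}
    (hx : ball x (1 / ((j : ℝ) + 1)) ⊆ ball x₀ R) : lap (moll (ker n j) u) x ≤ 0 := by
  unfold lap
  rw [h.isH1.gradient_moll, vdiv_moll j h.isH1.memLp_grad]
  have := h.super (ψ := fun y => ker n j (x - y)) ((ker_shift_contDiff j x).of_le (by simp))
    (ker_shift_compact j x) (fun y _ => ker_nonneg j _) (fun y hy => by
      apply ker_zero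
      intro h1
      apply hy; apply hx
      rw [mem_ball, dist_comm, dist_eq_norm]
      exact mem_ball_zero_iff.1 h1)
  linarith

theorem IsPot.lap_eq (h : IsPot K P x₀ R u p) (j : ℕ) {x : E n}
    (hx : ball x (1 / ((j : ℝ) + 1)) ⊆ ball x₀ R)
    (hK : ∀ y ∈ K, y ∉ ball x (1 / ((j : ℝ) + 1))) : lap (moll (ker n j) u) x = 0 := by
  unfold lap
  rw [h.isH1.gradient_moll, vdiv_moll j h.isH1.memLp_grad]
  have := h.harm (ψ := fun y => ker n j (x - y)) ((ker_shift_contDiff j x).of_le (by simp))
    (ker_shift_compact j x) (fun y hy => by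
      apply ker_zero
      intro h1
      apply hK y hy
      rw [mem_ball, dist_comm, dist_eq_norm]
      exact mem_ball_zero_iff.1 h1) (fun y hy => by
      apply ker_zero
      intro h1
      apply hy; apply hx
      rw [mem_ball, dist_comm, dist_eq_norm]
      exact mem_ball_zero_iff.1 h1)
  rw [this, neg_zero]

theorem moll_nonneg (j : ℕ) {u : E n → ℝ} (hu : ∀ᵐ x, 0 ≤ u x) (x : E n) :
    0 ≤ moll (ker n j) u x := by
  rw [moll_apply']
  apply integral_nonneg_of_ae
  filter_upwards [hu] with y hy
  exact mul_nonneg (ker_nonneg j _) hy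

theorem moll_le_one (j : ℕ) {u : E n → ℝ} (hul : LocallyIntegrable u volume)
    (hu : ∀ᵐ x, u x ≤ 1) (x : E n) : moll (ker n j) u x ≤ 1 := by
  rw [moll_apply']
  have h1 : ∫ y, ker n j (x - y) = 1 := by
    rw [integral_sub_left_eq_self (fun y => ker n j y) volume x, ker_integral]
  rw [← h1]
  refine integral_mono_ae (moll_integrable j hul x)
    ((ker_shift_continuous j x).integrable_of_hasCompactSupport (ker_shift_compact j x)) ?_
  filter_upwards [hu] with y hy
  rw [smul_eq_mul]
  exact mul_le_of_le_one_right (ker_nonneg j _) hy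

theorem moll_zero_off (j : ℕ) {u : E n → ℝ} (hu : ∀ᵐ x, x ∉ ball x₀ R → u x = 0) {x : E n}
    (hx : R + 1 / ((j : ℝ) + 1) ≤ dist x x₀) : moll (ker n j) u x = 0 := by
  rw [moll_apply']
  have : (fun y => ker n j (x - y) • u y) =ᵐ[volume] fun _ => 0 := by
    filter_upwards [hu] with y hy
    by_cases h1 : y ∈ ball x₀ R
    · have h2 : ker n j (x - y) = 0 := by
        apply ker_zero
        rw [mem_ball_zero_iff, ← dist_eq_norm, not_lt]
        rw [mem_ball] at h1
        linarith [dist_triangle x y x₀]
      rw [h2, zero_smul]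
    · rw [hy h1, smul_zero]
  rw [integral_congr_ae this, integral_zero]

theorem moll_cs (j : ℕ) {u : E n → ℝ} (hu : ∀ᵐ x, x ∉ ball x₀ R → u x = 0) :
    HasCompactSupport (moll (ker n j) u) := by
  apply HasCompactSupport.of_support_subset_isCompact
    (isCompact_closedBall x₀ (R + 1 / ((j : ℝ) + 1)))
  intro x hx
  rw [mem_closedBall]
  by_contra h
  exact hx (moll_zero_off j hu (not_le.1 h).le)

/-- lower bound -/
theorem IsPot.lower (h : IsPot K P x₀ R u p) (hR : 0 < R) (hn : 0 < n) (hK : IsCompact K) (j : ℕ)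
    {x : E n} {r : ℝ} (hr : 0 < r)
    (h1 : ∀ y ∈ K, dist y x + 1 / ((j : ℝ) + 1) ≤ r / 2)
    (h2 : dist x x₀ + r + 1 / ((j : ℝ) + 1) ≤ R) :
    (9 / 16) * (r ^ n)⁻¹ * (volume K).toReal / ck n ≤ moll (ker n j) u x := by
  have hj : (0 : ℝ) < 1 / ((j : ℝ) + 1) := by positivity
  have hc := ck_pos n
  have hul := h.isH1.loc
  have hnn := h.nonneg hR hn
  set U := moll (ker n j) u with hU
  have hUs : ContDiff ℝ 2 U := by exact_mod_cast (contDiff_infty.1 (h.isH1.moll_smooth j)) 2
  have hUc := hUs.continuous
  have hU0 : ∀ y, 0 ≤ U y := moll_nonneg j hnn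
  have hm := mean_le hUs hr.le (x := x) (fun y hy => by
    apply h.lap_le j
    intro z hz
    rw [mem_ball] at hy hz ⊢
    linarith [dist_triangle z y x₀, dist_triangle y x x₀])
  rw [mean_cov U x hr] at hm
  rw [div_le_iff₀ hc]
  refine le_trans ?_ hm
  -- the indicator of K
  set f : E n → ℝ := K.indicator fun _ => (1 : ℝ) with hf
  have hfi : Integrable f := (integrable_indicator_iff hK.measurableSet).2
    (integrableOn_const hK.measure_lt_top.ne)
  have hfint : ∫ y, f y = (volume K).toReal := by
    rw [hf, integral_indicator hK.measurableSet]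
    simp [Measure.real]
  have hint2 : ∫ w, moll (ker n j) f w = (volume K).toReal := by
    have h3 := integral_convolution (ContinuousLinearMap.lsmul ℝ ℝ : ℝ →L[ℝ] ℝ →L[ℝ] ℝ)
      (μ := (volume : Measure (E n))) (ν := (volume : Measure (E n))) (ker_integrable j) hfi
    have h4 : ∫ w, moll (ker n j) f w
        = (ContinuousLinearMap.lsmul ℝ ℝ : ℝ →L[ℝ] ℝ →L[ℝ] ℝ) (∫ x, ker n j x) (∫ x, f x) := h3
    rw [h4, ker_integral, hfint]; simp
  have hle : ∀ w, moll (ker n j) f w ≤ U w := by
    intro w
    rw [hU, moll_apply', moll_apply']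
    refine integral_mono_ae (moll_integrable j hfi.locallyIntegrable w) (moll_integrable j hul w) ?_
    filter_upwards [hnn, h.eq_one hR hn] with y h3 h4
    refine mul_le_mul_of_nonneg_left ?_ (ker_nonneg j _)
    by_cases hy : y ∈ K
    · rw [hf, indicator_of_mem hy, h4 hy]
    · rw [hf, indicator_of_notMem hy]; exact h3
  have hfcs : HasCompactSupport fun w => kk 2 (r⁻¹ • (w - x)) := by
    apply HasCompactSupport.of_support_subset_isCompact (isCompact_closedBall x r)
    intro w hw
    by_contra h6
    apply hw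
    apply kk_zero (by norm_num)
    rw [mem_closedBall, dist_eq_norm, not_le] at h6
    rw [norm_smul, Real.norm_of_nonneg (by positivity), inv_mul_eq_div,
      one_le_div (by positivity)]
    exact h6.le
  have hmi : Integrable (moll (ker n j) f) :=
    (ker_integrable j).integrable_convolution _ hfi
  have hUi : Integrable fun w => U w * kk 2 (r⁻¹ • (w - x)) :=
    (hUc.mul ((kk_continuous 2).comp (by fun_prop))).integrable_of_hasCompactSupport hfcs.mul_left
  have key : (9 / 16) * ∫ w, moll (ker n j) f w ≤ ∫ w, U w * kk 2 (r⁻¹ • (w - x)) := by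
    rw [← integral_const_mul]
    refine integral_mono (hmi.const_mul _) hUi fun w => ?_
    simp only
    by_cases hw : dist w x ≤ r / 2
    · have h5 := kk_ge (n := n) 2 (z := r⁻¹ • (w - x)) (by
        rw [norm_smul, Real.norm_of_nonneg (by positivity), inv_mul_eq_div,
          div_le_iff₀ (by positivity), ← dist_eq_norm]
        linarith)
      have h6 := hle w
      have h7 := hU0 w
      have h8 : (9 / 16 : ℝ) = (3 / 4) ^ 2 := by norm_num
      rw [h8]
      calc (3 / 4 : ℝ) ^ 2 * moll (ker n j) f w ≤ (3 / 4 : ℝ) ^ 2 * U w := by gcongr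
        _ ≤ kk 2 (r⁻¹ • (w - x)) * U w := by gcongr
        _ = _ := mul_comm _ _
    · have h5 : moll (ker n j) f w = 0 := by
        rw [moll_apply']
        have : (fun y => ker n j (w - y) • f y) = fun _ => 0 := by
          ext y
          by_cases hy : y ∈ K
          · have h6 : ker n j (w - y) = 0 := by
              apply ker_zero
              rw [mem_ball_zero_iff, ← dist_eq_norm, not_lt]
              have := h1 y hy
              linarith [dist_triangle w y x]
            rw [h6, zero_smul]
          · rw [hf, indicator_of_notMem hy, smul_zero]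
        rw [this, integral_zero]
      rw [h5, mul_zero]
      exact mul_nonneg (hU0 w) (kk_nonneg _ _)
  rw [hint2] at key
  calc 9 / 16 * (r ^ n)⁻¹ * (volume K).toReal = (r ^ n)⁻¹ * (9 / 16 * (volume K).toReal) := by ring
    _ ≤ _ := mul_le_mul_of_nonneg_left key (by positivity)

/-- gradient bound away from `K` -/
theorem IsPot.grad_bound (h : IsPot K P x₀ R u p) (hR : 0 < R) (hn : 0 < n) (j : ℕ)
    {x : E n} {t : ℝ} (ht : 0 < t)
    (h1 : ∀ y ∈ K, 4 * t + 1 / ((j : ℝ) + 1) ≤ dist y x)
    (h2 : dist x x₀ + 4 * t + 1 / ((j : ℝ) + 1) ≤ R) :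
    ‖moll (ker n j) p x‖ ≤ 8 * 4 ^ n / t * moll (ker n j) u x := by
  have hUs : ContDiff ℝ 2 (moll (ker n j) u) :=
    by exact_mod_cast (contDiff_infty.1 (h.isH1.moll_smooth j)) 2
  have := grad_le hUs (moll_nonneg j (h.nonneg hR hn)) (x := x) ht (fun y hy => by
    apply h.lap_eq j
    · intro z hz
      rw [mem_ball] at hy hz ⊢
      linarith [dist_triangle z y x₀, dist_triangle y x x₀]
    · intro z hz hzy
      rw [mem_ball] at hy hzy
      have := h1 z hz
      linarith [dist_triangle z y x])
  rw [h.isH1.gradient_moll] at this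
  exact this

end Pool.Agent.helper33.Insul
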