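import Mathlib
import Pool.Agent.helper33.Insul.PotMoll

/-! The lower bound for the insulation energy. -/

set_option autoImplicit false
set_option linter.unusedSectionVars false
open MeasureTheory Metric Set Filter Topology
open scoped ENNReal ContDiff

namespace Pool.Agent.helper33.Insul

variable {n : ℕ}

theorem div_contDiff {ζ w : E n → ℝ} {k : WithTop ℕ∞} (hζ : ContDiff ℝ k ζ) (hw : ContDiff ℝ k w)
    (h : ∀ x ∈ tsupport ζ, w x ≠ 0) : ContDiff ℝ k (fun x => ζ x / w x) := by
  rw [contDiff_iff_contDiffAt]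
  intro x
  by_cases hx : x ∈ tsupport ζ
  · exact hζ.contDiffAt.div hw.contDiffAt (h x hx)
  · have h1 : ζ =ᶠ[𝓝 x] 0 := notMem_tsupport_iff_eventuallyEq.1 hx
    have h2 : (fun x => ζ x / w x) =ᶠ[𝓝 x] fun _ => 0 := by
      filter_upwards [h1] with y hy
      rw [hy]; simp
    exact contDiffAt_const.congr_of_eventuallyEq h2

theorem div_cs {ζ w : E n → ℝ} (hζ : HasCompactSupport ζ) :
    HasCompactSupport (fun x => ζ x / w x) := by
  simp_rw [div_eq_mul_inv]
  exact hζ.mul_right

/-- the weak formulation with vector fields -/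
theorem IsH1.weak_vec {φ : E n → ℝ} {G : E n → E n} (h1 : IsH1 φ G)
    {X : E n → E n} (hX : ContDiff ℝ 1 X) (hs : HasCompactSupport X) :
    ∫ x, φ x * vdiv X x = - ∫ x, inner ℝ (G x) (X x) := by
  have key : ∀ i : Fin n, ∫ x, φ x * (fderiv ℝ X x (EuclideanSpace.single i 1)) i
      = - ∫ x, inner ℝ (G x) (EuclideanSpace.single i (1 : ℝ)) * X x i := by
    intro i
    rw [← h1.weak1 (comp_contDiff hX i) (comp_cs hs i)]
    simp_rw [fderiv_comp_apply (hX.differentiable (by simp) _)]
  have e1 : ∀ x, φ x * vdiv X x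
      = ∑ i, φ x * (fderiv ℝ X x (EuclideanSpace.single i 1)) i := by
    intro x; rw [vdiv, Finset.mul_sum]
  have e2 : ∀ x, (inner ℝ (G x) (X x) : ℝ)
      = ∑ i, inner ℝ (G x) (EuclideanSpace.single i (1 : ℝ)) * X x i := fun x => inner_eq_sum _ _
  rw [integral_congr_ae (Eventually.of_forall e1), integral_congr_ae (Eventually.of_forall e2)]
  rw [integral_finsetSum, integral_finsetSum, ← Finset.sum_neg_distrib]
  · exact Finset.sum_congr rfl fun i _ => key i
  · intro i _
    exact integrable_mul_cc (memLp_inner_const h1.memLp_grad _) (comp_contDiff hX i).continuous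
      (comp_cs hs i)
  · intro i _
    have := fderiv_cc (comp_contDiff hX i) (comp_cs hs i) (EuclideanSpace.single i 1)
    simp_rw [fderiv_comp_apply (hX.differentiable (by simp) _)] at this
    exact integrable_mul_cc h1.memLp this.1 this.2

/-- the integrand `div(φ² X)` -/
noncomputable def divsq (φ : E n → ℝ) (G : E n → E n) (X : E n → E n) (x : E n) : ℝ :=
  φ x ^ 2 * vdiv X x + 2 * φ x * inner ℝ (G x) (X x)

theorem divsq_integrable {φ : E n → ℝ} {G : E n → E n} (h : IsH1 φ G) {X : E n → E n}
    (hX : ContDiff ℝ 1 X) (hs : HasCompactSupport X) : Integrable (divsq φ G X) := by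
  have hd := vdiv_continuous hX
  obtain ⟨C, hC⟩ := hd.bounded_above_of_compact_support (vdiv_cs hs)
  obtain ⟨D, hD⟩ := hX.continuous.bounded_above_of_compact_support hs
  refine Integrable.add ?_ ?_
  · have h1 : MemLp (fun x => vdiv X x * φ x) 2 volume :=
      memLp_bdd_smul (C := C) hd.aestronglyMeasurable (Eventually.of_forall hC) h.memLp
    refine (h.memLp.integrable_mul h1).congr (Eventually.of_forall fun x => ?_)
    simp only [Pi.mul_apply]; ring
  · have h1 : MemLp (fun x => inner ℝ (G x) (X x)) 2 volume := by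
      refine h.memLp_grad.of_le_mul (c := D)
        (h.memLp_grad.aestronglyMeasurable.inner hX.continuous.aestronglyMeasurable)
        (Eventually.of_forall fun x => ?_)
      rw [mul_comm]
      exact (norm_inner_le_norm _ _).trans (mul_le_mul_of_nonneg_left (hD x) (norm_nonneg _))
    refine ((h.memLp.integrable_mul h1).const_mul 2).congr (Eventually.of_forall fun x => ?_)
    simp only [Pi.mul_apply]; ring

theorem integral_divsq {φ : E n → ℝ} {G : E n → E n} (h : IsH1 φ G) {X : E n → E n}
    (hX : ContDiff ℝ 1 X) (hs : HasCompactSupport X) : ∫ x, divsq φ G X x = 0 := by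
  have h1 := h.mul_vec h hX hs
  have hd := vdiv_continuous hX
  obtain ⟨C, hC⟩ := hd.bounded_above_of_compact_support (vdiv_cs hs)
  obtain ⟨D, hD⟩ := hX.continuous.bounded_above_of_compact_support hs
  have i1 : Integrable fun x => φ x * φ x * vdiv X x := by
    have h1 : MemLp (fun x => vdiv X x * φ x) 2 volume :=
      memLp_bdd_smul (C := C) hd.aestronglyMeasurable (Eventually.of_forall hC) h.memLp
    refine (h.memLp.integrable_mul h1).congr (Eventually.of_forall fun x => ?_)
    simp only [Pi.mul_apply]; ring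
  have i2 : Integrable fun x => φ x * inner ℝ (G x) (X x) + φ x * inner ℝ (G x) (X x) := by
    refine ((divsq_integrable h hX hs).sub i1).congr (Eventually.of_forall fun x => ?_)
    simp only [Pi.sub_apply, divsq]; ring
  have e : ∫ x, divsq φ G X x = (∫ x, φ x * φ x * vdiv X x)
      + ∫ x, (φ x * inner ℝ (G x) (X x) + φ x * inner ℝ (G x) (X x)) := by
    rw [← integral_add i1 i2]
    congr 1; ext x; simp only [divsq]; ring
  rw [e, h1]; ring

theorem divsq_zero {φ : E n → ℝ} {G : E n → E n} {X : E n → E n} {x : E n}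
    (hx : x ∉ tsupport X) : divsq φ G X x = 0 := by
  have h1 : X =ᶠ[𝓝 x] 0 := notMem_tsupport_iff_eventuallyEq.1 hx
  have h2 : vdiv X x = 0 := by
    unfold vdiv
    rw [h1.fderiv_eq]
    simp
  have h3 : X x = 0 := h1.eq_of_nhds
  simp [divsq, h2, h3]

theorem surf_ge {Ω : Set (E n)} {φ : E n → ℝ} {G : E n → E n} {X : E n → E n}
    (hX : ContDiff ℝ 1 X) (hs : HasCompactSupport X) (h1 : ∀ x, ‖X x‖ ≤ 1) :
    ENNReal.ofReal (∫ x in Ω, divsq φ G X x) ≤ surf Ω φ G := by
  unfold surf
  exact le_iSup₂_of_le X ⟨hX, hs, h1⟩ le_rfl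

theorem divsq_neg_smul {φ : E n → ℝ} {G : E n → E n} {X : E n → E n} (c : ℝ) {x : E n}
    (hX : DifferentiableAt ℝ X x) :
    divsq φ G (fun y => c • X y) x = c * divsq φ G X x := by
  have h1 : vdiv (fun y => c • X y) x = c * vdiv X x := by
    unfold vdiv
    rw [fderiv_fun_const_smul hX, Finset.mul_sum]
    refine Finset.sum_congr rfl fun i _ => by simp
  simp only [divsq, h1, real_inner_smul_right]; ring

end Pool.Agent.helper33.Insul
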