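import Mathlib
import Pool.Agent.helper33.Insul.Lower

/-! The lower bound for the insulation energy: Picone's inequality. -/

set_option autoImplicit false
set_option linter.unusedSectionVars false
open MeasureTheory Metric Set Filter Topology
open scoped ENNReal ContDiff

namespace Pool.Agent.helper33.Insul

variable {n : ℕ}

theorem hasFDerivAt_one_div {w : E n → ℝ} {x : E n} (hw : DifferentiableAt ℝ w x)
    (h0 : w x ≠ 0) : HasFDerivAt (fun y => 1 / w y) (-(w x ^ 2)⁻¹ • fderiv ℝ w x) x := by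
  have h1 := (hasDerivAt_inv h0).comp_hasFDerivAt x hw.hasFDerivAt
  simpa [Function.comp_def, one_div] using h1

theorem gradient_inv {w : E n → ℝ} {x : E n} (hw : DifferentiableAt ℝ w x) (h0 : w x ≠ 0) :
    gradient (fun y => 1 / w y) x = (-(1 / w x ^ 2)) • gradient w x := by
  refine ext_inner_right ℝ fun e => ?_
  rw [gradient_inner, real_inner_smul_left, gradient_inner, (hasFDerivAt_one_div hw h0).fderiv]
  simp

theorem gradient_sub_const (U : E n → ℝ) (c : ℝ) (x : E n) :
    gradient (fun y => U y - c) x = gradient U x := by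
  refine ext_inner_right ℝ fun e => ?_
  rw [gradient_inner, gradient_inner, fderiv_sub_const]

/-- Picone's inequality with the boundary term -/
theorem picone {Ω : Set (E n)} (hΩ : IsOpen Ω) {φ : E n → ℝ} {G : E n → E n} (h : IsH1 φ G)
    {U ζ χ f : E n → ℝ} {c β : ℝ} (hβ : 0 < β) (hU : ContDiff ℝ 2 U)
    (hζ : ContDiff ℝ 1 ζ) (hζs : HasCompactSupport ζ) (hχ : ContDiff ℝ 1 χ)
    (hχs : HasCompactSupport χ) (c1 : ∀ x ∈ tsupport ζ, U x - c ≠ 0)
    (c2 : ∀ x ∈ tsupport χ, U x - c ≠ 0) (c3 : ∀ x ∈ Ω, χ x = 1) (c3' : ∀ x ∈ Ω, 0 < U x - c)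
    (c4 : tsupport ζ ⊆ Ω)
    (c5 : ∀ x, ‖(((1 - ζ x) * χ x) / (U x - c)) • gradient U x‖ ≤ β)
    (hs : surf Ω φ G ≠ ⊤) (hf : IntegrableOn f Ω)
    (hfle : ∀ᵐ x ∂volume, x ∈ Ω → f x ≤ φ x ^ 2 * (-(lap U x) / (U x - c))) :
    ∫ x in Ω, f x ≤ (∫ x in Ω, ‖G x‖ ^ 2) + β * (surf Ω φ G).toReal := by
  have hg : ContDiff ℝ 1 (gradient U) := contDiff_gradient hU (by norm_num)
  have hU1 : ContDiff ℝ 1 U := hU.of_le (by norm_num)
  have hw : ContDiff ℝ 1 (fun x => U x - c) := hU1.sub contDiff_const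
  set a₁ : E n → ℝ := fun x => ζ x / (U x - c) with ha₁
  set a₂ : E n → ℝ := fun x => ((1 - ζ x) * χ x) / (U x - c) with ha₂
  have ha₁c : ContDiff ℝ 1 a₁ := div_contDiff hζ hw c1
  have ha₁s : HasCompactSupport a₁ := div_cs hζs
  have hb : ContDiff ℝ 1 (fun x => (1 - ζ x) * χ x) := (contDiff_const.sub hζ).mul hχ
  have hbs : HasCompactSupport (fun x => (1 - ζ x) * χ x) := hχs.mul_left
  have hbt : tsupport (fun x => (1 - ζ x) * χ x) ⊆ tsupport χ := by
    apply closure_mono
    intro x hx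
    exact right_ne_zero_of_mul hx
  have ha₂c : ContDiff ℝ 1 a₂ := div_contDiff hb hw fun x hx => c2 x (hbt hx)
  have ha₂s : HasCompactSupport a₂ := div_cs hbs
  set Z₁ : E n → E n := fun x => a₁ x • gradient U x with hZ₁
  set Z₂ : E n → E n := fun x => a₂ x • gradient U x with hZ₂
  have hZ₁c : ContDiff ℝ 1 Z₁ := ha₁c.smul hg
  have hZ₁s : HasCompactSupport Z₁ := ha₁s.smul_right
  have hZ₂c : ContDiff ℝ 1 Z₂ := ha₂c.smul hg
  have hZ₂s : HasCompactSupport Z₂ := ha₂s.smul_right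
  have hi1 := divsq_integrable h hZ₁c hZ₁s
  have hi2 := divsq_integrable h hZ₂c hZ₂s
  have hG2 : Integrable fun x => ‖G x‖ ^ 2 := h.memLp_grad.integrable_norm_pow (by norm_num)
  -- first field
  have I1 : ∫ x in Ω, divsq φ G Z₁ x = 0 := by
    rw [setIntegral_eq_integral_of_forall_compl_eq_zero, integral_divsq h hZ₁c hZ₁s]
    intro x hx
    apply divsq_zero
    intro hx2
    apply hx; apply c4
    refine closure_mono ?_ hx2
    intro y hy h0
    apply hy
    simp [hZ₁, ha₁, h0]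
  -- second field
  have I2 : - (β * (surf Ω φ G).toReal) ≤ ∫ x in Ω, divsq φ G Z₂ x := by
    have h1 := surf_ge (Ω := Ω) (φ := φ) (G := G) (X := fun x => (-(1 / β)) • Z₂ x)
      (hZ₂c.const_smul _) (hZ₂s.comp_left (g := fun v => (-(1 / β)) • v) (by simp)) (fun x => by
        rw [norm_smul, norm_neg, Real.norm_of_nonneg (by positivity)]
        rw [div_mul_eq_mul_div, one_mul, div_le_one hβ]
        exact c5 x)
    have h2 : ∀ x, divsq φ G (fun x => (-(1 / β)) • Z₂ x) x = -(1 / β) * divsq φ G Z₂ x :=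
      fun x => divsq_neg_smul _ ((hZ₂c.differentiable (by simp)) x)
    simp_rw [h2] at h1
    rw [integral_const_mul, ENNReal.ofReal_le_iff_le_toReal hs] at h1
    have h3 := mul_le_mul_of_nonneg_left h1 hβ.le
    have h4 : β * (-(1 / β) * ∫ x in Ω, divsq φ G Z₂ x) = - ∫ x in Ω, divsq φ G Z₂ x := by
      field_simp
    rw [h4] at h3
    linarith
  -- pointwise
  have hpt : ∀ x ∈ Ω, φ x ^ 2 * (-(lap U x) / (U x - c)) + (divsq φ G Z₁ x + divsq φ G Z₂ x)
      ≤ ‖G x‖ ^ 2 := by
    intro x hx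
    have hw0 := (c3' x hx).ne'
    have hsum : a₁ x + a₂ x = 1 / (U x - c) := by
      simp only [ha₁, ha₂, c3 x hx]; rw [← add_div]; congr 1; ring
    have hdd : vdiv Z₁ x + vdiv Z₂ x
        = lap U x / (U x - c) - ‖gradient U x‖ ^ 2 / (U x - c) ^ 2 := by
      rw [← vdiv_add ((hZ₁c.differentiable (by simp)) x) ((hZ₂c.differentiable (by simp)) x)]
      have e1 : (fun y => Z₁ y + Z₂ y) =ᶠ[𝓝 x] fun y => (1 / (U y - c)) • gradient U y := by
        filter_upwards [hΩ.mem_nhds hx] with y hy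
        simp only [hZ₁, hZ₂]
        rw [← add_smul]
        congr 1
        simp only [ha₁, ha₂, c3 y hy]; rw [← add_div]; congr 1; ring
      rw [vdiv_congr e1]
      have hwd : DifferentiableAt ℝ (fun y => U y - c) x := (hw.differentiable (by simp)) x
      have hd : DifferentiableAt ℝ (fun y => 1 / (U y - c)) x :=
        (hasFDerivAt_one_div hwd hw0).differentiableAt
      rw [vdiv_smul hd ((hg.differentiable (by simp)) x),
        gradient_inv ((hw.differentiable (by simp)) x) hw0, gradient_sub_const,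
        real_inner_smul_left, real_inner_self_eq_norm_sq]
      unfold lap
      ring
    have hdv : divsq φ G Z₁ x + divsq φ G Z₂ x
        = φ x ^ 2 * (lap U x / (U x - c) - ‖gradient U x‖ ^ 2 / (U x - c) ^ 2)
          + 2 * φ x * (1 / (U x - c) * inner ℝ (G x) (gradient U x)) := by
      rw [← hdd, ← hsum]
      simp only [divsq, hZ₁, hZ₂, real_inner_smul_right]
      ring
    rw [hdv]
    have hsq : 0 ≤ ‖G x - (φ x / (U x - c)) • gradient U x‖ ^ 2 := by positivity
    rw [norm_sub_sq_real, real_inner_smul_right, norm_smul, mul_pow, Real.norm_eq_abs,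
      sq_abs] at hsq
    have e2 : φ x ^ 2 * (-(lap U x) / (U x - c))
        + (φ x ^ 2 * (lap U x / (U x - c) - ‖gradient U x‖ ^ 2 / (U x - c) ^ 2)
          + 2 * φ x * (1 / (U x - c) * inner ℝ (G x) (gradient U x)))
        = 2 * (φ x / (U x - c) * inner ℝ (G x) (gradient U x))
          - (φ x / (U x - c)) ^ 2 * ‖gradient U x‖ ^ 2 := by
      field_simp
      ring
    rw [e2]
    linarith
  have h5 : ∫ x in Ω, (f x + (divsq φ G Z₁ x + divsq φ G Z₂ x)) ≤ ∫ x in Ω, ‖G x‖ ^ 2 := by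
    refine integral_mono_ae (hf.add (hi1.integrableOn.add hi2.integrableOn)) hG2.integrableOn ?_
    rw [EventuallyLE, ae_restrict_iff' hΩ.measurableSet]
    filter_upwards [hfle] with x hx hxΩ
    have := hpt x hxΩ
    have := hx hxΩ
    linarith
  have h6 : ∫ x in Ω, (f x + (divsq φ G Z₁ x + divsq φ G Z₂ x))
      = (∫ x in Ω, f x) + ((∫ x in Ω, divsq φ G Z₁ x) + ∫ x in Ω, divsq φ G Z₂ x) := by
    rw [← integral_add hi1.integrableOn hi2.integrableOn, ← integral_add hf]
    exact hi1.integrableOn.add hi2.integrableOn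
  rw [h6, I1] at h5
  linarith

end Pool.Agent.helper33.Insul
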