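import Mathlib
import Pool.Agent.helper33.Insul.Lower2

/-! The lower bound for the insulation energy. -/

set_option autoImplicit false
set_option linter.unusedSectionVars false
open MeasureTheory Metric Set Filter Topology
open scoped ENNReal ContDiff

namespace Pool.Agent.helper33.Insul

variable {n : ℕ}

/-! ### the bounded truncation -/

noncomputable def Ftr (t : ℝ) : ℝ := 1 + gT (-gT (-t) - 1)
noncomputable def ftr (t : ℝ) : ℝ := gT' (-gT (-t) - 1) * gT' (-t)

theorem gT_continuous : Continuous gT :=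
  continuous_iff_continuousAt.2 fun t => (gT_hasDerivAt t).continuousAt

theorem Ftr_hasDerivAt (t : ℝ) : HasDerivAt Ftr (ftr t) t := by
  have h1 : HasDerivAt (fun t => - gT (-t)) (-(gT' (-t) * -1)) t :=
    ((gT_hasDerivAt (-t)).comp t (hasDerivAt_neg t)).neg
  have h2 : HasDerivAt (fun t => - gT (-t) - 1) (gT' (-t)) t := by
    simpa using h1.sub_const 1
  have h3 : HasDerivAt (fun t => gT (- gT (-t) - 1)) (gT' (-gT (-t) - 1) * gT' (-t)) t :=
    (gT_hasDerivAt _).comp t h2
  exact h3.const_add 1

theorem ftr_continuous : Continuous ftr := by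
  unfold ftr
  exact (gT'_continuous.comp ((gT_continuous.comp continuous_neg).neg.sub continuous_const)).mul
    (gT'_continuous.comp continuous_neg)

theorem Ftr_zero : Ftr 0 = 0 := by simp [Ftr, gT]

theorem ftr_abs (t : ℝ) : |ftr t| ≤ 1 := by
  unfold ftr
  rw [abs_of_pos (mul_pos (gT'_pos _) (gT'_pos _))]
  nlinarith [gT'_pos (-gT (-t) - 1), gT'_pos (-t), gT'_le_one (-gT (-t) - 1), gT'_le_one (-t)]

theorem Ftr_ge {t : ℝ} (ht : 1 ≤ t) : 1 ≤ Ftr t := by
  unfold Ftr
  have h1 : gT (-t) = -t := (gT_eq_iff _).2 (by linarith)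
  rw [h1, neg_neg]
  have := gT_nonneg (s := t - 1) (by linarith)
  linarith

theorem Ftr_abs (t : ℝ) : |Ftr t| ≤ 2 := by
  unfold Ftr
  have h1 := gT_lt_one (-t)
  rw [abs_le]
  constructor
  · rcases le_or_gt (-gT (-t) - 1) 0 with h | h
    · rw [(gT_eq_iff _).2 h]; linarith
    · have := gT_nonneg h.le; linarith
  · have := gT_lt_one (-gT (-t) - 1); linarith

theorem Ftr_sq (t : ℝ) : Ftr t ^ 2 ≤ t ^ 2 := by
  have := Convex.norm_image_sub_le_of_norm_hasDerivWithin_le (f := Ftr) (f' := ftr) (C := 1)
      (s := univ) (x := 0) (y := t) (fun x _ => (Ftr_hasDerivAt x).hasDerivWithinAt)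
      (fun x _ => ftr_abs x) convex_univ (mem_univ _) (mem_univ _)
  rw [Ftr_zero, sub_zero, sub_zero, one_mul] at this
  exact sq_le_sq.2 this

theorem gradient_div_norm_le {ζ U : E n → ℝ} {c : ℝ} (hc : 0 < c) (hζ : ContDiff ℝ 1 ζ)
    (hU : ContDiff ℝ 1 U) (h0 : ∀ x, 0 ≤ ζ x) (h1 : ∀ x, ζ x ≤ 1)
    (hcU : ∀ x ∈ tsupport ζ, c ≤ U x - c) (x : E n) :
    ‖gradient (fun y => ζ y / (U y - c)) x‖
      ≤ c⁻¹ * ‖gradient ζ x‖ + (c⁻¹) ^ 2 * ‖gradient U x‖ := by
  by_cases hx : x ∈ tsupport ζ
  · have hw := hcU x hx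
    have hw0 : U x - c ≠ 0 := by linarith
    have hwd : DifferentiableAt ℝ (fun y => U y - c) x :=
      ((hU.sub contDiff_const).differentiable (by simp)) x
    have hζd : DifferentiableAt ℝ ζ x := (hζ.differentiable (by simp)) x
    have e1 : gradient (fun y => ζ y / (U y - c)) x
        = (1 / (U x - c)) • gradient ζ x + ζ x • ((-(1 / (U x - c) ^ 2)) • gradient U x) := by
      refine ext_inner_right ℝ fun e => ?_
      have e2 : (fun y => ζ y / (U y - c)) = fun y => ζ y * (1 / (U y - c)) := by
        ext y; ring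
      rw [gradient_inner, e2, fderiv_fun_mul hζd (hasFDerivAt_one_div hwd hw0).differentiableAt]
      rw [inner_add_left, real_inner_smul_left, real_inner_smul_left, gradient_inner,
        ← gradient_sub_const U c, ← gradient_inv hwd hw0, gradient_inner]
      simp only [add_apply, smul_apply, smul_eq_mul]
      ring
    have hinv : 1 / (U x - c) ≤ c⁻¹ := by
      rw [← one_div]; exact one_div_le_one_div_of_le hc hw
    have hinv0 : 0 ≤ 1 / (U x - c) := by
      have : 0 < U x - c := lt_of_lt_of_le hc hw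
      positivity
    rw [e1]
    refine (norm_add_le _ _).trans (add_le_add ?_ ?_)
    · rw [norm_smul, Real.norm_of_nonneg hinv0]
      exact mul_le_mul_of_nonneg_right hinv (norm_nonneg _)
    · rw [norm_smul, norm_smul, norm_neg, Real.norm_of_nonneg (h0 x)]
      have e3 : 1 / (U x - c) ^ 2 = (1 / (U x - c)) ^ 2 := by rw [one_div_pow]
      rw [e3, Real.norm_of_nonneg (by positivity)]
      calc ζ x * ((1 / (U x - c)) ^ 2 * ‖gradient U x‖)
          ≤ 1 * ((c⁻¹) ^ 2 * ‖gradient U x‖) := by
            gcongr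
            exact h1 x
        _ = _ := one_mul _
  · have h1 : ζ =ᶠ[𝓝 x] 0 := notMem_tsupport_iff_eventuallyEq.1 hx
    have h2 : (fun y => ζ y / (U y - c)) =ᶠ[𝓝 x] fun _ => 0 := by
      filter_upwards [h1] with y hy
      rw [hy]; simp
    rw [h2.gradient_eq, gradient_fun_const, norm_zero]
    positivity

variable {K : Set (E n)} {P : (E n → ℝ) → (E n → E n) → Prop} {x₀ : E n} {r₀ δ : ℝ}
  {u : E n → ℝ} {p : E n → E n}

/-- the constant in the lower bound -/
noncomputable def cst (n : ℕ) (r₀ δ V : ℝ) : ℝ := (9 / 32) * ((4 * r₀ + 6 * δ) ^ n)⁻¹ * V / ck n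

theorem cst_pos {V : ℝ} (hr : 0 < r₀) (hδ : 0 < δ) (hV : 0 < V) : 0 < cst n r₀ δ V := by
  unfold cst
  have := ck_pos n
  positivity

theorem exists_near (hK : IsCompact K) (hKn : K.Nonempty) (x : E n) :
    ∃ y ∈ K, dist x y = infDist x K := by
  obtain ⟨y, hy, h⟩ := hK.exists_infDist_eq_dist hKn x
  exact ⟨y, hy, h.symm⟩

theorem IsPot.two_c_le (h : IsPot K P x₀ (5 * r₀ + 10 * δ) u p) (hn : 0 < n) (hK : IsCompact K)
    (hKn : K.Nonempty) (hr : 0 < r₀) (hδ : 0 < δ) (hKr : ∀ y ∈ K, dist y x₀ ≤ r₀) {j : ℕ}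
    (hj : 1 / ((j : ℝ) + 1) ≤ δ / 4) {x : E n} (hx : infDist x K ≤ 2 * δ) :
    2 * cst n r₀ δ (volume K).toReal ≤ moll (ker n j) u x := by
  obtain ⟨y, hy, hxy⟩ := exists_near hK hKn x
  have h1 := hKr y hy
  have h2 : dist x x₀ ≤ r₀ + 2 * δ := by linarith [dist_triangle x y x₀]
  have h3 := h.lower (x := x) (r := 4 * r₀ + 6 * δ) (by positivity) hn hK j (by positivity)
    (fun z hz => by
      have := hKr z hz
      have h4 := dist_triangle z x₀ x
      rw [dist_comm x₀ x] at h4
      linarith) (by linarith)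
  refine le_trans (le_of_eq ?_) h3
  unfold cst; ring

set_option maxHeartbeats 2000000 in
/-- one step of the lower bound -/
theorem IsPot.step (h : IsPot K P x₀ (5 * r₀ + 10 * δ) u p) (hn : 0 < n) (hK : IsCompact K)
    (hKn : K.Nonempty) (hKv : 0 < (volume K).toReal) (hr : 0 < r₀) (hδ : 0 < δ)
    (hKr : ∀ y ∈ K, dist y x₀ ≤ r₀)
    {β : ℝ} (hβ : 4 ^ (n + 4) / δ ≤ β) {φ : E n → ℝ} {G : E n → E n} (hφ : P φ G)
    (hs : surf (thickening δ K) φ G ≠ ⊤) :
    ∃ C : ℝ, 0 ≤ C ∧ ∀ j : ℕ, 1 / ((j : ℝ) + 1) ≤ δ / 4 →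
      nr p ^ 2 / (1 - cst n r₀ δ (volume K).toReal)
        - C * nr (fun x => moll (ker n j) p x - p x)
        ≤ (∫ x in thickening δ K, ‖G x‖ ^ 2) + β * (surf (thickening δ K) φ G).toReal := by
  set c := cst n r₀ δ (volume K).toReal with hc
  have hc0 : 0 < c := cst_pos hr hδ hKv
  set R := 5 * r₀ + 10 * δ with hRdef
  have hR : 0 < R := by positivity
  have hβ0 : 0 < β := lt_of_lt_of_le (by positivity) hβ
  set Ω := thickening δ K with hΩdef
  have hΩ : IsOpen Ω := isOpen_thickening
  have hΩmem : ∀ x, x ∈ Ω ↔ infDist x K < δ := fun x => by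
    rw [hΩdef, mem_thickening_iff_infDist_lt hKn]
  have hcont : Continuous fun x => infDist x K := continuous_infDist_pt K
  have hbdd : ∀ s : ℝ, Bornology.IsBounded {x | infDist x K < s} := by
    intro s
    refine (isBounded_closedBall (x := x₀) (r := r₀ + s)).subset fun x hx => ?_
    obtain ⟨y, hy, hxy⟩ := exists_near hK hKn x
    rw [mem_closedBall]
    have h1 := hKr y hy
    have h2 : infDist x K < s := hx
    linarith [dist_triangle x y x₀]
  obtain ⟨ζ, hζ, hζs, hζ1, hζ0, hζnn, hζle⟩ := exists_cutoff (A := {x | infDist x K ≤ δ / 2})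
    (B := {x | infDist x K < 3 * δ / 4}) (isClosed_le hcont continuous_const)
    (isOpen_lt hcont continuous_const) (hbdd _) (fun x hx => by
      simp only [mem_ofPred_eq] at hx ⊢; linarith)
  obtain ⟨χ, hχ, hχs, hχ1, hχ0, hχnn, hχle⟩ := exists_cutoff (A := {x | infDist x K ≤ δ})
    (B := {x | infDist x K < 2 * δ}) (isClosed_le hcont continuous_const)
    (isOpen_lt hcont continuous_const) (hbdd _) (fun x hx => by
      simp only [mem_ofPred_eq] at hx ⊢; linarith)
  have hζ' : ContDiff ℝ 1 ζ := hζ.of_le (by simp)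
  have hχ' : ContDiff ℝ 1 χ := hχ.of_le (by simp)
  have hζt : ∀ x ∈ tsupport ζ, infDist x K ≤ 3 * δ / 4 := by
    have : tsupport ζ ⊆ {x | infDist x K ≤ 3 * δ / 4} := by
      apply closure_minimal _ (isClosed_le hcont continuous_const)
      intro x hx
      by_contra h2
      apply hx
      apply hζ0
      intro h3
      apply h2
      simp only [mem_ofPred_eq] at h3 ⊢
      exact h3.le
    exact fun x hx => this hx
  have hχt : ∀ x ∈ tsupport χ, infDist x K ≤ 2 * δ := by
    have : tsupport χ ⊆ {x | infDist x K ≤ 2 * δ} := by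
      apply closure_minimal _ (isClosed_le hcont continuous_const)
      intro x hx
      by_contra h2
      apply hx
      apply hχ0
      intro h3
      apply h2
      simp only [mem_ofPred_eq] at h3 ⊢
      exact h3.le
    exact fun x hx => this hx
  -- the truncation
  have hPt : P (fun x => Ftr (φ x)) (fun x => ftr (φ x) • G x) :=
    h.obst.comp hφ Ftr_hasDerivAt ftr_continuous Ftr_zero ftr_abs fun t ht => Ftr_ge ht
  set φt : E n → ℝ := fun x => Ftr (φ x) with hφt
  set Gt : E n → E n := fun x => ftr (φ x) • G x with hGt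
  have hφH := h.obst.isH1 hφ
  have hφtH := h.obst.isH1 hPt
  have hφtb : ∀ x, |φt x| ≤ 2 := fun x => Ftr_abs _
  have hφtsq : ∀ x, φt x ^ 2 ≤ φ x ^ 2 := fun x => Ftr_sq _
  have hpm := h.isH1.memLp_grad
  refine ⟨4 * c⁻¹ * nr Gt + 4 * (c⁻¹ * nr (gradient ζ) + (c⁻¹) ^ 2 * nr p), by
    have := nr_nonneg Gt
    have := nr_nonneg (gradient ζ)
    have := nr_nonneg p
    positivity, fun j hj => ?_⟩
  set U := moll (ker n j) u with hU
  have hUs : ContDiff ℝ 2 U := by exact_mod_cast (contDiff_infty.1 (h.isH1.moll_smooth j)) 2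
  have hU1 : ContDiff ℝ 1 U := hUs.of_le (by norm_num)
  have hUcs : HasCompactSupport U := moll_cs j h.off
  have hUle : ∀ x, U x ≤ 1 := moll_le_one j h.isH1.loc (h.le_one hR hn)
  have h2c : ∀ x, infDist x K ≤ 2 * δ → 2 * c ≤ U x := fun x hx =>
    h.two_c_le hn hK hKn hr hδ hKr hj hx
  have hc1 : c < 1 := by
    obtain ⟨y, hy⟩ := hKn
    have h3 := h2c y (by rw [infDist_zero_of_mem hy]; positivity)
    linarith [hUle y]
  have hlap : ∀ x ∈ Ω, lap U x ≤ 0 := by
    intro x hx
    apply h.lap_le j
    rw [hΩmem] at hx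
    obtain ⟨y, hy, hxy⟩ := exists_near hK hKn x
    have h1 := hKr y hy
    intro z hz
    rw [mem_ball] at hz ⊢
    linarith [dist_triangle z x x₀, dist_triangle x y x₀]
  have hζU : ∀ x ∈ tsupport ζ, c ≤ U x - c := fun x hx => by
    have := h2c x (by linarith [hζt x hx]); linarith
  have hw : ContDiff ℝ 1 (fun x => U x - c) := hU1.sub contDiff_const
  set θ : E n → ℝ := fun x => ζ x / (U x - c) with hθ
  have hθc : ContDiff ℝ 1 θ := div_contDiff hζ' hw fun x hx => by
    have := hζU x hx; linarith
  have hθs : HasCompactSupport θ := div_cs hζs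
  have hθnn : ∀ x, 0 ≤ θ x := by
    intro x
    by_cases hx : x ∈ tsupport ζ
    · have := hζU x hx
      exact div_nonneg (hζnn x) (by linarith)
    · simp only [hθ, image_eq_zero_of_notMem_tsupport hx, zero_div, le_refl]
  have hθle : ∀ x, θ x ≤ c⁻¹ := by
    intro x
    by_cases hx : x ∈ tsupport ζ
    · have := hζU x hx
      simp only [hθ]
      rw [← one_div]
      exact div_le_div₀ zero_le_one (hζle x) hc0 this
    · simp only [hθ, image_eq_zero_of_notMem_tsupport hx, zero_div]
      positivity
  set G' : E n → E n := fun x => (2 * θ x * φt x) • Gt x + φt x ^ 2 • gradient θ x with hG'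
  have hH' : IsH1 (fun x => θ x * φt x ^ 2) G' :=
    hφtH.sq_mul (Eventually.of_forall hφtb) hθc hθs
  have hgU : ContDiff ℝ 1 (gradient U) := contDiff_gradient hUs (by norm_num)
  have hgUs : HasCompactSupport (gradient U) := gradient_cs hUcs
  have hgUe : gradient U = moll (ker n j) p := h.isH1.gradient_moll j
  -- Picone
  set f : E n → ℝ := fun x => (θ x * φt x ^ 2) * (-(lap U x)) with hf
  have hfi : Integrable f := by
    have h5 : Continuous fun x => -(lap U x) := (vdiv_continuous hgU).neg
    have h6 : HasCompactSupport fun x => -(lap U x) := (vdiv_cs hgUs).neg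
    exact integrable_mul_cc hH'.memLp h5 h6
  have hfoff : ∀ x, x ∉ Ω → f x = 0 := by
    intro x hx
    have : ζ x = 0 := by
      apply hζ0
      intro h3
      apply hx
      rw [hΩmem]
      simp only [mem_ofPred_eq] at h3
      linarith
    simp [hf, hθ, this]
  have hpic := picone hΩ hφH (U := U) (ζ := ζ) (χ := χ) (f := f) (c := c) (β := β) hβ0 hUs hζ' hζs
    hχ' hχs (fun x hx => by have := hζU x hx; linarith)
    (fun x hx => by have := h2c x (hχt x hx); linarith)
    (fun x hx => hχ1 x (by rw [hΩmem] at hx; exact hx.le))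
    (fun x hx => by
      rw [hΩmem] at hx
      have := h2c x (by linarith); linarith)
    (fun x hx => by rw [hΩmem]; linarith [hζt x hx])
    (fun x => by
      by_cases h1 : infDist x K ≤ δ / 2
      · rw [hζ1 x h1]; simp [hβ0.le]
      · by_cases h2 : infDist x K < 2 * δ
        · push Not at h1
          have h3 := h2c x h2.le
          have h4 : U x / 2 ≤ U x - c := by linarith
          have hUx : 0 < U x := by linarith
          obtain ⟨y, hy, hxy⟩ := exists_near hK hKn x
          have h5 := hKr y hy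
          have h6 := h.grad_bound hR hn j (x := x) (t := δ / 16) (by positivity)
            (fun z hz => by
              have := infDist_le_dist_of_mem hz (x := x)
              rw [dist_comm] at this
              linarith) (by linarith [dist_triangle x y x₀])
          rw [← hgUe] at h6
          rw [norm_smul, Real.norm_of_nonneg (div_nonneg (mul_nonneg
            (by linarith [hζle x]) (hχnn x)) (by linarith))]
          have h7 : (1 - ζ x) * χ x ≤ 1 := by
            nlinarith [hζnn x, hζle x, hχnn x, hχle x]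
          calc (1 - ζ x) * χ x / (U x - c) * ‖gradient U x‖
              ≤ 1 / (U x / 2) * (8 * 4 ^ n / (δ / 16) * U x) := by
                have : 0 < U x / 2 := by positivity
                gcongr
            _ = 4 ^ (n + 4) / δ := by
                rw [pow_add]; field_simp; norm_num
            _ ≤ β := hβ
        · rw [hχ0 x h2]; simp [hβ0.le])
    hs hfi.integrableOn (Eventually.of_forall fun x hx => by
      have h1 := hlap x hx
      have h2 : 0 < U x - c := by
        rw [hΩmem] at hx
        have := h2c x (by linarith); linarith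
      have h3 : f x = (ζ x * φt x ^ 2) * (-(lap U x) / (U x - c)) := by
        simp only [hf, hθ]; field_simp
      rw [h3]
      refine mul_le_mul_of_nonneg_right ?_ (div_nonneg (by linarith) h2.le)
      calc ζ x * φt x ^ 2 ≤ 1 * φt x ^ 2 := by
            gcongr
            exact hζle x
        _ ≤ φ x ^ 2 := by rw [one_mul]; exact hφtsq x)
  have hfint : ∫ x in Ω, f x = ∫ x, inner ℝ (G' x) (gradient U x) := by
    rw [setIntegral_eq_integral_of_forall_compl_eq_zero hfoff]
    have h5 := hH'.weak_vec hgU hgUs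
    have h6 : ∫ x, f x = - ∫ x, (θ x * φt x ^ 2) * vdiv (gradient U) x := by
      rw [← integral_neg]; congr 1; ext x; simp only [hf, lap]; ring
    rw [h6, h5, neg_neg]
  -- Euler-Lagrange
  have hel := h.el _ _ (h.obst.sq (θ := fun x => (1 - c) * θ x) hPt (Eventually.of_forall hφtb)
    (contDiff_const.mul hθc) hθs.mul_left (fun x hx => by
      have h1 : infDist x K = 0 := infDist_zero_of_mem hx
      have h2 := h2c x (by rw [h1]; positivity)
      have h3 : ζ x = 1 := hζ1 x (by simp only [mem_ofPred_eq]; rw [h1]; positivity)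
      simp only [hθ, h3]
      rw [mul_one_div, one_le_div (by linarith)]
      linarith [hUle x]))
    (Eventually.of_forall fun x hx => by
      have : ζ x = 0 := by
        apply hζ0
        intro h3
        apply hx
        simp only [mem_ofPred_eq] at h3
        obtain ⟨y, hy, hxy⟩ := exists_near hK hKn x
        have h5 := hKr y hy
        rw [mem_ball]
        linarith [dist_triangle x y x₀]
      simp [hθ, this])
  have hgθ : ∀ x, gradient (fun x => (1 - c) * θ x) x = (1 - c) • gradient θ x := by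
    intro x
    refine ext_inner_right ℝ fun e => ?_
    rw [gradient_inner, real_inner_smul_left, gradient_inner,
      fderiv_const_mul ((hθc.differentiable (by simp)) x)]
    simp
  have hel2 : nr p ^ 2 ≤ (1 - c) * ∫ x, inner ℝ (p x) (G' x) := by
    rw [← integral_const_mul]
    refine hel.trans (le_of_eq ?_)
    congr 1; ext x
    rw [hgθ]
    simp only [hG', inner_add_right, real_inner_smul_right]
    ring
  have hG'm := hH'.memLp_grad
  have hmp := memLp_moll (n := n) j hpm
  -- splitting
  have hsplit : ∫ x, inner ℝ (G' x) (gradient U x)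
      = (∫ x, inner ℝ (p x) (G' x))
        + ∫ x, inner ℝ (G' x) (moll (ker n j) p x - p x) := by
    have i1 : Integrable fun x => (inner ℝ (p x) (G' x) : ℝ) := integrable_inner hpm hG'm
    have i2 : Integrable fun x => (inner ℝ (G' x) (moll (ker n j) p x - p x) : ℝ) :=
      integrable_inner hG'm (hmp.sub hpm)
    rw [← integral_add i1 i2, hgUe]
    congr 1; ext x
    rw [inner_sub_right, real_inner_comm (G' x) (p x)]
    ring
  have herr : |∫ x, inner ℝ (G' x) (moll (ker n j) p x - p x)|
      ≤ nr G' * nr (fun x => moll (ker n j) p x - p x) :=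
    abs_integral_inner_le hG'm (hmp.sub hpm)
  have hnrU : nr (gradient U) ≤ nr p := by
    rw [hgUe]
    unfold nr
    exact ENNReal.toReal_mono hpm.2.ne (moll_l2_le _ (ker_contDiff j).continuous.measurable
      (ker_lintegral j) p hpm.aestronglyMeasurable)
  have hGtm := hφtH.memLp_grad
  have hgζm : MemLp (gradient ζ) 2 volume := memLp_cc (continuous_gradient hζ') (gradient_cs hζs)
  have hgUm : MemLp (gradient U) 2 volume := by rw [hgUe]; exact hmp
  have hnrG' : nr G' ≤ 4 * c⁻¹ * nr Gt + 4 * (c⁻¹ * nr (gradient ζ) + (c⁻¹) ^ 2 * nr p) := by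
    have m1 : MemLp (fun x => (2 * θ x * φt x) • Gt x) 2 volume := by
      refine memLp_bdd_smul (C := 4 * c⁻¹) ((hθc.continuous.aestronglyMeasurable.const_mul 2).mul
        hφtH.memLp.aestronglyMeasurable) (Eventually.of_forall fun x => ?_) hGtm
      rw [abs_mul, abs_mul, abs_two, abs_of_nonneg (hθnn x)]
      nlinarith [hθnn x, hθle x, hφtb x, abs_nonneg (φt x)]
    have m2 : MemLp (fun x => φt x ^ 2 • gradient θ x) 2 volume := by
      refine memLp_bdd_smul (C := 4) (hφtH.memLp.aestronglyMeasurable.pow 2)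
        (Eventually.of_forall fun x => ?_)
        (memLp_cc (continuous_gradient hθc) (gradient_cs hθs))
      rw [abs_pow]
      nlinarith [hφtb x, abs_nonneg (φt x)]
    refine (nr_add_le m1 m2).trans (add_le_add ?_ ?_)
    · apply nr_le_mul (by positivity) hGtm
      refine Eventually.of_forall fun x => ?_
      rw [norm_smul]
      refine mul_le_mul_of_nonneg_right ?_ (norm_nonneg _)
      rw [Real.norm_eq_abs, abs_mul, abs_mul, abs_two, abs_of_nonneg (hθnn x)]
      nlinarith [hθnn x, hθle x, hφtb x, abs_nonneg (φt x)]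
    · have m3 : MemLp (fun x => c⁻¹ * ‖gradient ζ x‖ + (c⁻¹) ^ 2 * ‖gradient U x‖) 2 volume :=
        (hgζm.norm.const_mul _).add (hgUm.norm.const_mul _)
      have h8 : nr (fun x => φt x ^ 2 • gradient θ x)
          ≤ 4 * nr (fun x => c⁻¹ * ‖gradient ζ x‖ + (c⁻¹) ^ 2 * ‖gradient U x‖) := by
        apply nr_le_mul (by norm_num) m3
        refine Eventually.of_forall fun x => ?_
        have h9 := gradient_div_norm_le hc0 hζ' hU1 hζnn hζle hζU x
        rw [norm_smul, Real.norm_of_nonneg (by positivity : (0 : ℝ) ≤ c⁻¹ * ‖gradient ζ x‖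
          + (c⁻¹) ^ 2 * ‖gradient U x‖)]
        refine mul_le_mul ?_ h9 (norm_nonneg _) (by norm_num)
        rw [Real.norm_eq_abs, abs_pow]
        nlinarith [hφtb x, abs_nonneg (φt x)]
      refine h8.trans (mul_le_mul_of_nonneg_left ?_ (by norm_num))
      refine (nr_add_le (hgζm.norm.const_mul _) (hgUm.norm.const_mul _)).trans (add_le_add ?_ ?_)
      · apply nr_le_mul (by positivity) hgζm
        refine Eventually.of_forall fun x => ?_
        rw [Real.norm_of_nonneg (by positivity)]
      · refine le_trans (nr_le_mul (by positivity) hgUm (C := (c⁻¹) ^ 2) ?_)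
          (mul_le_mul_of_nonneg_left hnrU (by positivity))
        refine Eventually.of_forall fun x => ?_
        rw [Real.norm_of_nonneg (by positivity)]
  have h1c : 0 < 1 - c := by linarith
  have hfin : nr p ^ 2 / (1 - c) ≤ ∫ x, inner ℝ (p x) (G' x) := by
    rw [div_le_iff₀ h1c]; linarith
  rw [hfint, hsplit] at hpic
  have h10 := neg_abs_le (∫ x, inner ℝ (G' x) (moll (ker n j) p x - p x))
  have h11 := mul_le_mul_of_nonneg_right hnrG' (nr_nonneg fun x => moll (ker n j) p x - p x)
  linarith

end Pool.Agent.helper33.Insul
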