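import Mathlib
import Pool.Agent.helper33.Insul.Lower3

/-! The lower bound for the insulation energy, conclusion. -/

set_option autoImplicit false
set_option linter.unusedSectionVars false
open MeasureTheory Metric Set Filter Topology
open scoped ENNReal ContDiff

namespace Pool.Agent.helper33.Insul

variable {n : ℕ} {K : Set (E n)} {P : (E n → ℝ) → (E n → E n) → Prop} {x₀ : E n} {r₀ δ : ℝ}
  {u : E n → ℝ} {p : E n → E n}

theorem lintegral_sq_eq {G : E n → E n} (hG : MemLp G 2 volume) (s : Set (E n)) :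
    ∫⁻ x in s, ‖G x‖ₑ ^ 2 = ENNReal.ofReal (∫ x in s, ‖G x‖ ^ 2) := by
  have hi : Integrable (fun x => ‖G x‖ ^ 2) (volume.restrict s) :=
    (hG.integrable_norm_pow (by norm_num)).integrableOn
  rw [ofReal_integral_eq_lintegral_ofReal hi (Eventually.of_forall fun x => by positivity)]
  refine lintegral_congr fun x => ?_
  rw [ENNReal.ofReal_pow (norm_nonneg _), ofReal_norm_eq_enorm]

theorem cst_lt_one (h : IsPot K P x₀ (5 * r₀ + 10 * δ) u p) (hn : 0 < n) (hK : IsCompact K)
    (hKn : K.Nonempty) (hr : 0 < r₀) (hδ : 0 < δ)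
    (hKr : ∀ y ∈ K, dist y x₀ ≤ r₀) (hKv : 0 < (volume K).toReal) :
    cst n r₀ δ (volume K).toReal < 1 := by
  obtain ⟨j, hj⟩ := exists_nat_one_div_lt (show (0 : ℝ) < δ / 4 by positivity)
  obtain ⟨y, hy⟩ := hKn
  have h3 := h.two_c_le hn hK ⟨y, hy⟩ hr hδ hKr hj.le (x := y)
    (by rw [infDist_zero_of_mem hy]; positivity)
  have h4 := moll_le_one j h.isH1.loc (h.le_one (by positivity) hn) y
  have h5 := cst_pos (n := n) hr hδ hKv
  linarith

/-- the relative capacity is positive -/
theorem IsPot.energy_pos (h : IsPot K P x₀ (5 * r₀ + 10 * δ) u p) (hn : 0 < n) (hK : IsCompact K)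
    (hKv : 0 < (volume K).toReal) (hr : 0 < r₀) (hδ : 0 < δ) : 0 < nr p ^ 2 := by
  have hR : 0 < 5 * r₀ + 10 * δ := by positivity
  have h1 := h.isH1.poincare hR (x₀ := x₀) h.off hn
  have h2 : 0 < nr u := by
    rcases (nr_nonneg u).eq_or_lt with h0 | h0
    · exfalso
      have h9 : eLpNorm u 2 volume = 0 := by
        unfold nr at h0
        rcases (ENNReal.toReal_eq_zero_iff _).1 h0.symm with h | h'
        · exact h
        · exact absurd h' h.isH1.memLp.2.ne
      have h10 := (eLpNorm_eq_zero_iff h.isH1.memLp.aestronglyMeasurable (by norm_num)).1 h9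
      have h11 : ∀ᵐ x, x ∉ K := by
        filter_upwards [h10, h.obst.ge h.mem] with x h1 h2 hx
        have := h2 hx
        rw [h1] at this
        simp only [Pi.zero_apply] at this
        linarith
      have h12 : volume K = 0 := by
        have := measure_eq_zero_iff_ae_notMem.2 h11
        exact this
      rw [h12] at hKv
      simp at hKv
    · exact h0
  have h3 : 0 < nr p := by
    by_contra h4
    have : nr p = 0 := le_antisymm (not_lt.1 h4) (nr_nonneg _)
    rw [this, mul_zero] at h1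
    linarith
  positivity

/-- the lower bound -/
theorem IsPot.energy_ge (h : IsPot K P x₀ (5 * r₀ + 10 * δ) u p) (hn : 0 < n) (hK : IsCompact K)
    (hKn : K.Nonempty) (hKv : 0 < (volume K).toReal) (hr : 0 < r₀) (hδ : 0 < δ)
    (hKr : ∀ y ∈ K, dist y x₀ ≤ r₀)
    {β : ℝ} (hβ : 4 ^ (n + 4) / δ ≤ β) {φ : E n → ℝ} {G : E n → E n} (hφ : P φ G) :
    ENNReal.ofReal (nr p ^ 2 / (1 - cst n r₀ δ (volume K).toReal))
      ≤ (∫⁻ x in thickening δ K, ‖G x‖ₑ ^ 2)
        + ENNReal.ofReal β * surf (thickening δ K) φ G := by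
  have hβ0 : 0 < β := lt_of_lt_of_le (by positivity) hβ
  by_cases hs : surf (thickening δ K) φ G = ⊤
  · rw [hs, ENNReal.mul_top (by simpa using hβ0)]
    simp
  have hGm := (h.obst.isH1 hφ).memLp_grad
  obtain ⟨C, hC0, hC⟩ := h.step hn hK hKn hKv hr hδ hKr hβ hφ hs
  rw [lintegral_sq_eq hGm]
  have e1 : ENNReal.ofReal β * surf (thickening δ K) φ G
      = ENNReal.ofReal (β * (surf (thickening δ K) φ G).toReal) := by
    rw [ENNReal.ofReal_mul hβ0.le, ENNReal.ofReal_toReal hs]
  have hnn : 0 ≤ ∫ x in thickening δ K, ‖G x‖ ^ 2 := integral_nonneg fun x => by positivity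
  rw [e1, ← ENNReal.ofReal_add hnn (by positivity)]
  apply ENNReal.ofReal_le_ofReal
  have hlim : Tendsto (fun j : ℕ => nr p ^ 2 / (1 - cst n r₀ δ (volume K).toReal)
      - C * nr (fun x => moll (ker n j) p x - p x)) atTop
      (𝓝 (nr p ^ 2 / (1 - cst n r₀ δ (volume K).toReal) - C * 0)) := by
    have h1 := h.isH1.tendsto_moll_grad
    have h2 := (ENNReal.tendsto_toReal ENNReal.zero_ne_top).comp h1
    rw [ENNReal.toReal_zero] at h2
    exact tendsto_const_nhds.sub (tendsto_const_nhds.mul h2)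
  rw [mul_zero, sub_zero] at hlim
  refine le_of_tendsto hlim ?_
  have hlim2 : Tendsto (fun j : ℕ => 1 / ((j : ℝ) + 1)) atTop (𝓝 0) :=
    tendsto_one_div_add_atTop_nhds_zero_nat
  filter_upwards [hlim2.eventually (ge_mem_nhds (show (0 : ℝ) < δ / 4 by positivity))] with j hj
  exact hC j hj

end Pool.Agent.helper33.Insul
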