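import Mathlib
import Pool.Agent.helper33.Insul.Lower4

/-! Cutoff functions of small Dirichlet energy around thin sets. -/

set_option autoImplicit false
set_option linter.unusedSectionVars false
open MeasureTheory Metric Set Filter Topology
open scoped ENNReal ContDiff

namespace Pool.Agent.helper33.Insul

variable {n : ℕ}

/-- `1` for `d ≤ s`, `0` for `d ≥ 2 s`, affine in between -/
noncomputable def cl (s d : ℝ) : ℝ := max 0 (min 1 (2 - d / s))

theorem cl_nonneg (s d : ℝ) : 0 ≤ cl s d := le_max_left _ _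
theorem cl_le_one (s d : ℝ) : cl s d ≤ 1 := max_le zero_le_one (min_le_left _ _)

theorem cl_eq_one {s d : ℝ} (hs : 0 < s) (hd : d ≤ s) : cl s d = 1 := by
  have : d / s ≤ 1 := (div_le_one hs).2 hd
  rw [cl, min_eq_left (by linarith), max_eq_right zero_le_one]

theorem cl_eq_zero {s d : ℝ} (hs : 0 < s) (hd : 2 * s ≤ d) : cl s d = 0 := by
  have : 2 ≤ d / s := (le_div_iff₀ hs).2 hd
  rw [cl, max_eq_left]
  exact (min_le_right _ _).trans (by linarith)

theorem cl_lip {s : ℝ} (hs : 0 < s) {d : E n → ℝ} (hd : LipschitzWith 1 d) :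
    LipschitzWith (Real.toNNReal (1 / s)) (fun x => cl s (d x)) := by
  refine LipschitzWith.of_dist_le_mul fun x y => ?_
  rw [Real.coe_toNNReal _ (by positivity), Real.dist_eq]
  have h1 : |d x - d y| ≤ dist x y := by
    have := hd.dist_le_mul x y
    rw [Real.dist_eq] at this
    simpa using this
  calc |cl s (d x) - cl s (d y)| ≤ |(2 - d x / s) - (2 - d y / s)| := by
        unfold cl
        refine (abs_max_sub_max_le_max _ _ _ _).trans ?_
        rw [sub_self, abs_zero]
        apply max_le (abs_nonneg _)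
        refine (abs_min_sub_min_le_max _ _ _ _).trans ?_
        rw [sub_self, abs_zero]
        exact max_le (abs_nonneg _) le_rfl
    _ = 1 / s * |d x - d y| := by
        have : (2 - d x / s) - (2 - d y / s) = (1 / s) * (d y - d x) := by field_simp; ring
        rw [this, abs_mul, abs_of_pos (by positivity), abs_sub_comm]
    _ ≤ 1 / s * dist x y := by gcongr

theorem gradient_eq_zero_of_extr {g : E n → ℝ} {x : E n} (h : IsLocalMin g x ∨ IsLocalMax g x) :
    gradient g x = 0 := by
  rcases h with h | h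
  · unfold gradient; rw [h.fderiv_eq_zero, map_zero]
  · unfold gradient; rw [h.fderiv_eq_zero, map_zero]

theorem cl_grad_zero {s : ℝ} (hs : 0 < s) {d : E n → ℝ} {x : E n}
    (hx : ¬ (s < d x ∧ d x < 2 * s)) : gradient (fun x => cl s (d x)) x = 0 := by
  apply gradient_eq_zero_of_extr
  by_cases h1 : s < d x
  · left
    have h2 : 2 * s ≤ d x := by
      by_contra h3; exact hx ⟨h1, not_le.1 h3⟩
    refine Eventually.of_forall fun y => ?_
    simp only [cl_eq_zero hs h2]
    exact cl_nonneg _ _
  · right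
    refine Eventually.of_forall fun y => ?_
    simp only [cl_eq_one hs (not_lt.1 h1)]
    exact cl_le_one _ _

theorem cl_grad_le {s : ℝ} (hs : 0 < s) {d : E n → ℝ} (hd : LipschitzWith 1 d) (x : E n) :
    ‖gradient (fun x => cl s (d x)) x‖ ≤ 1 / s := by
  rw [norm_gradient]
  have := norm_fderiv_le_of_lipschitz ℝ (cl_lip hs hd) (x₀ := x)
  rwa [Real.coe_toNNReal _ (by positivity)] at this

theorem cl_isH1 {s : ℝ} (hs : 0 < s) {d : E n → ℝ} (hd : LipschitzWith 1 d)
    (hb : Bornology.IsBounded {x | d x < 2 * s}) :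
    IsH1 (fun x => cl s (d x)) (gradient fun x => cl s (d x)) := by
  apply isH1_lipschitz (cl_lip hs hd)
  apply HasCompactSupport.of_support_subset_isCompact hb.isCompact_closure
  intro x hx
  apply subset_closure
  by_contra h
  exact hx (cl_eq_zero hs (not_lt.1 h))

theorem cl_energy {s : ℝ} (hs : 0 < s) {d : E n → ℝ} (hd : LipschitzWith 1 d)
    (hb : Bornology.IsBounded {x | d x < 2 * s}) :
    ∫ x, ‖gradient (fun x => cl s (d x)) x‖ ^ 2 ≤ (1 / s) ^ 2 * (volume {x | d x < 2 * s}).toReal := by
  have hm : MeasurableSet {x | d x < 2 * s} :=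
    (isOpen_lt hd.continuous continuous_const).measurableSet
  have hfin : volume {x | d x < 2 * s} < ⊤ := hb.measure_lt_top
  have h1 : ∫ x, ‖gradient (fun x => cl s (d x)) x‖ ^ 2
      ≤ ∫ x, ({x | d x < 2 * s}.indicator fun _ => (1 / s) ^ 2) x := by
    refine integral_mono ((cl_isH1 hs hd hb).memLp_grad.integrable_norm_pow (by norm_num))
      ((integrable_indicator_iff hm).2 (integrableOn_const hfin.ne)) fun x => ?_
    simp only
    by_cases hx : x ∈ {x | d x < 2 * s}
    · rw [indicator_of_mem hx]
      have := cl_grad_le hs hd x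
      gcongr
    · rw [indicator_of_notMem hx, cl_grad_zero hs (fun h => hx h.2)]
      simp
  refine h1.trans (le_of_eq ?_)
  rw [integral_indicator hm, setIntegral_const]
  simp [Measure.real, mul_comm]

theorem isH1_finset_sum {ι : Type*} (s : Finset ι) {φ : ι → E n → ℝ} {G : ι → E n → E n}
    (h : ∀ i ∈ s, IsH1 (φ i) (G i)) :
    IsH1 (fun x => ∑ i ∈ s, φ i x) (fun x => ∑ i ∈ s, G i x) := by
  classical
  induction s using Finset.induction_on with
  | empty => simpa using isH1_zero
  | insert a s ha ih =>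
    have h1 := (h a (Finset.mem_insert_self a s)).add
      (ih fun i hi => h i (Finset.mem_insert_of_mem hi))
    refine h1.congr (Eventually.of_forall fun x => ?_) (Eventually.of_forall fun x => ?_)
    · simp only [Finset.sum_insert ha]
    · simp only [Finset.sum_insert ha]

/-- multiscale cutoff with small energy -/
theorem exists_thin_cutoff {d : E n → ℝ} (hd : LipschitzWith 1 d) {A ε : ℝ} (hε : 0 < ε)
    (hn : 3 ≤ n) {N : ℕ} (hN : 0 < N) (hNε : 2 ^ N * ε ≤ 1)
    (hb : ∀ s : ℝ, Bornology.IsBounded {x | d x < s})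
    (hA : ∀ s : ℝ, 0 < s → s ≤ 1 → (volume {x | d x < s}).toReal ≤ A * s ^ (n - 1)) (hA0 : 0 ≤ A) :
    ∃ (τ : E n → ℝ) (H : E n → E n), IsH1 τ H ∧ Continuous τ ∧ (∀ x, 0 ≤ τ x) ∧
      (∀ x, d x ≤ ε → τ x = 1) ∧ (∀ x, 2 ^ N * ε ≤ d x → τ x = 0) ∧
      nr H ^ 2 ≤ A * 2 ^ (n - 1) / N := by
  set s : ℕ → ℝ := fun i => 2 ^ i * ε with hs
  have hs0 : ∀ i, 0 < s i := fun i => by simp only [hs]; positivity
  have hs2 : ∀ i, 2 * s i = s (i + 1) := fun i => by simp only [hs]; ring
  have hsm : ∀ i j, i ≤ j → s i ≤ s j := by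
    intro i j hij
    simp only [hs]
    have : (2 : ℝ) ^ i ≤ 2 ^ j := pow_le_pow_right₀ (by norm_num) hij
    nlinarith
  set g : ℕ → E n → ℝ := fun i x => cl (s i) (d x) with hg
  have hgH : ∀ i, IsH1 (g i) (gradient (g i)) := fun i => cl_isH1 (hs0 i) hd (hb _)
  have hNr : (0 : ℝ) < N := by exact_mod_cast hN
  have hsum := (isH1_finset_sum (Finset.range N) (fun i _ => hgH i)).smul (1 / (N : ℝ))
  refine ⟨_, _, hsum, ?_, ?_, ?_, ?_, ?_⟩
  · refine continuous_const.mul (continuous_finsetSum _ fun i _ => ?_)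
    exact (cl_lip (hs0 i) hd).continuous
  · intro x
    have : 0 ≤ ∑ i ∈ Finset.range N, g i x := Finset.sum_nonneg fun i _ => cl_nonneg _ _
    positivity
  · intro x hx
    have : ∀ i ∈ Finset.range N, g i x = 1 := by
      intro i _
      apply cl_eq_one (hs0 i)
      have h1 := hsm 0 i (Nat.zero_le i)
      have h2 : s 0 = ε := by simp [hs]
      linarith
    simp only [Finset.sum_congr rfl this]
    simp
    field_simp
  · intro x hx
    have : ∀ i ∈ Finset.range N, g i x = 0 := by
      intro i hi
      apply cl_eq_zero (hs0 i)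
      rw [hs2]
      exact (hsm _ _ (Finset.mem_range.1 hi)).trans hx
    simp only [Finset.sum_congr rfl this]
    simp
  · rw [nr_sq hsum.memLp_grad]
    have hpt : ∀ x, ‖(1 / (N : ℝ)) • ∑ i ∈ Finset.range N, gradient (g i) x‖ ^ 2
        = (1 / (N : ℝ)) ^ 2 * ∑ i ∈ Finset.range N, ‖gradient (g i) x‖ ^ 2 := by
      intro x
      rw [norm_smul, mul_pow, Real.norm_of_nonneg (by positivity)]
      congr 1
      by_cases hex : ∃ i ∈ Finset.range N, s i < d x ∧ d x < 2 * s i
      · obtain ⟨i, hi, hi1, hi2⟩ := hex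
        have hz : ∀ j ∈ Finset.range N, j ≠ i → gradient (g j) x = 0 := by
          intro j _ hji
          apply cl_grad_zero (hs0 j)
          rintro ⟨h1, h2⟩
          rcases lt_or_gt_of_ne hji with h | h
          · rw [hs2] at h2
            have := hsm (j + 1) i h
            linarith
          · rw [hs2] at hi2
            have := hsm (i + 1) j h
            linarith
        rw [Finset.sum_eq_single_of_mem i hi hz, Finset.sum_eq_single_of_mem i hi]
        intro j hj hji
        rw [hz j hj hji]; simp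
      · push Not at hex
        have hz : ∀ j ∈ Finset.range N, gradient (g j) x = 0 := by
          intro j hj
          apply cl_grad_zero (hs0 j)
          rintro ⟨h1, h2⟩
          exact absurd h2 (not_lt.2 (hex j hj h1))
        rw [Finset.sum_eq_zero hz, Finset.sum_eq_zero]
        · simp
        · intro j hj; rw [hz j hj]; simp
    simp_rw [hpt]
    rw [integral_const_mul, integral_finsetSum _ fun i _ =>
      (hgH i).memLp_grad.integrable_norm_pow (by norm_num)]
    have hbd : ∀ i ∈ Finset.range N, ∫ x, ‖gradient (g i) x‖ ^ 2 ≤ A * 2 ^ (n - 1) := by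
      intro i hi
      refine (cl_energy (hs0 i) hd (hb _)).trans ?_
      have hi1 : 2 * s i ≤ 1 := by
        rw [hs2]
        exact (hsm _ _ (Finset.mem_range.1 hi)).trans hNε
      have h1 := hA (2 * s i) (by have := hs0 i; positivity) hi1
      have hsi := hs0 i
      calc (1 / s i) ^ 2 * (volume {x | d x < 2 * s i}).toReal
          ≤ (1 / s i) ^ 2 * (A * (2 * s i) ^ (n - 1)) := by gcongr
        _ = A * 2 ^ (n - 1) * s i ^ (n - 3) := by
            obtain ⟨k, rfl⟩ := Nat.exists_eq_add_of_le hn
            have e1 : 3 + k - 1 = k + 2 := by omega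
            have e2 : 3 + k - 3 = k := by omega
            rw [e1, e2, mul_pow]
            field_simp
            ring
        _ ≤ A * 2 ^ (n - 1) * 1 := by
            gcongr
            exact pow_le_one₀ hsi.le (by linarith)
        _ = A * 2 ^ (n - 1) := mul_one _
    calc (1 / (N : ℝ)) ^ 2 * ∑ i ∈ Finset.range N, ∫ x, ‖gradient (g i) x‖ ^ 2
        ≤ (1 / (N : ℝ)) ^ 2 * ∑ i ∈ Finset.range N, A * 2 ^ (n - 1) := by
          gcongr with i hi
          exact hbd i hi
      _ = A * 2 ^ (n - 1) / N := by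
          simp only [Finset.sum_const, Finset.card_range, nsmul_eq_mul]
          field_simp

end Pool.Agent.helper33.Insul
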