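import Mathlib
import Pool.Agent.helper33.Insul.Cut

/-! Thin neighbourhoods of segments, and connected open subsets of almost full measure. -/

set_option autoImplicit false
set_option linter.unusedSectionVars false
open MeasureTheory Metric Set Filter Topology
open scoped ENNReal ContDiff

namespace Pool.Agent.helper33.Insul

variable {n : ℕ}

/-- volume of the unit ball -/
noncomputable def vb (n : ℕ) : ℝ := (volume (ball (0 : E n) 1)).toReal

theorem vb_pos (n : ℕ) : 0 < vb n :=
  ENNReal.toReal_pos (measure_ball_pos _ _ one_pos).ne' measure_ball_lt_top.ne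

theorem vol_ball (x : E n) {r : ℝ} (hr : 0 ≤ r) (hn : 0 < n) :
    (volume (ball x r)).toReal = r ^ n * vb n := by
  haveI : Nonempty (Fin n) := ⟨⟨0, hn⟩⟩
  rw [Measure.addHaar_ball (volume : Measure (E n)) x hr, ENNReal.toReal_mul,
    ENNReal.toReal_ofReal (by positivity)]
  simp [vb]

theorem vol_thick_segment (hn : 0 < n) (a b : E n) {s : ℝ} (hs : 0 < s) (hs1 : s ≤ 1) :
    (volume (thickening s (segment ℝ a b))).toReal
      ≤ (dist a b + 2) * 2 ^ n * vb n * s ^ (n - 1) := by
  set M : ℕ := ⌊dist a b / s⌋₊ + 1 with hM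
  have hM0 : (0 : ℝ) < M := by rw [hM]; positivity
  have hMs : dist a b ≤ M * s := by
    have := (Nat.lt_floor_add_one (dist a b / s)).le
    rw [div_le_iff₀ hs] at this
    rw [hM]; push_cast; exact this
  set q : ℕ → E n := fun i => a + ((i : ℝ) / M) • (b - a) with hq
  have hcov : thickening s (segment ℝ a b) ⊆ ⋃ i ∈ Finset.range (M + 1), ball (q i) (2 * s) := by
    intro x hx
    rw [mem_thickening_iff] at hx
    obtain ⟨y, hy, hxy⟩ := hx
    rw [segment_eq_image'] at hy
    obtain ⟨t, ht, rfl⟩ := hy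
    set i : ℕ := ⌊t * M⌋₊ with hi
    have ht0 : 0 ≤ t * M := by have := ht.1; positivity
    have h1 : (i : ℝ) ≤ t * M := Nat.floor_le ht0
    have h2 : t * M < i + 1 := Nat.lt_floor_add_one _
    have hiM : i ≤ M := by
      have : (i : ℝ) ≤ M := h1.trans (by nlinarith [ht.2])
      exact_mod_cast this
    simp only [mem_iUnion, mem_ball, Finset.mem_range]
    refine ⟨i, by omega, ?_⟩
    have h3 : dist (a + t • (b - a)) (q i) ≤ s := by
      rw [hq, dist_eq_norm]
      have : a + t • (b - a) - (a + ((i : ℝ) / M) • (b - a)) = (t - i / M) • (b - a) := by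
        rw [sub_smul]; abel
      simp only
      rw [this, norm_smul, Real.norm_eq_abs]
      have h4 : |t - i / M| ≤ 1 / M := by
        have e : t - i / M = (t * M - i) / M := by field_simp
        rw [e, abs_div, abs_of_pos hM0]
        gcongr
        rw [abs_le]; constructor <;> linarith
      have h5 : ‖b - a‖ = dist a b := by rw [← dist_eq_norm, dist_comm]
      rw [h5]
      calc |t - i / M| * dist a b ≤ 1 / M * (M * s) := by gcongr
        _ = s := by field_simp
    linarith [dist_triangle x (a + t • (b - a)) (q i)]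
  have hfin : volume (⋃ i ∈ Finset.range (M + 1), ball (q i) (2 * s)) ≠ ⊤ := by
    refine (lt_of_le_of_lt (measure_biUnion_finset_le _ _) ?_).ne
    exact ENNReal.sum_lt_top.2 fun i _ => measure_ball_lt_top
  have h1 := ENNReal.toReal_mono hfin (measure_mono hcov)
  refine h1.trans ?_
  have h2 : (volume (⋃ i ∈ Finset.range (M + 1), ball (q i) (2 * s))).toReal
      ≤ ∑ i ∈ Finset.range (M + 1), (volume (ball (q i) (2 * s))).toReal := by
    rw [← ENNReal.toReal_sum fun i _ => measure_ball_lt_top.ne]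
    exact ENNReal.toReal_mono (ENNReal.sum_lt_top.2 fun i _ => measure_ball_lt_top).ne
      (measure_biUnion_finset_le _ _)
  refine h2.trans ?_
  simp_rw [vol_ball _ (by positivity : (0 : ℝ) ≤ 2 * s) hn]
  rw [Finset.sum_const, Finset.card_range, nsmul_eq_mul]
  have h3 : ((M + 1 : ℕ) : ℝ) * s ≤ dist a b + 2 := by
    have := Nat.floor_le (show 0 ≤ dist a b / s by positivity)
    rw [le_div_iff₀ hs] at this
    rw [hM]; push_cast
    nlinarith
  obtain ⟨k, rfl⟩ := Nat.exists_eq_add_of_le' hn
  have hv := vb_pos (k + 1)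
  calc ((M + 1 : ℕ) : ℝ) * ((2 * s) ^ (k + 1) * vb (k + 1))
      = (((M + 1 : ℕ) : ℝ) * s) * (2 ^ (k + 1) * vb (k + 1) * s ^ k) := by ring
    _ ≤ (dist a b + 2) * (2 ^ (k + 1) * vb (k + 1) * s ^ k) := by gcongr
    _ = (dist a b + 2) * 2 ^ (k + 1) * vb (k + 1) * s ^ (k + 1 - 1) := by
        simp only [Nat.add_sub_cancel]; ring

/-- a connected open set contains connected open subsets of slightly smaller measure -/
theorem exists_sub {D : Set (E n)} (hD : IsOpen D) (hc : IsConnected D) (hD1 : D ≠ univ)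
    (hv : volume D < ⊤) {x₀ : E n} (hx₀ : x₀ ∈ D) {γ : ℝ≥0∞} (hγ : 0 < γ) :
    ∃ D₁ ⊆ D, IsOpen D₁ ∧ IsConnected D₁ ∧ x₀ ∈ D₁ ∧ volume D₁ < volume D ∧
      volume D < volume D₁ + γ := by
  have hne : (Dᶜ).Nonempty := nonempty_compl.2 hD1
  set f : E n → ℝ := fun x => infDist x Dᶜ with hf
  have hfc : Continuous f := continuous_infDist_pt _
  have hfpos : ∀ x, x ∈ D ↔ 0 < f x := by
    intro x
    have := hD.isClosed_compl.notMem_iff_infDist_pos hne (x := x)
    rw [notMem_compl_iff] at this
    exact this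
  set U : ℕ → Set (E n) := fun k => {x | 1 / ((k : ℝ) + 1) < f x} with hU
  have hUo : ∀ k, IsOpen (U k) := fun k => isOpen_lt continuous_const hfc
  have hUD : ∀ k, U k ⊆ D := fun k x hx => (hfpos x).2 (lt_trans (by positivity) hx)
  have hUm : Monotone U := by
    intro k l hkl x hx
    have : 1 / ((l : ℝ) + 1) ≤ 1 / ((k : ℝ) + 1) := by
      apply one_div_le_one_div_of_le (by positivity)
      have : (k : ℝ) ≤ l := by exact_mod_cast hkl
      linarith
    exact lt_of_le_of_lt this hx
  set C : ℕ → Set (E n) := fun k => connectedComponentIn (U k) x₀ with hC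
  have hCU : ∀ k, C k ⊆ U k := fun k => connectedComponentIn_subset _ _
  have hCo : ∀ k, IsOpen (C k) := fun k => (hUo k).connectedComponentIn
  have hCm : Monotone C := fun k l hkl => connectedComponentIn_mono x₀ (hUm hkl)
  have hCun : ⋃ k, C k = D := by
    apply subset_antisymm
    · exact iUnion_subset fun k => (hCU k).trans (hUD k)
    · intro y hy
      have hpc : IsPathConnected D := hD.isConnected_iff_isPathConnected.1 hc
      obtain ⟨γ, hγ⟩ := hpc.joinedIn x₀ hx₀ y hy
      have hcomp : IsCompact (range γ) := isCompact_range γ.continuous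
      obtain ⟨z, hz, hmin⟩ := hcomp.exists_isMinOn (range_nonempty _) hfc.continuousOn
      have hfz : 0 < f z := by
        obtain ⟨t, rfl⟩ := hz
        exact (hfpos _).1 (hγ t)
      obtain ⟨k, hk⟩ := exists_nat_one_div_lt hfz
      have hsub : range γ ⊆ U k := fun w hw => lt_of_lt_of_le hk (hmin hw)
      have hpre : IsPreconnected (range γ) := (isConnected_range γ.continuous).isPreconnected
      have hx₀r : x₀ ∈ range γ := ⟨0, γ.source⟩
      have := hpre.subset_connectedComponentIn hx₀r hsub
      exact mem_iUnion.2 ⟨k, this ⟨1, γ.target⟩⟩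
  have hlim : Tendsto (fun k => volume (C k)) atTop (𝓝 (volume D)) := by
    rw [← hCun]; exact tendsto_measure_iUnion_atTop hCm
  have hev1 : ∀ᶠ k in atTop, volume D < volume (C k) + γ := by
    have h1 : Tendsto (fun k => volume (C k) + γ) atTop (𝓝 (volume D + γ)) :=
      hlim.add tendsto_const_nhds
    apply h1.eventually (lt_mem_nhds _)
    exact ENNReal.lt_add_right hv.ne hγ.ne'
  have hev2 : ∀ᶠ k in atTop, x₀ ∈ C k := by
    have : x₀ ∈ ⋃ k, C k := by rw [hCun]; exact hx₀
    obtain ⟨k, hk⟩ := mem_iUnion.1 this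
    filter_upwards [eventually_ge_atTop k] with l hl
    exact hCm hl hk
  obtain ⟨k, h1, h2⟩ := (hev1.and hev2).exists
  refine ⟨C k, (hCU k).trans (hUD k), hCo k, ⟨⟨x₀, h2⟩, isPreconnected_connectedComponentIn⟩, h2,
    ?_, h1⟩
  -- strict inequality
  have hfr : (frontier D).Nonempty := by
    rw [nonempty_frontier_iff]
    exact ⟨⟨x₀, hx₀⟩, hD1⟩
  obtain ⟨z, hz⟩ := hfr
  have hzD : z ∉ D := by
    intro h
    rw [hD.frontier_eq] at hz
    exact hz.2 h
  obtain ⟨y, hy, hyz⟩ := Metric.mem_closure_iff.1 (frontier_subset_closure hz)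
    (1 / ((k : ℝ) + 1)) (by positivity)
  set V : Set (E n) := D ∩ {x | f x < 1 / ((k : ℝ) + 1)} with hV
  have hVo : IsOpen V := hD.inter (isOpen_lt hfc continuous_const)
  have hVne : V.Nonempty := by
    refine ⟨y, hy, ?_⟩
    have : f y ≤ dist y z := infDist_le_dist_of_mem hzD
    rw [dist_comm] at this
    exact lt_of_le_of_lt this hyz
  have hdisj : Disjoint (C k) V := by
    rw [Set.disjoint_left]
    intro x hx hxV
    have h3 : 1 / ((k : ℝ) + 1) < f x := hCU k hx
    exact absurd hxV.2 (not_lt.2 h3.le)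
  have hVpos : 0 < volume V := hVo.measure_pos _ hVne
  have hsum : volume (C k) + volume V ≤ volume D := by
    rw [← measure_union hdisj hVo.measurableSet]
    exact measure_mono (union_subset ((hCU k).trans (hUD k)) inter_subset_left)
  have hCfin : volume (C k) ≠ ⊤ := (lt_of_le_of_lt (measure_mono ((hCU k).trans (hUD k))) hv).ne
  exact lt_of_lt_of_le (ENNReal.lt_add_right hCfin hVpos.ne') hsum

end Pool.Agent.helper33.Insul
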