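import Mathlib
import Pool.Agent.helper33.Insul.Dom

/-! The competitor domain. -/

set_option autoImplicit false
set_option linter.unusedSectionVars false
open MeasureTheory Metric Set Filter Topology
open scoped ENNReal ContDiff

namespace Pool.Agent.helper33.Insul

variable {n : ℕ}

theorem continuousOn_of_dist_le' {f g : ℝ → ℝ} {S : Set ℝ} (hg : ContinuousOn g S)
    (h : ∀ x ∈ S, ∀ y ∈ S, |f x - f y| ≤ |g x - g y|) : ContinuousOn f S := by
  rw [Metric.continuousOn_iff] at hg ⊢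
  intro b hb ε hε
  obtain ⟨δ, hδ, H⟩ := hg b hb ε hε
  refine ⟨δ, hδ, fun a ha hab => ?_⟩
  have h1 := H a ha hab
  rw [Real.dist_eq] at h1 ⊢
  exact (h a ha b hb).trans_lt h1

theorem le_of_sq_le_div4 {a η : ℝ} (hη : 0 < η) (h : a ^ 2 ≤ η ^ 2 / 4) :
    a ≤ η / 2 := by
  have h1 : a ^ 2 ≤ (η / 2) ^ 2 := by rw [div_pow]; norm_num; linarith
  exact abs_le_of_sq_le_sq' h1 (by positivity) |>.2

set_option maxHeartbeats 1000000 in
theorem exists_domain (hn : 3 ≤ n) {D : Set (E n)} (hD : IsOpen D) (hc : IsConnected D)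
    {x₀ : E n} (hx₀ : x₀ ∈ D) {r₀ δ R η : ℝ} (hr : 0 < r₀) (hδ : 0 < δ)
    (hDr : ∀ y ∈ D, dist y x₀ ≤ r₀) (hR : R = 5 * r₀ + 10 * δ) (hη : 0 < η) :
    ∃ (D' K₂ : Set (E n)) (τ : E n → ℝ) (H : E n → E n), IsOpen D' ∧ IsConnected D' ∧
      Bornology.IsBounded D' ∧ volume D' = volume D ∧ closure D' ⊆ closure D ∪ K₂ ∧
      (∀ x, dist x x₀ ≤ R + δ / 4 → x ∈ thickening δ D') ∧ IsH1 τ H ∧ Continuous τ ∧
      (∀ x, 0 ≤ τ x) ∧ (∀ x ∈ K₂, 1 ≤ τ x) ∧ (∀ x, R + δ / 8 ≤ dist x x₀ → τ x = 0) ∧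
      nr H ≤ η := by
  have hn0 : 0 < n := by omega
  have hR0 : 0 < R := by rw [hR]; positivity
  have hDb : Bornology.IsBounded D := isBounded_closedBall.subset
    (fun y hy => mem_closedBall.2 (hDr y hy) : D ⊆ closedBall x₀ r₀)
  have hDv : volume D < ⊤ := hDb.measure_lt_top
  -- a tip
  obtain ⟨z₁, hz₁⟩ : ∃ z₁ : E n, dist z₁ x₀ = R := by
    refine ⟨x₀ + R • EuclideanSpace.single (⟨0, hn0⟩ : Fin n) (1 : ℝ), ?_⟩
    rw [dist_eq_norm, add_sub_cancel_left, norm_smul]
    simp [abs_of_pos hR0]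
  -- the net
  obtain ⟨Z₀, hZ₀s, hZ₀f, hZ₀c⟩ := (isCompact_closedBall x₀ (R + δ / 4)).elim_finite_subcover_image
    (b := closedBall x₀ R) (c := fun z => ball z δ) (fun i _ => isOpen_ball) (by
      intro x hx
      have h1 : x ∈ thickening δ (closedBall x₀ R) := by
        rw [thickening_closedBall hδ hR0.le, mem_ball]
        rw [mem_closedBall] at hx
        linarith
      rw [mem_thickening_iff] at h1
      obtain ⟨z, hz, hxz⟩ := h1
      exact mem_biUnion hz hxz)
  set Z : Finset (E n) := insert z₁ hZ₀f.toFinset with hZ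
  have hZR : ∀ z ∈ Z, dist z x₀ ≤ R := by
    intro z hz
    rw [hZ, Finset.mem_insert] at hz
    rcases hz with rfl | hz
    · exact hz₁.le
    · exact hZ₀s (hZ₀f.mem_toFinset.1 hz)
  set S : Set (E n) := ⋃ z ∈ Z, segment ℝ x₀ z with hS
  have hzS : ∀ z ∈ Z, z ∈ S := fun z hz => mem_biUnion hz (right_mem_segment ℝ x₀ z)
  have hx₀S : x₀ ∈ S := mem_biUnion (Finset.mem_insert_self _ _) (left_mem_segment ℝ x₀ z₁)
  have hSne : S.Nonempty := ⟨x₀, hx₀S⟩
  have hSR : S ⊆ closedBall x₀ R := by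
    refine iUnion₂_subset fun z hz => ?_
    exact (convex_closedBall x₀ R).segment_subset (mem_closedBall_self hR0.le) (hZR z hz)
  set d : E n → ℝ := fun x => infDist x S with hd
  have hdl : LipschitzWith 1 d := lipschitz_infDist_pt S
  have hdS : ∀ s : ℝ, {x | d x < s} = ⋃ z ∈ Z, thickening s (segment ℝ x₀ z) := by
    intro s
    ext x
    simp only [mem_ofPred_eq, hd, mem_iUnion]
    rw [infDist_lt_iff hSne]
    constructor
    · rintro ⟨y, hy, hxy⟩
      obtain ⟨z, hz, hyz⟩ := mem_iUnion₂.1 hy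
      exact ⟨z, hz, mem_thickening_iff.2 ⟨y, hyz, hxy⟩⟩
    · rintro ⟨z, hz, hx⟩
      obtain ⟨y, hy, hxy⟩ := mem_thickening_iff.1 hx
      exact ⟨y, mem_biUnion hz hy, hxy⟩
  have hdR : ∀ {s : ℝ} {x : E n}, d x < s → dist x x₀ < R + s := by
    intro s x hx
    simp only [hd] at hx
    rw [infDist_lt_iff hSne] at hx
    obtain ⟨y, hy, hxy⟩ := hx
    have := mem_closedBall.1 (hSR hy)
    linarith [dist_triangle x y x₀]
  have hdb : ∀ s : ℝ, Bornology.IsBounded {x | d x < s} := fun s =>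
    (isBounded_ball (x := x₀) (r := R + s)).subset fun x hx => hdR hx
  set A : ℝ := ∑ z ∈ Z, (dist x₀ z + 2) * 2 ^ n * vb n with hA
  have hvb := vb_pos n
  have hA0 : 0 ≤ A := Finset.sum_nonneg fun z _ => by positivity
  have hAv : ∀ s : ℝ, 0 < s → s ≤ 1 → (volume {x | d x < s}).toReal ≤ A * s ^ (n - 1) := by
    intro s hs hs1
    rw [hdS, hA, Finset.sum_mul]
    have hfin : ∀ z ∈ Z, volume (thickening s (segment ℝ x₀ z)) ≠ ⊤ := by
      intro z hz
      refine ((hdb s).subset ?_).measure_lt_top.ne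
      rw [hdS]; exact subset_biUnion_of_mem (u := fun z => thickening s (segment ℝ x₀ z)) hz
    refine (ENNReal.toReal_mono (ENNReal.sum_ne_top.2 hfin)
      (measure_biUnion_finset_le _ _)).trans ?_
    rw [ENNReal.toReal_sum hfin]
    exact Finset.sum_le_sum fun z _ => vol_thick_segment hn0 x₀ z hs hs1
  clear_value A
  -- the filler ball
  set ρ₁ : ℝ := min (δ / 16) (min 1 (η ^ 2 / (4 * 2 ^ n * vb n))) with hρ₁
  have hρ0 : 0 < ρ₁ := lt_min (by positivity) (lt_min one_pos (by positivity))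
  have hρδ : ρ₁ ≤ δ / 16 := min_le_left _ _
  have hρ1 : ρ₁ ≤ 1 := (min_le_right _ _).trans (min_le_left _ _)
  have hρη : ρ₁ ≤ η ^ 2 / (4 * 2 ^ n * vb n) := (min_le_right _ _).trans (min_le_right _ _)
  clear_value ρ₁
  set d₂ : E n → ℝ := fun x => dist x z₁ with hd₂
  have hd₂l : LipschitzWith 1 d₂ := LipschitzWith.dist_left z₁
  have hd₂b : Bornology.IsBounded {x | d₂ x < 2 * ρ₁} := isBounded_ball
  have hH₂ := cl_isH1 hρ0 hd₂l hd₂b
  have hE₂ : nr (gradient fun x => cl ρ₁ (d₂ x)) ≤ η / 2 := by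
    apply le_of_sq_le_div4 hη
    rw [nr_sq hH₂.memLp_grad]
    refine (cl_energy hρ0 hd₂l hd₂b).trans ?_
    have e1 : {x | d₂ x < 2 * ρ₁} = ball z₁ (2 * ρ₁) := rfl
    rw [e1, vol_ball _ (by positivity) hn0]
    obtain ⟨k, rfl⟩ := Nat.exists_eq_add_of_le hn
    calc (1 / ρ₁) ^ 2 * ((2 * ρ₁) ^ (3 + k) * vb (3 + k))
        = 2 ^ (3 + k) * vb (3 + k) * ρ₁ * ρ₁ ^ k := by
          rw [mul_pow]; field_simp; ring
      _ ≤ 2 ^ (3 + k) * vb (3 + k) * (η ^ 2 / (4 * 2 ^ (3 + k) * vb (3 + k))) * 1 := by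
          gcongr
          exact pow_le_one₀ hρ0.le hρ1
      _ = η ^ 2 / 4 := by field_simp
  -- the slightly smaller domain
  obtain ⟨D₁, hD₁D, hD₁o, hD₁c, hx₀D₁, hD₁lt, hD₁γ⟩ := exists_sub hD hc (by
      intro h
      have hub := hDb
      rw [h] at hub
      have : Nonempty (Fin n) := ⟨⟨0, hn0⟩⟩
      exact NormedSpace.unbounded_univ ℝ (E n) hub) hDv hx₀
    (γ := ENNReal.ofReal (ρ₁ ^ n * vb n)) (by simp; positivity)
  have hD₁v : volume D₁ ≠ ⊤ := (hD₁lt.trans hDv).ne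
  set m : ℝ := (volume D).toReal with hm
  set m₁ : ℝ := (volume D₁).toReal with hm₁
  have hmm : m₁ < m := (ENNReal.toReal_lt_toReal hD₁v hDv.ne).2 hD₁lt
  have hmm2 : m < m₁ + ρ₁ ^ n * vb n := by
    have h1 := (ENNReal.toReal_lt_toReal hDv.ne (by simp [hD₁v])).2 hD₁γ
    rw [ENNReal.toReal_add hD₁v ENNReal.ofReal_ne_top, ENNReal.toReal_ofReal (by positivity)] at h1
    exact h1
  -- number of scales and thickness
  obtain ⟨N, hNpos, hNη⟩ : ∃ N : ℕ, 0 < N ∧ A * 2 ^ (n - 1) / N ≤ η ^ 2 / 4 := by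
    obtain ⟨N, hN⟩ := exists_nat_gt (A * 2 ^ (n - 1) / (η ^ 2 / 4))
    have hN0 : (0 : ℝ) < N := lt_of_le_of_lt (by positivity) hN
    refine ⟨N, by exact_mod_cast hN0, ?_⟩
    rw [div_lt_iff₀ (by positivity)] at hN
    rw [div_le_iff₀ hN0]
    linarith
  set ε : ℝ := min (1 / 2 ^ N) (min (δ / 16 / 2 ^ N) ((m - m₁) / (2 * (A + 1)))) with hε
  have hε0 : 0 < ε := lt_min (by positivity) (lt_min (by positivity)
    (div_pos (by linarith) (by positivity)))
  have hε1 : 2 ^ N * ε ≤ 1 := by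
    have : ε ≤ 1 / 2 ^ N := min_le_left _ _
    rw [le_div_iff₀ (by positivity)] at this
    linarith
  have hεδ : 2 ^ N * ε ≤ δ / 16 := by
    have : ε ≤ δ / 16 / 2 ^ N := (min_le_right _ _).trans (min_le_left _ _)
    rw [le_div_iff₀ (by positivity)] at this
    linarith
  have hεm : ε ≤ (m - m₁) / (2 * (A + 1)) := (min_le_right _ _).trans (min_le_right _ _)
  clear_value ε m m₁
  have h2N : (1 : ℝ) ≤ 2 ^ N := one_le_pow₀ (by norm_num)
  have hεle1 : ε ≤ 1 := by nlinarith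
  have hεleδ : ε ≤ δ / 16 := by nlinarith
  obtain ⟨τ₁, H₁, hτ₁H, hτ₁c, hτ₁0, hτ₁1, hτ₁off, hE₁⟩ :=
    exists_thin_cutoff hdl hε0 hn hNpos hε1 hdb hAv hA0
  have hE₁' : nr H₁ ≤ η / 2 := le_of_sq_le_div4 hη (hE₁.trans hNη)
  set T : Set (E n) := {x | d x < ε} with hT
  have hTo : IsOpen T := isOpen_lt hdl.continuous continuous_const
  have hTv : (volume T).toReal < m - m₁ := by
    refine (hAv ε hε0 hεle1).trans_lt ?_
    have h1 : ε ^ (n - 1) ≤ ε := by
      obtain ⟨k, rfl⟩ := Nat.exists_eq_add_of_le hn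
      have : 3 + k - 1 = (k + 1) + 1 := by omega
      rw [this, pow_succ]
      exact mul_le_of_le_one_left hε0.le (pow_le_one₀ hε0.le hεle1)
    have h2 : A * ε ^ (n - 1) ≤ A * ((m - m₁) / (2 * (A + 1))) := by gcongr; linarith
    have h3 : A * ((m - m₁) / (2 * (A + 1))) < m - m₁ := by
      rw [mul_div_assoc', div_lt_iff₀ (by positivity)]
      nlinarith
    linarith
  have hx₀T : x₀ ∈ T := by
    simp only [hT, mem_ofPred_eq, hd]
    rw [infDist_zero_of_mem hx₀S]; exact hε0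
  have hTc : IsPreconnected T := by
    rw [hT, hdS]
    refine isPreconnected_of_forall x₀ fun y hy => ?_
    obtain ⟨z, hz, hy⟩ := mem_iUnion₂.1 hy
    refine ⟨thickening ε (segment ℝ x₀ z),
      subset_biUnion_of_mem (u := fun z => thickening ε (segment ℝ x₀ z)) hz, ?_, hy, ?_⟩
    · exact self_subset_thickening hε0 _ (left_mem_segment ℝ x₀ z)
    · exact ((convex_segment x₀ z).thickening ε).isPreconnected
  -- the family of domains
  set W : Set (E n) := D₁ ∪ T with hW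
  have hWv : volume W ≠ ⊤ :=
    (lt_of_le_of_lt (measure_union_le _ _) (ENNReal.add_lt_top.2
      ⟨lt_top_iff_ne_top.2 hD₁v, (hdb ε).measure_lt_top⟩)).ne
  set f : ℝ → ℝ := fun ρ => (volume (W ∪ ball z₁ ρ)).toReal with hf
  have hfin : ∀ ρ, volume (W ∪ ball z₁ ρ) ≠ ⊤ := fun ρ =>
    (lt_of_le_of_lt (measure_union_le _ _) (ENNReal.add_lt_top.2
      ⟨lt_top_iff_ne_top.2 hWv, measure_ball_lt_top⟩)).ne
  have hf0 : f 0 < m := by
    simp only [hf, ball_zero, union_empty, hW]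
    have h1 : (volume (D₁ ∪ T)).toReal ≤ m₁ + (volume T).toReal := by
      rw [hm₁, ← ENNReal.toReal_add hD₁v (hdb ε).measure_lt_top.ne]
      exact ENNReal.toReal_mono (by simp [hD₁v, (hdb ε).measure_lt_top.ne])
        (measure_union_le _ _)
    linarith
  have hf1 : m ≤ f ρ₁ := by
    have hdisj : Disjoint D₁ (ball z₁ ρ₁) := by
      rw [Set.disjoint_left]
      intro y hy hyb
      have h1 := hDr y (hD₁D hy)
      rw [mem_ball] at hyb
      have h2 := dist_triangle z₁ y x₀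
      rw [hz₁, dist_comm z₁ y] at h2
      rw [hR] at h2
      linarith
    have h1 : volume D₁ + volume (ball z₁ ρ₁) ≤ volume (W ∪ ball z₁ ρ₁) := by
      rw [← measure_union hdisj measurableSet_ball]
      exact measure_mono (union_subset_union_left _ subset_union_left)
    have h2 := ENNReal.toReal_mono (hfin ρ₁) h1
    rw [ENNReal.toReal_add hD₁v measure_ball_lt_top.ne, vol_ball _ hρ0.le hn0] at h2
    simp only [hf]
    linarith
  have hfc : ContinuousOn f (Icc 0 ρ₁) := by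
    apply continuousOn_of_dist_le' (g := fun ρ => ρ ^ n * vb n) (by fun_prop)
    have key : ∀ s ∈ Icc 0 ρ₁, ∀ t ∈ Icc 0 ρ₁, s ≤ t →
        0 ≤ f t - f s ∧ f t - f s ≤ t ^ n * vb n - s ^ n * vb n := by
      intro s hs t ht hst
      constructor
      · rw [sub_nonneg]
        exact ENNReal.toReal_mono (hfin t) (measure_mono
          (union_subset_union_right _ (ball_subset_ball hst)))
      · have h1 : W ∪ ball z₁ t ⊆ (W ∪ ball z₁ s) ∪ (ball z₁ t \ ball z₁ s) := by
          intro x hx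
          by_cases h2 : x ∈ ball z₁ s
          · exact Or.inl (Or.inr h2)
          · rcases hx with hx | hx
            · exact Or.inl (Or.inl hx)
            · exact Or.inr ⟨hx, h2⟩
        have h2 : volume (ball z₁ t \ ball z₁ s) = volume (ball z₁ t) - volume (ball z₁ s) :=
          measure_diff (ball_subset_ball hst) measurableSet_ball.nullMeasurableSet
            measure_ball_lt_top.ne
        have h3 : volume (W ∪ ball z₁ t)
            ≤ volume (W ∪ ball z₁ s) + (volume (ball z₁ t) - volume (ball z₁ s)) := by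
          rw [← h2]
          exact (measure_mono h1).trans (measure_union_le _ _)
        have h4 := ENNReal.toReal_mono (by
          simp [hfin s, measure_ball_lt_top.ne]) h3
        rw [ENNReal.toReal_add (hfin s) (by simp [measure_ball_lt_top.ne]),
          ENNReal.toReal_sub_of_le (measure_mono (ball_subset_ball hst)) measure_ball_lt_top.ne,
          vol_ball _ ht.1 hn0, vol_ball _ hs.1 hn0] at h4
        simp only [hf]
        linarith
    intro s hs t ht
    rcases le_total s t with hst | hst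
    · obtain ⟨h1, h2⟩ := key s hs t ht hst
      rw [abs_sub_comm, abs_of_nonneg h1, abs_sub_comm]
      exact h2.trans (le_abs_self _)
    · obtain ⟨h1, h2⟩ := key t ht s hs hst
      rw [abs_of_nonneg h1]
      exact h2.trans (le_abs_self _)
  obtain ⟨ρ, hρ, hfρ⟩ := intermediate_value_Icc hρ0.le hfc ⟨hf0.le, hf1⟩
  have hz₁T : z₁ ∈ T := by
    simp only [hT, mem_ofPred_eq, hd]
    rw [infDist_zero_of_mem (hzS z₁ (Finset.mem_insert_self _ _))]; exact hε0
  have hWc : IsPreconnected W := hD₁c.isPreconnected.union x₀ hx₀D₁ hx₀T hTc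
  refine ⟨W ∪ ball z₁ ρ, {x | d x ≤ ε} ∪ closedBall z₁ ρ₁,
    fun x => τ₁ x + cl ρ₁ (d₂ x), fun x => H₁ x + gradient (fun x => cl ρ₁ (d₂ x)) x,
    (hD₁o.union hTo).union isOpen_ball, ?_, ?_, ?_, ?_, ?_, hτ₁H.add hH₂, ?_, ?_, ?_, ?_, ?_⟩
  · refine ⟨⟨x₀, Or.inl (Or.inl hx₀D₁)⟩, ?_⟩
    rcases hρ.1.eq_or_lt with h0 | h0
    · rw [← h0, ball_zero, union_empty]; exact hWc
    · exact hWc.union z₁ (Or.inr hz₁T) (mem_ball_self h0) (convex_ball z₁ ρ).isPreconnected
  · exact ((hDb.subset hD₁D).union (hdb ε)).union isBounded_ball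
  · exact (ENNReal.toReal_eq_toReal_iff' (hfin ρ) hDv.ne).1 (hfρ.trans hm)
  · have hcl : IsClosed (closure D ∪ ({x | d x ≤ ε} ∪ closedBall z₁ ρ₁)) :=
      isClosed_closure.union ((isClosed_le hdl.continuous continuous_const).union
        isClosed_closedBall)
    apply closure_minimal _ hcl
    rintro x ((hx | hx) | hx)
    · exact Or.inl (subset_closure (hD₁D hx))
    · refine Or.inr (Or.inl ?_)
      have hx' : d x < ε := hx
      exact (mem_ofPred_eq ..).mpr hx'.le
    · exact Or.inr (Or.inr (ball_subset_closedBall (ball_subset_ball hρ.2 hx)))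
  · intro x hx
    obtain ⟨z, hz, hxz⟩ := mem_iUnion₂.1 (hZ₀c (mem_closedBall.2 hx))
    rw [mem_thickening_iff]
    refine ⟨z, Or.inl (Or.inr ?_), hxz⟩
    have hzZ : z ∈ Z := by
      rw [hZ, Finset.mem_insert]
      exact Or.inr (hZ₀f.mem_toFinset.2 hz)
    simp only [hT, mem_ofPred_eq, hd]
    rw [infDist_zero_of_mem (hzS z hzZ)]; exact hε0
  · exact hτ₁c.add (cl_lip hρ0 hd₂l).continuous
  · exact fun x => add_nonneg (hτ₁0 x) (cl_nonneg _ _)
  · rintro x (hx | hx)
    · have h1 := hτ₁1 x hx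
      have h2 := cl_nonneg ρ₁ (d₂ x)
      simp only
      linarith
    · have h1 := hτ₁0 x
      have h2 := cl_eq_one hρ0 (d := d₂ x) (mem_closedBall.1 hx)
      simp only
      linarith
  · intro x hx
    have h1 : τ₁ x = 0 := by
      apply hτ₁off
      by_contra h2
      have := hdR (not_le.1 h2)
      linarith
    have h2 : cl ρ₁ (d₂ x) = 0 := by
      apply cl_eq_zero hρ0
      have := dist_triangle x z₁ x₀
      simp only [hd₂]
      linarith
    simp only [h1, h2, add_zero]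
  · refine (nr_add_le hτ₁H.memLp_grad hH₂.memLp_grad).trans ?_
    linarith

end Pool.Agent.helper33.Insul
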