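import Mathlib
import Pool.Agent.helper33.Insul.Dom2

/-! Non-attainment for an abstract notion of '`φ ≥ 1` on `K`'. -/

set_option autoImplicit false
set_option linter.unusedSectionVars false
open MeasureTheory Metric Set Filter Topology
open scoped ENNReal ContDiff

namespace Pool.Agent.helper33.Insul

variable {n : ℕ}

/-- the insulation functional for a notion `Cls K` of '`φ ≥ 1` on `K`' -/
noncomputable def insulC (Cls : Set (E n) → (E n → ℝ) → (E n → E n) → Prop) (β δ : ℝ)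
    (D : Set (E n)) : ℝ≥0∞ :=
  ⨅ (φ : E n → ℝ) (G : E n → E n) (_ : Cls (closure D) φ G),
    (∫⁻ x in thickening δ D, ‖G x‖ₑ ^ 2) + ENNReal.ofReal β * surf (thickening δ D) φ G

structure GoodClass (Cls : Set (E n) → (E n → ℝ) → (E n → E n) → Prop) : Prop where
  obst : ∀ K, IsCompact K → Obst K (Cls K)
  mono : ∀ {K K' : Set (E n)} {φ G}, K' ⊆ K → Cls K φ G → Cls K' φ G
  up : ∀ {K : Set (E n)} {u p} {x₀ : E n} {R σ ε : ℝ}, IsCompact K → K ⊆ ball x₀ R → 0 < R →
    0 < σ → 0 < ε →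
    Cls K u p → (∀ᵐ x, 0 ≤ u x) → (∀ᵐ x, x ∉ ball x₀ R → u x = 0) →
    ∃ (u' : E n → ℝ) (p' : E n → E n), MemLp p' 2 volume ∧
      (∀ᵐ x, R + σ ≤ dist x x₀ → u' x = 0) ∧
      nr p' ≤ (1 + ε) * nr p + ε ∧
      ∀ (K₂ : Set (E n)) (τ : E n → ℝ) (H : E n → E n), IsH1 τ H → Continuous τ →
        (∀ x, 0 ≤ τ x) → (∀ x ∈ K₂, 1 ≤ τ x) →
        Cls (K ∪ K₂) (fun x => u' x + τ x) (fun x => p' x + H x)

theorem lintegral_eq_nr {G : E n → E n} (hG : MemLp G 2 volume) :
    ∫⁻ x, ‖G x‖ₑ ^ 2 = ENNReal.ofReal (nr G ^ 2) := by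
  rw [← eLpNorm_two_sq, ENNReal.ofReal_pow (nr_nonneg _)]
  congr 1
  exact (ENNReal.ofReal_toReal hG.2.ne).symm

/-- the surface term vanishes when `φ` vanishes outside `Ω` -/
theorem surf_eq_zero {Ω : Set (E n)} {φ : E n → ℝ} {G : E n → E n} (h : IsH1 φ G)
    (hoff : ∀ᵐ x, x ∉ Ω → φ x = 0) : surf Ω φ G = 0 := by
  unfold surf
  simp only [ENNReal.iSup_eq_zero]
  rintro X ⟨hX, hs, -⟩
  have h1 : ∫ x in Ω, divsq φ G X x = ∫ x, divsq φ G X x := by
    apply setIntegral_eq_integral_of_ae_compl_eq_zero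
    filter_upwards [hoff] with x hx hxΩ
    simp [divsq, hx hxΩ]
  have h2 : ∫ x in Ω, (φ x ^ 2 * vdiv X x + 2 * φ x * inner ℝ (G x) (X x)) = 0 :=
    h1.trans (integral_divsq h hX hs)
  rw [h2]; simp

theorem exists_eta {a b : ℝ} (ha : 0 < a) (hab : a ^ 2 < b) :
    ∃ η : ℝ, 0 < η ∧ ((1 + η) * a + η + η) ^ 2 < b := by
  have hc : Continuous fun η : ℝ => ((1 + η) * a + η + η) ^ 2 := by fun_prop
  have h1 : Tendsto (fun η : ℝ => ((1 + η) * a + η + η) ^ 2) (𝓝[>] 0) (𝓝 (a ^ 2)) := by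
    have := (hc.tendsto 0).mono_left (nhdsWithin_le_nhds (s := Ioi (0 : ℝ)))
    simpa using this
  obtain ⟨η, h2, h3⟩ := ((h1.eventually (gt_mem_nhds hab)).and
    (eventually_mem_nhdsWithin (a := (0 : ℝ)) (s := Ioi 0))).exists
  exact ⟨η, h3, h2⟩

theorem not_attained {Cls : Set (E n) → (E n → ℝ) → (E n → E n) → Prop} (hC : GoodClass Cls)
    (hn : 3 ≤ n) {β δ : ℝ} (hδ : 0 < δ) (hβ : 4 ^ (n + 4) / δ ≤ β) {D : Set (E n)}
    (hD : IsOpen D) (hc : IsConnected D) (hb : Bornology.IsBounded D) :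
    ∃ D' : Set (E n), IsOpen D' ∧ IsConnected D' ∧ Bornology.IsBounded D' ∧
      volume D' = volume D ∧ insulC Cls β δ D' < insulC Cls β δ D := by
  have hn0 : 0 < n := by omega
  obtain ⟨x₀, hx₀⟩ := hc.nonempty
  obtain ⟨r₀, hr, hDr⟩ : ∃ r₀ : ℝ, 0 < r₀ ∧ D ⊆ closedBall x₀ r₀ := by
    obtain ⟨r, hr⟩ := hb.subset_closedBall x₀
    exact ⟨max r 1, lt_max_of_lt_right one_pos, hr.trans (closedBall_subset_closedBall
      (le_max_left _ _))⟩
  set K := closure D with hKdef
  have hK : IsCompact K := hb.isCompact_closure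
  have hKn : K.Nonempty := ⟨x₀, subset_closure hx₀⟩
  have hKr : ∀ y ∈ K, dist y x₀ ≤ r₀ := fun y hy =>
    mem_closedBall.1 (closure_minimal hDr isClosed_closedBall hy)
  have hKv : 0 < (volume K).toReal := by
    apply ENNReal.toReal_pos _ hK.measure_lt_top.ne
    exact (lt_of_lt_of_le (hD.measure_pos _ ⟨x₀, hx₀⟩) (measure_mono subset_closure)).ne'
  set R := 5 * r₀ + 10 * δ with hR
  have hR0 : 0 < R := by positivity
  have hO := hC.obst K hK
  obtain ⟨u, p, hup, huoff, hel⟩ := hO.exists_min hn0 hK (x₀ := x₀) hR0 (fun y hy => by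
    rw [mem_ball]; have := hKr y hy; linarith)
  have hpot : IsPot K (Cls K) x₀ R u p := ⟨hO, hup, huoff, hel⟩
  have hpos := hpot.energy_pos hn0 hK hKv hr hδ
  have ha : 0 < nr p := by
    by_contra h
    rw [le_antisymm (not_lt.1 h) (nr_nonneg _)] at hpos
    norm_num at hpos
  have hc1 := cst_lt_one hpot hn0 hK hKn hr hδ hKr hKv
  have hc0 := cst_pos (n := n) hr hδ hKv
  have hlt : nr p ^ 2 < nr p ^ 2 / (1 - cst n r₀ δ (volume K).toReal) := by
    rw [lt_div_iff₀ (by linarith)]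
    nlinarith
  -- lower bound
  have hlow : ENNReal.ofReal (nr p ^ 2 / (1 - cst n r₀ δ (volume K).toReal))
      ≤ insulC Cls β δ D := by
    unfold insulC
    refine le_iInf fun φ => le_iInf fun G => le_iInf fun hφ => ?_
    have := hpot.energy_ge hn0 hK hKn hKv hr hδ hKr hβ hφ
    rwa [hKdef, thickening_closure] at this
  -- upper bound
  obtain ⟨η, hη, hηlt⟩ := exists_eta ha hlt
  obtain ⟨D', K₂, τ, H, hD'o, hD'c, hD'b, hD'v, hD'K, hD'th, hτH, hτc, hτ0, hτ1, hτoff, hH⟩ :=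
    exists_domain hn hD hc hx₀ hr hδ (fun y hy => mem_closedBall.1 (hDr hy)) hR hη
  obtain ⟨u', p', hp'm, hu'off, hp', hcls⟩ := hC.up (σ := δ / 8) (ε := η) hK
    (fun y hy => by rw [mem_ball]; have := hKr y hy; linarith) hR0 (by positivity)
    hη hup (hpot.nonneg hR0 hn0) huoff
  refine ⟨D', hD'o, hD'c, hD'b, hD'v, ?_⟩
  have hcl := hC.mono hD'K (hcls K₂ τ H hτH hτc hτ0 hτ1)
  have hH1 := (hC.obst _ hD'b.isCompact_closure).isH1 hcl
  have hsurf : surf (thickening δ D') (fun x => u' x + τ x) (fun x => p' x + H x) = 0 := by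
    apply surf_eq_zero hH1
    filter_upwards [hu'off] with x hx hxΩ
    have h1 : R + δ / 4 < dist x x₀ := by
      by_contra h
      exact hxΩ (hD'th x (not_lt.1 h))
    rw [hx (by linarith), hτoff x (by linarith), add_zero]
  have hup2 : insulC Cls β δ D' ≤ ENNReal.ofReal (((1 + η) * nr p + η + η) ^ 2) := by
    unfold insulC
    refine (iInf₂_le _ _).trans ((iInf_le _ hcl).trans ?_)
    rw [hsurf, mul_zero, add_zero]
    refine (lintegral_mono' Measure.restrict_le_self le_rfl).trans ?_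
    rw [lintegral_eq_nr hH1.memLp_grad]
    apply ENNReal.ofReal_le_ofReal
    have h1 := nr_add_le hp'm hτH.memLp_grad
    have h2 := nr_nonneg (fun x => p' x + H x)
    have h3 : nr (fun x => p' x + H x) ≤ (1 + η) * nr p + η + η := by linarith
    exact pow_le_pow_left₀ h2 h3 2
  refine lt_of_le_of_lt hup2 (lt_of_lt_of_le ?_ hlow)
  exact (ENNReal.ofReal_lt_ofReal_iff (lt_trans hpos hlt)).2 hηlt

/-! ### the almost everywhere version -/

/-- `φ ∈ H¹`, `φ ≥ 1` a.e. on `K` -/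
def ClsAE (K : Set (E n)) (φ : E n → ℝ) (G : E n → E n) : Prop :=
  IsH1 φ G ∧ ∀ᵐ x, x ∈ K → 1 ≤ φ x

theorem goodAE : GoodClass (ClsAE (n := n)) where
  obst := fun K _ =>
    { isH1 := fun h => h.1
      congr := fun h h1 h2 => ⟨h.1.congr h1 h2, by
        filter_upwards [h.2, h1] with x h3 h4 hx
        rw [← h4]; exact h3 hx⟩
      ge := fun h => h.2
      convex := fun h h' hs ht hst => ⟨(h.1.smul _).add (h'.1.smul _), by
        filter_upwards [h.2, h'.2] with x h3 h4 hx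
        nlinarith [h3 hx, h4 hx]⟩
      closed := fun h m1 m2 t1 t2 => ⟨isH1_of_tendsto (fun j => (h j).1) m1 m2 t1 t2, by
        obtain ⟨ns, -, hae⟩ := exists_seq_ae (fun j => (h j).1.memLp) m1 t1
        filter_upwards [hae, ae_all_iff.2 fun j => (h j).2] with x h3 h4 hx
        exact ge_of_tendsto h3 (Eventually.of_forall fun i => h4 _ hx)⟩
      comp := fun h hF hf hF0 hb hge => ⟨h.1.comp hF hf hF0 hb zero_le_one, by
        filter_upwards [h.2] with x h3 hx
        exact hge _ (h3 hx)⟩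
      base := fun hψ hs hge => ⟨isH1_C1 hψ hs, Eventually.of_forall hge⟩
      add := fun h hψ hs h0 => ⟨h.1.add (isH1_C1 hψ hs), by
        filter_upwards [h.2] with x h3 hx
        have := h3 hx
        have := h0 x hx
        linarith⟩
      sq := fun h hC hθ hs hge => ⟨h.1.sq_mul hC hθ hs, by
        filter_upwards [h.2] with x h3 hx
        have h4 := h3 hx
        have h5 := hge x hx
        have h6 := one_le_pow₀ h4 (n := 2)
        nlinarith⟩ }
  mono := fun hK h => ⟨h.1, by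
    filter_upwards [h.2] with x h3 hx
    exact h3 (hK hx)⟩
  up := by
    intro K u p x₀ R σ ε hK _ hR hσ hε h h0 hoff
    refine ⟨u, p, h.1.memLp_grad, ?_, ?_, ?_⟩
    · filter_upwards [hoff] with x hx hd
      apply hx
      rw [mem_ball]; linarith
    · have := nr_nonneg p
      nlinarith
    · intro K₂ τ H hτ _ hτ0 hτ1
      refine ⟨h.1.add hτ, ?_⟩
      filter_upwards [h0, h.2] with x h3 h4 hx
      rcases hx with hx | hx
      · have := h4 hx
        have := hτ0 x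
        linarith
      · have := hτ1 x hx
        linarith

end Pool.Agent.helper33.Insul
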