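import Mathlib
import Pool.Agent.helper33.Insul.Main

/-! The version with '`φ ≥ 1` on `K` in the sense of `H¹`'. -/

set_option autoImplicit false
set_option linter.unusedSectionVars false
open MeasureTheory Metric Set Filter Topology
open scoped ENNReal ContDiff

namespace Pool.Agent.helper33.Insul

variable {n : ℕ}

/-- convergence in `L²` -/
def L2t {F : Type*} [NormedAddCommGroup F] (f' : ℕ → E n → F) (f : E n → F) : Prop :=
  Tendsto (fun j => eLpNorm (f' j - f) 2 (volume : Measure (E n))) atTop (𝓝 0)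

theorem L2t.comp {F : Type*} [NormedAddCommGroup F] {f' : ℕ → E n → F} {f : E n → F}
    (h : L2t f' f) {ns : ℕ → ℕ} (hns : StrictMono ns) : L2t (fun j => f' (ns j)) f := by
  have h' : Tendsto (fun j => eLpNorm (f' j - f) 2 (volume : Measure (E n))) atTop (𝓝 0) := h
  exact h'.comp hns.tendsto_atTop

theorem L2t.add {F : Type*} [NormedAddCommGroup F] {f' g' : ℕ → E n → F} {f g : E n → F}
    (h : L2t f' f) (h2 : L2t g' g) (m1 : ∀ j, MemLp (f' j) 2 volume) (m1' : MemLp f 2 volume)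
    (m2 : ∀ j, MemLp (g' j) 2 volume) (m2' : MemLp g 2 volume) :
    L2t (fun j x => f' j x + g' j x) (fun x => f x + g x) := by
  have h3 := (Filter.Tendsto.add h h2 : Tendsto _ _ _)
  rw [add_zero] at h3
  refine tendsto_of_tendsto_of_tendsto_of_le_of_le tendsto_const_nhds h3 (fun j => bot_le) ?_
  intro j
  have e1 : (fun x => f' j x + g' j x) - (fun x => f x + g x) = (f' j - f) + (g' j - g) := by
    ext x; simp only [Pi.sub_apply, Pi.add_apply]; abel
  show eLpNorm ((fun x => f' j x + g' j x) - (fun x => f x + g x)) 2 volume ≤ _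
  rw [e1]
  exact eLpNorm_add_le ((m1 j).sub m1').aestronglyMeasurable ((m2 j).sub m2').aestronglyMeasurable
    (by norm_num)

theorem L2t_const {F : Type*} [NormedAddCommGroup F] (f : E n → F) : L2t (fun _ => f) f := by
  unfold L2t
  simp only [sub_self, eLpNorm_zero]
  exact tendsto_const_nhds

theorem L2t.smul {H : Type*} [NormedAddCommGroup H] [InnerProductSpace ℝ H]
    {f' : ℕ → E n → H} {f : E n → H} {a : E n → ℝ} {a' : ℕ → E n → ℝ} {C : ℝ}
    (h : L2t f' f) (hf : MemLp f 2 volume) (hf' : ∀ j, MemLp (f' j) 2 volume)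
    (ha' : ∀ j, AEStronglyMeasurable (a' j) volume)
    (hC : ∀ j, ∀ᵐ x, |a' j x| ≤ C) (hlim : ∀ᵐ x, Tendsto (fun j => a' j x) atTop (𝓝 (a x))) :
    L2t (fun j x => a' j x • f' j x) (fun x => a x • f x) :=
  tendsto_smul_L2 hf hf' ha' hC hlim h

theorem L2t.congr {F : Type*} [NormedAddCommGroup F] {f' : ℕ → E n → F} {f g : E n → F}
    (h : L2t f' f) (hfg : f =ᵐ[volume] g) : L2t f' g := by
  refine Filter.Tendsto.congr (fun j => ?_) h
  apply eLpNorm_congr_ae
  filter_upwards [hfg] with x hx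
  simp only [Pi.sub_apply, hx]

/-- `φ ∈ H¹(ℝⁿ)` and `φ ≥ 1` on `K` in the sense of `H¹(ℝⁿ)`: `φ` is the limit in `H¹(ℝⁿ)` of
continuous functions of `H¹(ℝⁿ)` that are `≥ 1` at every point of `K` -/
def ClsQE (K : Set (E n)) (φ : E n → ℝ) (G : E n → E n) : Prop :=
  IsH1 φ G ∧ ∃ (φ' : ℕ → E n → ℝ) (G' : ℕ → E n → E n),
    (∀ j, IsH1 (φ' j) (G' j) ∧ Continuous (φ' j) ∧ ∀ x ∈ K, 1 ≤ φ' j x) ∧
    Tendsto (fun j => eLpNorm (φ' j - φ) 2 volume) atTop (𝓝 0) ∧
    Tendsto (fun j => eLpNorm (G' j - G) 2 volume) atTop (𝓝 0)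

theorem ClsQE.sub {K : Set (E n)} {φ : E n → ℝ} {G : E n → E n} (h : ClsQE K φ G) :
    ∃ (φ' : ℕ → E n → ℝ) (G' : ℕ → E n → E n),
    (∀ j, IsH1 (φ' j) (G' j) ∧ Continuous (φ' j) ∧ ∀ x ∈ K, 1 ≤ φ' j x) ∧
    L2t φ' φ ∧ L2t G' G ∧ ∀ᵐ x, Tendsto (fun j => φ' j x) atTop (𝓝 (φ x)) := by
  obtain ⟨h1, φ', G', h2, h3, h4⟩ := h
  obtain ⟨ns, hns, hae⟩ := exists_seq_ae (fun j => (h2 j).1.memLp) h1.memLp h3
  exact ⟨fun j => φ' (ns j), fun j => G' (ns j), fun j => h2 _, L2t.comp h3 hns,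
    L2t.comp h4 hns, hae⟩

theorem ClsQE.comp {K : Set (E n)} {φ : E n → ℝ} {G : E n → E n} (h : ClsQE K φ G) {F f : ℝ → ℝ}
    (hF : ∀ t, HasDerivAt F (f t) t) (hf : Continuous f) (hF0 : F 0 = 0) {C : ℝ} (hC0 : 0 ≤ C)
    (hC : ∀ t, |f t| ≤ C) (hge : ∀ t, 1 ≤ t → 1 ≤ F t) :
    ClsQE K (fun x => F (φ x)) (fun x => f (φ x) • G x) := by
  obtain ⟨φ', G', h2, h3, h4, hae⟩ := h.sub
  have hFc : Continuous F := continuous_iff_continuousAt.2 fun t => (hF t).continuousAt
  obtain ⟨l1, l2⟩ := comp_tendsto h.1.memLp h.1.memLp_grad (fun j => (h2 j).1.memLp)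
    (fun j => (h2 j).1.memLp_grad) h3 h4 hae hF hf hC hC0
  exact ⟨h.1.comp hF hf hF0 hC hC0, fun j x => F (φ' j x), fun j x => f (φ' j x) • G' j x,
    fun j => ⟨(h2 j).1.comp hF hf hF0 hC hC0, hFc.comp (h2 j).2.1,
      fun x hx => hge _ ((h2 j).2.2 x hx)⟩, l1, l2⟩

/-! ### truncation at level `c` -/

noncomputable def Tc (c t : ℝ) : ℝ := c + gT ((-c - gT (-t - c)) - c)
noncomputable def tc (c t : ℝ) : ℝ := gT' ((-c - gT (-t - c)) - c) * gT' (-t - c)

theorem Tc_hasDerivAt (c t : ℝ) : HasDerivAt (Tc c) (tc c t) t := by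
  have h0 : HasDerivAt (fun t : ℝ => -t - c) (-1) t := by
    simpa using (hasDerivAt_neg t).sub_const c
  have h1 : HasDerivAt (fun t => gT (-t - c)) (gT' (-t - c) * -1) t :=
    (gT_hasDerivAt _).comp t h0
  have h2 : HasDerivAt (fun t => (-c - gT (-t - c)) - c) (gT' (-t - c)) t := by
    simpa using (h1.const_sub (-c)).sub_const c
  have h3 : HasDerivAt (fun t => gT ((-c - gT (-t - c)) - c)) (tc c t) t :=
    (gT_hasDerivAt _).comp t h2
  exact h3.const_add c

theorem tc_continuous (c : ℝ) : Continuous (tc c) := by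
  unfold tc
  exact (gT'_continuous.comp ((continuous_const.sub (gT_continuous.comp
    (by fun_prop))).sub continuous_const)).mul (gT'_continuous.comp (by fun_prop))

theorem tc_abs (c t : ℝ) : |tc c t| ≤ 1 := by
  unfold tc
  rw [abs_of_pos (mul_pos (gT'_pos _) (gT'_pos _))]
  nlinarith [gT'_pos ((-c - gT (-t - c)) - c), gT'_pos (-t - c),
    gT'_le_one ((-c - gT (-t - c)) - c), gT'_le_one (-t - c)]

theorem Tc_eq {c t : ℝ} (ht : |t| ≤ c) : Tc c t = t := by
  have := abs_le.1 ht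
  unfold Tc
  rw [(gT_eq_iff (-t - c)).2 (by linarith), (gT_eq_iff _).2 (by linarith)]
  ring

theorem Tc_zero {c : ℝ} (hc : 0 ≤ c) : Tc c 0 = 0 := Tc_eq (by simpa using hc)

theorem Tc_ge {c t : ℝ} (hc : 1 ≤ c) (ht : 1 ≤ t) : 1 ≤ Tc c t := by
  unfold Tc
  rw [(gT_eq_iff (-t - c)).2 (by linarith)]
  rcases le_or_gt t c with h | h
  · rw [(gT_eq_iff _).2 (by linarith)]; linarith
  · have := gT_nonneg (s := (-c - (-t - c)) - c) (by linarith)
    linarith

theorem Tc_abs {c : ℝ} (hc : 0 ≤ c) (t : ℝ) : |Tc c t| ≤ c + 1 := by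
  unfold Tc
  have h1 := gT_lt_one (-t - c)
  rw [abs_le]
  constructor
  · rcases le_or_gt ((-c - gT (-t - c)) - c) 0 with h | h
    · rw [(gT_eq_iff _).2 h]; linarith
    · have := gT_nonneg h.le; linarith
  · have := gT_lt_one ((-c - gT (-t - c)) - c); linarith

theorem grad_of_zero {Γ : E n → E n} (h0 : IsH1 (fun _ : E n => (0 : ℝ)) Γ) :
    Γ =ᵐ[volume] fun _ => 0 := by
  have hmoll : ∀ j, moll (ker n j) Γ = 0 := by
    intro j
    rw [← h0.gradient_moll]
    have : moll (ker n j) (fun _ : E n => (0 : ℝ)) = fun _ => 0 := by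
      ext x; rw [moll_apply']; simp
    rw [this]
    ext1 x
    exact gradient_fun_const x 0
  have h8 := h0.tendsto_moll_grad
  simp_rw [hmoll, zero_sub, eLpNorm_neg] at h8
  have h9 : eLpNorm Γ 2 (volume : Measure (E n)) = 0 := tendsto_nhds_unique tendsto_const_nhds h8
  exact (eLpNorm_eq_zero_iff h0.memLp_grad.aestronglyMeasurable (by norm_num)).1 h9

theorem IsH1.grad_unique {φ : E n → ℝ} {G G' : E n → E n} (h : IsH1 φ G) (h' : IsH1 φ G') :
    G =ᵐ[volume] G' := by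
  have h0 : IsH1 (fun _ : E n => (0 : ℝ)) (fun x => G x - G' x) :=
    (h.sub h').congr (Eventually.of_forall fun x => sub_self _) (ae_eq_refl _)
  filter_upwards [grad_of_zero h0] with x hx
  exact sub_eq_zero.1 hx

set_option maxHeartbeats 2000000 in
theorem qe_sq {K : Set (E n)} {φ : E n → ℝ} {G : E n → E n} (h : ClsQE K φ G) {C : ℝ}
    {θ : E n → ℝ} (hC : ∀ᵐ x, |φ x| ≤ C) (hθ : ContDiff ℝ 1 θ) (hs : HasCompactSupport θ)
    (hge : ∀ x ∈ K, 1 ≤ θ x) :
    ClsQE K (fun x => θ x * φ x ^ 2) (fun x => (2 * θ x * φ x) • G x + φ x ^ 2 • gradient θ x) := by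
  set c := max C 1 with hc
  have hc1 : 1 ≤ c := le_max_right _ _
  have hc0 : 0 ≤ c := by linarith
  have hφc : ∀ᵐ x, |φ x| ≤ c := hC.mono fun x hx => hx.trans (le_max_left _ _)
  have hT := h.comp (Tc_hasDerivAt c) (tc_continuous c) (Tc_zero hc0) zero_le_one (tc_abs c)
    (fun t ht => Tc_ge hc1 ht)
  obtain ⟨φ', G', h2, h3, h4, hae⟩ := h.sub
  have hTc : Continuous (Tc c) := continuous_iff_continuousAt.2 fun t =>
    (Tc_hasDerivAt c t).continuousAt
  obtain ⟨l1, l2⟩ := comp_tendsto h.1.memLp h.1.memLp_grad (fun j => (h2 j).1.memLp)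
    (fun j => (h2 j).1.memLp_grad) h3 h4 hae (Tc_hasDerivAt c) (tc_continuous c) (tc_abs c)
    zero_le_one
  have hψ : ∀ j, IsH1 (fun x => Tc c (φ' j x)) (fun x => tc c (φ' j x) • G' j x) := fun j =>
    (h2 j).1.comp (Tc_hasDerivAt c) (tc_continuous c) (Tc_zero hc0) (tc_abs c) zero_le_one
  -- the limits are `φ`, `G`
  have e1 : (fun x => Tc c (φ x)) =ᵐ[volume] φ := hφc.mono fun x hx => Tc_eq hx
  -- the derivative: work with the gradient `tc c (φ) • G`
  have hφ2 : IsH1 φ (fun x => tc c (φ x) • G x) := hT.1.congr e1 (ae_eq_refl _)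
  obtain ⟨Cθ, hCθ⟩ := hθ.continuous.bounded_above_of_compact_support hs
  have hCθ0 : 0 ≤ Cθ := (norm_nonneg _).trans (hCθ 0)
  have hgθ : MemLp (gradient θ) 2 volume := memLp_cc (continuous_gradient hθ) (gradient_cs hs)
  have hθm : MemLp θ 2 volume := memLp_cc hθ.continuous hs
  have hlimT : ∀ᵐ x, Tendsto (fun j => Tc c (φ' j x)) atTop (𝓝 (φ x)) := by
    filter_upwards [hae, e1] with x h5 h6
    rw [← h6]
    exact (hTc.tendsto _).comp h5
  have mψ : ∀ j, AEStronglyMeasurable (fun x => Tc c (φ' j x)) (volume : Measure (E n)) :=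
    fun j => (hTc.comp (h2 j).2.1).aestronglyMeasurable
  -- uniqueness of weak gradients is avoided by showing the `L²` limit of the gradients is `G`
  have hGG : (fun x => tc c (φ x) • G x) =ᵐ[volume] G := hφ2.grad_unique h.1
  refine ⟨h.1.sq_mul hC hθ hs, fun j x => θ x * Tc c (φ' j x) ^ 2,
    fun j x => (2 * θ x * Tc c (φ' j x)) • (tc c (φ' j x) • G' j x)
      + Tc c (φ' j x) ^ 2 • gradient θ x, fun j => ⟨?_, ?_, ?_⟩, ?_, ?_⟩
  · exact (hψ j).sq_mul (Eventually.of_forall fun x => Tc_abs hc0 _) hθ hs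
  · exact hθ.continuous.mul ((hTc.comp (h2 j).2.1).pow 2)
  · intro x hx
    have h5 := hge x hx
    have h6 := Tc_ge hc1 ((h2 j).2.2 x hx)
    have h7 := one_le_pow₀ h6 (n := 2)
    nlinarith
  · -- convergence of the functions
    have key := (L2t_const θ).smul (a := fun x => φ x ^ 2) (a' := fun j x => Tc c (φ' j x) ^ 2)
      (C := (c + 1) ^ 2) hθm (fun _ => hθm) (fun j => (mψ j).pow 2)
      (fun j => Eventually.of_forall fun x => by
        rw [abs_pow]; exact pow_le_pow_left₀ (abs_nonneg _) (Tc_abs hc0 _) 2)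
      (hlimT.mono fun x hx => hx.pow 2)
    refine Filter.Tendsto.congr (fun j => ?_) key
    congr 1
    ext x
    simp only [Pi.sub_apply, smul_eq_mul]; ring
  · have k1 := L2t.smul (f' := fun j x => tc c (φ' j x) • G' j x)
      (f := fun x => tc c (φ x) • G x) (a := fun x => 2 * θ x * φ x)
      (a' := fun j x => 2 * θ x * Tc c (φ' j x)) (C := 2 * Cθ * (c + 1)) l2 hT.1.memLp_grad
      (fun j => (hψ j).memLp_grad)
      (fun j => (hθ.continuous.aestronglyMeasurable.const_mul 2).mul (mψ j))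
      (fun j => Eventually.of_forall fun x => by
        rw [abs_mul, abs_mul, abs_two]
        have h5 := hCθ x
        rw [Real.norm_eq_abs] at h5
        have h6 := Tc_abs hc0 (φ' j x)
        gcongr)
      (hlimT.mono fun x hx => hx.const_mul _)
    have k2 := (L2t_const (gradient θ)).smul (a := fun x => φ x ^ 2)
      (a' := fun j x => Tc c (φ' j x) ^ 2)
      (C := (c + 1) ^ 2) hgθ (fun _ => hgθ) (fun j => (mψ j).pow 2)
      (fun j => Eventually.of_forall fun x => by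
        rw [abs_pow]; exact pow_le_pow_left₀ (abs_nonneg _) (Tc_abs hc0 _) 2)
      (hlimT.mono fun x hx => hx.pow 2)
    have m2 : ∀ {a : E n → ℝ}, AEStronglyMeasurable a (volume : Measure (E n)) →
        (∀ᵐ x, |a x| ≤ c + 1) → MemLp (fun x => a x ^ 2 • gradient θ x) 2 volume := by
      intro a ha hab
      refine memLp_bdd_smul (C := (c + 1) ^ 2) (ha.pow 2) (hab.mono fun x hx => ?_) hgθ
      rw [abs_pow]; exact pow_le_pow_left₀ (abs_nonneg _) hx 2
    have m1 : ∀ {a : E n → ℝ} {Γ : E n → E n}, AEStronglyMeasurable a (volume : Measure (E n)) →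
        (∀ᵐ x, |a x| ≤ c + 1) → MemLp Γ 2 volume →
        MemLp (fun x => (2 * θ x * a x) • Γ x) 2 volume := by
      intro a Γ ha hab hΓ
      refine memLp_bdd_smul (C := 2 * Cθ * (c + 1))
        ((hθ.continuous.aestronglyMeasurable.const_mul 2).mul ha) (hab.mono fun x hx => ?_) hΓ
      rw [abs_mul, abs_mul, abs_two]
      have h5 := hCθ x
      rw [Real.norm_eq_abs] at h5
      gcongr
    have hφb : ∀ᵐ x, |φ x| ≤ c + 1 := hφc.mono fun x hx => by linarith
    have k3 := k1.add k2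
      (fun j => m1 (mψ j) (Eventually.of_forall fun x => Tc_abs hc0 _) (hψ j).memLp_grad)
      (m1 h.1.memLp.aestronglyMeasurable hφb hT.1.memLp_grad)
      (fun j => m2 (mψ j) (Eventually.of_forall fun x => Tc_abs hc0 _))
      (m2 h.1.memLp.aestronglyMeasurable hφb)
    refine k3.congr ?_
    filter_upwards [hGG] with x hx
    rw [hx]

end Pool.Agent.helper33.Insul
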