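import Mathlib
import Pool.Agent.helper33.Insul.QE

/-! The version with '`φ ≥ 1` on `K` in the sense of `H¹`', continued. -/

set_option autoImplicit false
set_option linter.unusedSectionVars false
open MeasureTheory Metric Set Filter Topology
open scoped ENNReal ContDiff

namespace Pool.Agent.helper33.Insul

variable {n : ℕ}

theorem L2t.const_smul {H : Type*} [NormedAddCommGroup H] [InnerProductSpace ℝ H]
    {f' : ℕ → E n → H} {f : E n → H} (h : L2t f' f) (m : MemLp f 2 volume)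
    (m' : ∀ j, MemLp (f' j) 2 volume) (c : ℝ) :
    L2t (fun j x => c • f' j x) (fun x => c • f x) :=
  h.smul (a := fun _ => c) (a' := fun _ _ => c) (C := |c|) m m'
    (fun _ => aestronglyMeasurable_const) (fun _ => Eventually.of_forall fun _ => le_rfl)
    (Eventually.of_forall fun _ => tendsto_const_nhds)

theorem qe_ge {K : Set (E n)} {φ : E n → ℝ} {G : E n → E n} (h : ClsQE K φ G) :
    ∀ᵐ x, x ∈ K → 1 ≤ φ x := by
  obtain ⟨φ', G', h2, -, -, hae⟩ := h.sub
  filter_upwards [hae] with x hx hxK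
  exact ge_of_tendsto hx (Eventually.of_forall fun j => (h2 j).2.2 x hxK)

theorem qe_closed {K : Set (E n)} {φ : E n → ℝ} {G : E n → E n} {φ' : ℕ → E n → ℝ}
    {G' : ℕ → E n → E n} (h : ∀ j, ClsQE K (φ' j) (G' j)) (m1 : MemLp φ 2 volume)
    (m2 : MemLp G 2 volume) (t1 : Tendsto (fun j => eLpNorm (φ' j - φ) 2 volume) atTop (𝓝 0))
    (t2 : Tendsto (fun j => eLpNorm (G' j - G) 2 volume) atTop (𝓝 0)) : ClsQE K φ G := by
  refine ⟨isH1_of_tendsto (fun j => (h j).1) m1 m2 t1 t2, ?_⟩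
  have key : ∀ j : ℕ, ∃ (ψ : E n → ℝ) (Γ : E n → E n),
      (IsH1 ψ Γ ∧ Continuous ψ ∧ ∀ x ∈ K, 1 ≤ ψ x) ∧
      eLpNorm (ψ - φ' j) 2 volume ≤ ENNReal.ofReal (1 / ((j : ℝ) + 1)) ∧
      eLpNorm (Γ - G' j) 2 volume ≤ ENNReal.ofReal (1 / ((j : ℝ) + 1)) := by
    intro j
    obtain ⟨-, a, b, hab, l1, l2⟩ := h j
    have hpos : (0 : ℝ≥0∞) < ENNReal.ofReal (1 / ((j : ℝ) + 1)) := by
      rw [ENNReal.ofReal_pos]; positivity
    obtain ⟨k, hk1, hk2⟩ := ((l1.eventually (ge_mem_nhds hpos)).and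
      (l2.eventually (ge_mem_nhds hpos))).exists
    exact ⟨a k, b k, hab k, hk1, hk2⟩
  choose ψ Γ hψ hψ1 hψ2 using key
  have hlim : Tendsto (fun j : ℕ => ENNReal.ofReal (1 / ((j : ℝ) + 1))) atTop (𝓝 0) := by
    have := ENNReal.tendsto_ofReal tendsto_one_div_add_atTop_nhds_zero_nat
    simpa using this
  refine ⟨ψ, Γ, hψ, ?_, ?_⟩
  · have h3 := hlim.add t1
    rw [add_zero] at h3
    refine tendsto_of_tendsto_of_tendsto_of_le_of_le tendsto_const_nhds h3 (fun j => bot_le) ?_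
    intro j
    have e1 : ψ j - φ = (ψ j - φ' j) + (φ' j - φ) := by abel
    show eLpNorm (ψ j - φ) 2 volume ≤ _
    rw [e1]
    refine (eLpNorm_add_le ((hψ j).1.memLp.sub (h j).1.memLp).aestronglyMeasurable
      ((h j).1.memLp.sub m1).aestronglyMeasurable (by norm_num)).trans ?_
    exact add_le_add (hψ1 j) le_rfl
  · have h3 := hlim.add t2
    rw [add_zero] at h3
    refine tendsto_of_tendsto_of_tendsto_of_le_of_le tendsto_const_nhds h3 (fun j => bot_le) ?_
    intro j
    have e1 : Γ j - G = (Γ j - G' j) + (G' j - G) := by abel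
    show eLpNorm (Γ j - G) 2 volume ≤ _
    rw [e1]
    refine (eLpNorm_add_le ((hψ j).1.memLp_grad.sub (h j).1.memLp_grad).aestronglyMeasurable
      ((h j).1.memLp_grad.sub m2).aestronglyMeasurable (by norm_num)).trans ?_
    exact add_le_add (hψ2 j) le_rfl

theorem qe_convex {K : Set (E n)} {φ ψ : E n → ℝ} {G H : E n → E n} (h1 : ClsQE K φ G)
    (h2 : ClsQE K ψ H) {s t : ℝ} (hs : 0 ≤ s) (ht : 0 ≤ t) (hst : s + t = 1) :
    ClsQE K (fun x => s * φ x + t * ψ x) (fun x => s • G x + t • H x) := by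
  obtain ⟨a1, φ', G', b1, c1, d1⟩ := h1
  obtain ⟨a2, ψ', H', b2, c2, d2⟩ := h2
  refine ⟨(a1.smul s).add (a2.smul t), fun j x => s * φ' j x + t * ψ' j x,
    fun j x => s • G' j x + t • H' j x, fun j => ⟨((b1 j).1.smul s).add ((b2 j).1.smul t),
      (continuous_const.mul (b1 j).2.1).add (continuous_const.mul (b2 j).2.1), fun x hx => ?_⟩,
    ?_, ?_⟩
  · nlinarith [(b1 j).2.2 x hx, (b2 j).2.2 x hx]
  · exact L2t.add (L2t.const_smul c1 a1.memLp (fun j => (b1 j).1.memLp) s)
      (L2t.const_smul c2 a2.memLp (fun j => (b2 j).1.memLp) t)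
      (fun j => (b1 j).1.memLp.const_smul s) (a1.memLp.const_smul s)
      (fun j => (b2 j).1.memLp.const_smul t) (a2.memLp.const_smul t)
  · exact L2t.add (L2t.const_smul d1 a1.memLp_grad (fun j => (b1 j).1.memLp_grad) s)
      (L2t.const_smul d2 a2.memLp_grad (fun j => (b2 j).1.memLp_grad) t)
      (fun j => (b1 j).1.memLp_grad.const_smul s) (a1.memLp_grad.const_smul s)
      (fun j => (b2 j).1.memLp_grad.const_smul t) (a2.memLp_grad.const_smul t)

theorem obstQE (K : Set (E n)) : Obst K (ClsQE K) where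
  isH1 := fun h => h.1
  congr := fun {φ G φ' G'} h h1 h2 => by
    obtain ⟨a, b, c, d, e, f⟩ := h
    exact ⟨a.congr h1 h2, b, c, d, L2t.congr e h1, L2t.congr f h2⟩
  ge := fun h => qe_ge h
  convex := fun h h' hs ht hst => qe_convex h h' hs ht hst
  closed := fun h m1 m2 t1 t2 => qe_closed h m1 m2 t1 t2
  comp := fun h hF hf hF0 hb hge => h.comp hF hf hF0 zero_le_one hb hge
  base := fun {ψ} hψ hs hge => ⟨isH1_C1 hψ hs, fun _ => ψ, fun _ => gradient ψ,
    fun _ => ⟨isH1_C1 hψ hs, hψ.continuous, hge⟩, L2t_const _, L2t_const _⟩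
  add := fun {φ G ψ} h hψ hs h0 => by
    obtain ⟨a, b, c, d, e, f⟩ := h
    have hH := isH1_C1 hψ hs
    refine ⟨a.add hH, fun j x => b j x + ψ x, fun j x => c j x + gradient ψ x,
      fun j => ⟨(d j).1.add hH, (d j).2.1.add hψ.continuous, fun x hx => ?_⟩, ?_, ?_⟩
    · have h1 := (d j).2.2 x hx
      have h2 := h0 x hx
      linarith
    · exact L2t.add e (L2t_const ψ) (fun j => (d j).1.memLp) a.memLp (fun _ => hH.memLp) hH.memLp
    · exact L2t.add f (L2t_const (gradient ψ)) (fun j => (d j).1.memLp_grad) a.memLp_grad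
        (fun _ => hH.memLp_grad) hH.memLp_grad
  sq := fun h hC hθ hs hge => qe_sq h hC hθ hs hge

/-! ### nonnegative approximations -/

/-- `C¹` function vanishing on `(-∞, 0]`, `≥ 1` on `[1, ∞)`, with derivative in `[0, 1 + b]` -/
noncomputable def hb (b t : ℝ) : ℝ := (1 + b) * (t - b * gT (t / b))
noncomputable def hb' (b t : ℝ) : ℝ := (1 + b) * (1 - gT' (t / b))

theorem hb_hasDerivAt {b : ℝ} (hb0 : 0 < b) (t : ℝ) : HasDerivAt (hb b) (hb' b t) t := by
  have h1 : HasDerivAt (fun t : ℝ => t / b) (1 / b) t := (hasDerivAt_id t).div_const b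
  have h2 : HasDerivAt (fun t => gT (t / b)) (gT' (t / b) * (1 / b)) t :=
    (gT_hasDerivAt _).comp t h1
  have h3 : HasDerivAt (fun t => t - b * gT (t / b)) (1 - b * (gT' (t / b) * (1 / b))) t :=
    (hasDerivAt_id t).sub (h2.const_mul b)
  have h4 := h3.const_mul (1 + b)
  have e : (1 + b) * (1 - b * (gT' (t / b) * (1 / b))) = hb' b t := by
    unfold hb'; field_simp
  rw [e] at h4
  exact h4

theorem hb'_continuous (b : ℝ) : Continuous (hb' b) := by
  unfold hb'
  exact continuous_const.mul (continuous_const.sub (gT'_continuous.comp (by fun_prop)))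

theorem hb'_abs {b : ℝ} (hb0 : 0 < b) (t : ℝ) : |hb' b t| ≤ 1 + b := by
  unfold hb'
  have h1 := gT'_pos (t / b)
  have h2 := gT'_le_one (t / b)
  rw [abs_of_nonneg (by
    apply mul_nonneg (by linarith); linarith)]
  nlinarith

theorem hb_zero {b : ℝ} (t : ℝ) (hb0 : 0 < b) (ht : t ≤ 0) : hb b t = 0 := by
  unfold hb
  have h1 : t / b ≤ 0 := div_nonpos_of_nonpos_of_nonneg ht hb0.le
  rw [(gT_eq_iff _).2 h1]; field_simp; ring

theorem hb_form {b : ℝ} {t : ℝ} (hb0 : 0 < b) (ht : 0 < t) : hb b t = (1 + b) * (t ^ 2 / (t + b)) := by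
  unfold hb gT
  rw [if_neg (not_le.2 (by positivity))]
  field_simp
  ring

theorem hb_nonneg {b : ℝ} (hb0 : 0 < b) (t : ℝ) : 0 ≤ hb b t := by
  rcases le_or_gt t 0 with h | h
  · rw [hb_zero t hb0 h]
  · rw [hb_form hb0 h]; positivity

theorem hb_ge {b t : ℝ} (hb0 : 0 < b) (ht : 1 ≤ t) : 1 ≤ hb b t := by
  rw [hb_form hb0 (by linarith), mul_div_assoc', le_div_iff₀ (by linarith)]
  have h1 : t ≤ t ^ 2 := by nlinarith
  have h2 : 1 ≤ t ^ 2 := by linarith
  nlinarith [mul_le_mul_of_nonneg_left h2 hb0.le]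

theorem hb_continuous {b : ℝ} (hb0 : 0 < b) : Continuous (hb b) :=
  continuous_iff_continuousAt.2 fun t => (hb_hasDerivAt hb0 t).continuousAt

theorem L2t.nr {F : Type*} [NormedAddCommGroup F] {f' : ℕ → E n → F} {f : E n → F}
    (h : L2t f' f) : Tendsto (fun j => nr (fun x => f' j x - f x)) atTop (𝓝 0) := by
  have h1 := (ENNReal.tendsto_toReal ENNReal.zero_ne_top).comp
    (h : Tendsto (fun j => eLpNorm (f' j - f) 2 (volume : Measure (E n))) atTop (𝓝 0))
  rw [ENNReal.toReal_zero] at h1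
  exact h1

theorem qe_up {K : Set (E n)} {u : E n → ℝ} {p : E n → E n} {x₀ : E n} {R σ ε : ℝ}
    (hKR : K ⊆ ball x₀ R) (hσ : 0 < σ) (hε : 0 < ε) (h : ClsQE K u p)
    (hoff : ∀ᵐ x, x ∉ ball x₀ R → u x = 0) :
    ∃ (u' : E n → ℝ) (p' : E n → E n), MemLp p' 2 volume ∧
      (∀ᵐ x, R + σ ≤ dist x x₀ → u' x = 0) ∧
      nr p' ≤ (1 + ε) * nr p + ε ∧
      ∀ (K₂ : Set (E n)) (τ : E n → ℝ) (H : E n → E n), IsH1 τ H → Continuous τ →
        (∀ x, 0 ≤ τ x) → (∀ x ∈ K₂, 1 ≤ τ x) →
        ClsQE (K ∪ K₂) (fun x => u' x + τ x) (fun x => p' x + H x) := by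
  obtain ⟨φ', G', h2, h3, h4, -⟩ := h.sub
  obtain ⟨χ, hχ, hχs, hχ1, hχ0, hχn, hχl⟩ := exists_cutoff (A := closedBall x₀ R)
    (B := ball x₀ (R + σ)) isClosed_closedBall isOpen_ball isBounded_ball
    (closedBall_subset_ball (by linarith))
  have hχc1 : ContDiff ℝ 1 χ := hχ.of_le (by simp)
  obtain ⟨D, hD⟩ := (continuous_gradient hχc1).bounded_above_of_compact_support (gradient_cs hχs)
  have hD0 : 0 ≤ D := (norm_nonneg _).trans (hD x₀)
  -- the gradient of the cutoff vanishes in the ball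
  have hg0 : ∀ x ∈ ball x₀ R, gradient χ x = 0 := by
    intro x hx
    have e : χ =ᶠ[𝓝 x] fun _ => (1 : ℝ) := by
      filter_upwards [isOpen_ball.mem_nhds hx] with y hy using hχ1 y (ball_subset_closedBall hy)
    rw [e.gradient_eq]
    exact gradient_fun_const x 1
  have hlim : Tendsto (fun j => (1 + ε) * (nr (fun x => G' j x - p x)
      + D * nr (fun x => φ' j x - u x))) atTop (𝓝 0) := by
    have := ((L2t.nr h4).add ((L2t.nr h3).const_mul D)).const_mul (1 + ε)
    simpa using this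
  obtain ⟨j, hj⟩ := (hlim.eventually (gt_mem_nhds hε)).exists
  set ψ : E n → ℝ := fun x => χ x * φ' j x with hψ
  set W : E n → E n := fun x => χ x • G' j x + φ' j x • gradient χ x with hW
  have hψW : IsH1 ψ W := (h2 j).1.mul_C1 hχc1 hχs
  have hup : IsH1 (fun x => hb ε (ψ x)) (fun x => hb' ε (ψ x) • W x) :=
    hψW.comp (hb_hasDerivAt hε) (hb'_continuous ε) (hb_zero 0 hε le_rfl) (hb'_abs hε)
      (by linarith)
  have hmG : MemLp (fun x => χ x • G' j x) 2 volume :=
    memLp_bdd_smul hχ.continuous.aestronglyMeasurable (C := 1)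
      (Eventually.of_forall fun x => by rw [abs_of_nonneg (hχn x)]; exact hχl x)
      (h2 j).1.memLp_grad
  have hmφ : MemLp (fun x => φ' j x • gradient χ x) 2 volume := by
    refine (h2 j).1.memLp.of_le_mul (c := D)
      ((h2 j).1.memLp.aestronglyMeasurable.smul (continuous_gradient hχc1).aestronglyMeasurable)
      (Eventually.of_forall fun x => ?_)
    rw [norm_smul, mul_comm]
    exact mul_le_mul_of_nonneg_right (hD x) (norm_nonneg _)
  have hmd : MemLp (fun x => G' j x - p x) 2 volume := (h2 j).1.memLp_grad.sub h.1.memLp_grad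
  have hmd2 : MemLp (fun x => φ' j x - u x) 2 volume := (h2 j).1.memLp.sub h.1.memLp
  have n1 : nr (fun x => χ x • G' j x) ≤ nr p + nr (fun x => G' j x - p x) := by
    have a1 : nr (fun x => χ x • G' j x) ≤ 1 * nr (G' j) := by
      refine nr_le_mul zero_le_one (h2 j).1.memLp_grad (Eventually.of_forall fun x => ?_)
      rw [norm_smul, Real.norm_eq_abs, abs_of_nonneg (hχn x)]
      exact mul_le_mul_of_nonneg_right (hχl x) (norm_nonneg _)
    have a2 := nr_add_le h.1.memLp_grad hmd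
    have a3 : (fun x => p x + (G' j x - p x)) = G' j := by ext1 x; abel
    rw [a3] at a2
    linarith
  have n2 : nr (fun x => φ' j x • gradient χ x) ≤ D * nr (fun x => φ' j x - u x) := by
    refine nr_le_mul hD0 hmd2 ?_
    filter_upwards [hoff] with x hx
    by_cases hxb : x ∈ ball x₀ R
    · rw [hg0 x hxb, smul_zero, norm_zero]
      exact mul_nonneg hD0 (norm_nonneg _)
    · rw [hx hxb, sub_zero, norm_smul, mul_comm]
      exact mul_le_mul_of_nonneg_right (hD x) (norm_nonneg _)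
  have n3 : nr W ≤ nr p + nr (fun x => G' j x - p x) + D * nr (fun x => φ' j x - u x) := by
    have := nr_add_le hmG hmφ
    linarith
  have n4 : nr (fun x => hb' ε (ψ x) • W x) ≤ (1 + ε) * nr W := by
    refine nr_le_mul (by linarith) hψW.memLp_grad (Eventually.of_forall fun x => ?_)
    rw [norm_smul]
    exact mul_le_mul_of_nonneg_right (hb'_abs hε _) (norm_nonneg _)
  refine ⟨fun x => hb ε (ψ x), fun x => hb' ε (ψ x) • W x, hup.memLp_grad, ?_, ?_, ?_⟩
  · refine Eventually.of_forall fun x hx => ?_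
    have : χ x = 0 := hχ0 x (by rw [mem_ball]; linarith)
    simp only [hψ, this, zero_mul]
    exact hb_zero 0 hε le_rfl
  · have := mul_le_mul_of_nonneg_left n3 (show (0 : ℝ) ≤ 1 + ε by linarith)
    nlinarith
  · intro K₂ τ H hτ hτc hτ0 hτ1
    have hsum := hup.add hτ
    refine ⟨hsum, fun _ x => hb ε (ψ x) + τ x, fun _ x => hb' ε (ψ x) • W x + H x, fun _ =>
      ⟨hsum, ((hb_continuous hε).comp (hχ.continuous.mul (h2 j).2.1)).add hτc, ?_⟩,
      L2t_const _, L2t_const _⟩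
    intro x hx
    rcases hx with hx | hx
    · have e1 : ψ x = φ' j x := by
        simp only [hψ]
        rw [hχ1 x (ball_subset_closedBall (hKR hx)), one_mul]
      have e2 := hb_ge hε ((h2 j).2.2 x hx)
      rw [← e1] at e2
      have := hτ0 x
      show 1 ≤ hb ε (ψ x) + τ x
      linarith
    · have := hb_nonneg hε (ψ x)
      have := hτ1 x hx
      show 1 ≤ hb ε (ψ x) + τ x
      linarith

theorem goodQE : GoodClass (ClsQE (n := n)) where
  obst := fun K _ => obstQE K
  mono := fun hK h => by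
    obtain ⟨a, b, c, d, e, f⟩ := h
    exact ⟨a, b, c, fun j => ⟨(d j).1, (d j).2.1, fun x hx => (d j).2.2 x (hK hx)⟩, e, f⟩
  up := fun _ hKR _ hσ hε h _ hoff => qe_up hKR hσ hε h hoff

end Pool.Agent.helper33.Insul
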